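import Pool.Agent.Helper70K9.TN.Main1

/-!
# Almost all surfaces `y ^ 2 + a x y + b y = x ^ 3` and their covers: the count
-/

set_option autoImplicit false
set_option linter.all false

namespace Pool.Agent.Helper70K9.TN

open Polynomial NumberField Pool.Agent.R939.EI Pool.Agent.R939.HI Pool.Agent.W275.UB
open Pool.Agent.Helper7K9.T3 Pool.Agent.R939.KM
open Pool.Agent.TH115.GD (IsTower)

section main

variable {k k' K F : Type} [Field k] [Field k'] [Algebra k k'] [Field K] [Algebra k[X] K]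
    [Field F] [Algebra k'[X] F] [IsFractionRing k'[X] F] [Algebra K F]

/-- **Almost all surfaces and all their covers.** -/
theorem almost_covers [NumberField k] (hT : IsTower k k' K F) {J : Type} [Fintype J]
    (B : Module.Basis J ℤ (𝓞 k)) {r m : ℕ} (hm1 : 1 ≤ m) (hm3 : m ≠ 3)
    (hN : 4 ≤ max (3 * r) m) {η : ℝ} (hη : 0 < η) :
    ∃ H0 : ℕ, ∀ H : ℕ, H0 ≤ H →
    (({x : (Fin (r + 1) → 𝓞 k) × (Fin (m + 1) → 𝓞 k) |
      ((∀ j t, |B.repr (x.1 j) t| ≤ (H : ℤ)) ∧ ∀ j t, |B.repr (x.2 j) t| ≤ (H : ℤ)) ∧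
      ¬ TateCovers3 k' K F (polA fun j => algebraMap (𝓞 k) k (x.1 j))
        (polA fun j => algebraMap (𝓞 k) k (x.2 j))}.ncard : ℕ) : ℝ) ≤
      η * (2 * H + 1) ^ (Fintype.card J * (r + 1 + (m + 1))) := by
  classical
  set m' : Fin 1 → ℕ := fun _ => m with hm'
  set n : Fin 0 → ℕ := fun _ => 0 with hn
  obtain ⟨H0, hH⟩ := main_covers (n := n) (r := r) (m := m') B hT hm1 hm3 hN η hη
  refine ⟨H0, fun H hHH => ?_⟩
  have h1 := hH H hHH
  have hcard : Fintype.card (Ix r m' n × J) = Fintype.card J * (r + 1 + (m + 1)) := by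
    rw [Fintype.card_prod, card_Ix, Nat.mul_comm]
    simp [hm', hn]
  rw [hcard] at h1
  refine le_trans ?_ h1
  let tb : (Fin (m + 1) → 𝓞 k) → (i : Fin 1) → Fin (m' i + 1) → 𝓞 k := fun y _ => y
  let φ : ((Fin (r + 1) → 𝓞 k) × (Fin (m + 1) → 𝓞 k)) → (Ix r m' n × J → ℤ) := fun y o =>
    B.repr ((mk y.1 (tb y.2) (fun _ _ => 0) : Ix r m' n → 𝓞 k) o.1) o.2
  have hkv : ∀ y (o : Ix r m' n), kv B (φ y) o =
      algebraMap (𝓞 k) k ((mk y.1 (tb y.2) (fun _ _ => 0) : Ix r m' n → 𝓞 k) o) := by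
    intro y o
    show algebraMap (𝓞 k) k (elt B fun j =>
      B.repr ((mk y.1 (tb y.2) (fun _ _ => 0) : Ix r m' n → 𝓞 k) o) j) = _
    rw [← basis_elt B]
  have hinj : Function.Injective φ := by
    intro y z hyz
    have h3 : ∀ o : Ix r m' n, (mk y.1 (tb y.2) (fun _ _ => 0) : Ix r m' n → 𝓞 k) o =
        mk z.1 (tb z.2) (fun _ _ => 0) o := by
      intro o
      apply FaithfulSMul.algebraMap_injective (𝓞 k) k
      rw [← hkv, ← hkv, hyz]
    refine Prod.ext ?_ ?_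
    · funext j
      exact h3 (Sum.inl (Sum.inl j))
    · funext j
      exact h3 (Sum.inl (Sum.inr ⟨0, j⟩))
  have h4 : (Set.ncard {x : (Fin (r + 1) → 𝓞 k) × (Fin (m + 1) → 𝓞 k) |
      ((∀ j t, |B.repr (x.1 j) t| ≤ (H : ℤ)) ∧ ∀ j t, |B.repr (x.2 j) t| ≤ (H : ℤ)) ∧
      ¬ TateCovers3 k' K F (polA fun j => algebraMap (𝓞 k) k (x.1 j))
        (polA fun j => algebraMap (𝓞 k) k (x.2 j))}) ≤
      Set.ncard {v : Ix r m' n × J → ℤ | v ∈ {x : Ix r m' n × J → ℤ | ¬ TateCovers3 k' K F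
        (polA (aV (kv B x))) (polA (bV (kv B x) 0))} ∧ ∀ i, |v i| ≤ (H : ℤ)} := by
    rw [← Set.ncard_image_of_injective _ hinj]
    refine Set.ncard_le_ncard ?_ (box_fin _ H)
    rintro _ ⟨y, ⟨⟨b1, b2⟩, hbad⟩, rfl⟩
    have ea : aV (kv B (φ y)) = fun j => algebraMap (𝓞 k) k (y.1 j) := by
      funext j
      exact hkv y (Sum.inl (Sum.inl j))
    have eb : bV (kv B (φ y)) 0 = fun j => algebraMap (𝓞 k) k (y.2 j) := by
      funext j
      exact hkv y (Sum.inl (Sum.inr ⟨0, j⟩))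
    refine ⟨?_, ?_⟩
    · rw [Set.mem_setOf_eq, ea, eb]
      exact hbad
    · rintro ⟨(j | ⟨i, j⟩) | ⟨l, j⟩, t⟩
      · exact b1 j t
      · exact b2 j t
      · exact l.elim0
  exact_mod_cast h4

end main

end Pool.Agent.Helper70K9.TN
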