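import Pool.Agent.Helper70K9.TN.Crit
import Pool.Agent.Helper7K9.T3.Inst

/-!
# The criterion for compositions
-/

set_option autoImplicit false
set_option linter.all false

open Polynomial IsDedekindDomain WeierstrassCurve WeierstrassCurve.Affine
open scoped Classical

namespace Pool.Agent.Helper70K9.TN

open Pool.Agent.Helper7K9.T3
open Pool.Agent.TH115.GD (pl Pt act incl rs ak Sep act_act act_inj splits_of_sep splits_dvd IsTower
  desc_poly)

theorem disc_comp {k : Type} [Field k] (a b h : k[X]) :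
    (a.comp h) ^ 3 - 27 * b.comp h = (a ^ 3 - 27 * b).comp h := by
  rw [sub_comp, pow_comp, mul_comp]
  congr 2
  rw [show (27 : k[X]) = C 27 by rw [map_ofNat], C_comp]

theorem sep_irr {k : Type} [Field k] [CharZero k] {f : k[X]} (hf : Irreducible f) : f.Separable :=
  hf.separable

section ctx

variable {k k' K F : Type} [Field k] [CharZero k] [Field k'] [Algebra k k'] [Field K]
    [Algebra k[X] K] [Field F] [Algebra k'[X] F] [IsFractionRing k'[X] F] [Algebra K F]

/-- the conditions for the discriminant -/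
theorem disc_conds (hT : IsTower k k' K F) {a b h : k[X]} (hD : Irreducible (a ^ 3 - 27 * b))
    (hD2 : NoSub 2 (a ^ 3 - 27 * b)) (hD3 : NoSub 3 (a ^ 3 - 27 * b))
    (hDh : Irreducible ((a ^ 3 - 27 * b).comp h)) (hh : ¬ 3 ∣ h.natDegree)
    (hodd : Odd h.natDegree ∨ ∃ x : k, x ^ 2 + x + 1 = 0) (z : k') (hz : z ^ 2 + z + 1 = 0) :
    NoCubic k k' (fixZ k z) ((a.comp h) ^ 3 - 27 * b.comp h) ∧
      EnoughDual3 K F z (a.comp h) (b.comp h) := by
  haveI := hT.sep
  haveI := hT.fracK
  haveI : IsSepClosed k' := IsSepClosure.sep_closed k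
  haveI : IsGalois k k' := inferInstance
  have h3 : (3 : k) ≠ 0 := by norm_num
  have hd' : (a.comp h) ^ 3 - 27 * b.comp h ≠ 0 := by
    rw [disc_comp]
    exact hDh.ne_zero
  have hsq : ¬ ((a ^ 3 - 27 * b).comp h) ^ (1 + 1) ∣ (a ^ 3 - 27 * b).comp h := by
    rw [pow_succ, pow_one]
    intro h4
    have h5 : ((a ^ 3 - 27 * b).comp h) * ((a ^ 3 - 27 * b).comp h) ∣
        ((a ^ 3 - 27 * b).comp h) * 1 := by rw [mul_one]; exact h4
    exact hDh.not_isUnit (isUnit_of_dvd_one ((mul_dvd_mul_iff_left hDh.ne_zero).1 h5))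
  by_cases hk : ∃ x : k, x ^ 2 + x + 1 = 0
  · have hzk : ∃ x : k, algebraMap k k' x = z := by
      obtain ⟨x, hx⟩ := hk
      have h4 : (z - algebraMap k k' x) * (z - algebraMap k k' (-1 - x)) = 0 := by
        have h5 : (algebraMap k k' x) ^ 2 + algebraMap k k' x + 1 = 0 := by
          rw [← map_pow, ← map_add, ← map_one (algebraMap k k'), ← map_add, hx, map_zero]
        rw [map_sub, map_neg, map_one]
        linear_combination hz - h5
      rcases mul_eq_zero.1 h4 with h | h
      · exact ⟨x, (sub_eq_zero.1 h).symm⟩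
      · exact ⟨-1 - x, (sub_eq_zero.1 h).symm⟩
    have htop : fixZ k z = ⊤ := by
      rw [eq_top_iff]
      intro s _
      obtain ⟨x, rfl⟩ := hzk
      exact s.commutes x
    constructor
    · rw [disc_comp] at hd' ⊢
      refine noCubic_comp (m := 1) hd' hD hD.separable hDh hDh.separable (by rw [pow_one]) hsq
        (by norm_num) hD3 hh _ (fixZ_normal hz) (fixZ_index_dvd hz) (Or.inl htop)
    · refine dual_prime_power hT h3 hd' hzk (v := 1) (n := 1) hDh ?_ (by norm_num)
      rw [disc_comp, C_1, one_mul, pow_one]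
  · have hodd' : Odd h.natDegree := hodd.resolve_right hk
    push Not at hk
    constructor
    · rw [disc_comp] at hd' ⊢
      refine noCubic_comp (m := 1) hd' hD hD.separable hDh hDh.separable (by rw [pow_one]) hsq
        (by norm_num) hD3 hh _ (fixZ_normal hz) (fixZ_index_dvd hz) (Or.inr ?_)
      intro y hy
      exact swap_of_noSub hz hk hD hD.separable hD2 hy
    · refine dual_of_swap hT hd' ?_ ?_
      · intro π hπ _
        exact hπ.separable
      · intro θ hθ
        rw [disc_comp] at hθ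
        exact swap_comp hz hk hD hD.separable hD2 hDh hodd' hθ

/-- **The Tate conjecture for compositions.** -/
theorem tate_comp (hT : IsTower k k' K F) {a b h : k[X]} (hb : b ≠ 0)
    (hD : Irreducible (a ^ 3 - 27 * b)) (hD2 : NoSub 2 (a ^ 3 - 27 * b))
    (hD3 : NoSub 3 (a ^ 3 - 27 * b)) {ι : Type*} [Fintype ι] {p₀ : k[X]} {p : ι → k[X]}
    (hbe : b = p₀ * ∏ i, p i) (hp₀ : Irreducible p₀) (hp : ∀ i, Irreducible (p i))
    (n0 : ∀ i, ¬ p₀ ∣ p i) (n1 : ∀ i j, i ≠ j → ¬ p i ∣ p j)
    {π : k[X]} (hπ : Irreducible π) (hπb : π ∣ b) (hπ3 : NoSub 3 π)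
    (hp₀h : Irreducible (p₀.comp h)) (hph : ∀ i, Irreducible ((p i).comp h))
    (hDh : Irreducible ((a ^ 3 - 27 * b).comp h)) (hh : ¬ 3 ∣ h.natDegree)
    (hodd : Odd h.natDegree ∨ ∃ x : k, x ^ 2 + x + 1 = 0)
    (P : ι → Pt (crv3 (algebraMap k[X] K (a.comp h)) (algebraMap k[X] K (b.comp h))) K)
    (hP : ∀ i, ∃ c : F, c ≠ 0 ∧ Pool.Agent.Helper7K9.T3.em K F ((p i).comp h) =
      c ^ 3 * algebraMap K F (dT (algebraMap k[X] K (b.comp h)) (P i))) :
    TateAt (F := F) 3 k' (crv3 (algebraMap k[X] K (a.comp h)) (algebraMap k[X] K (b.comp h))) ∧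
      LinearIndependent ℤ P := by
  haveI := hT.sep
  haveI := hT.fracK
  haveI : IsSepClosed k' := IsSepClosure.sep_closed k
  haveI : IsGalois k k' := inferInstance
  have h3 : (3 : k) ≠ 0 := by norm_num
  have hd' : (a.comp h) ^ 3 - 27 * b.comp h ≠ 0 := by
    rw [disc_comp]
    exact hDh.ne_zero
  have cop : ∀ f g : k[X], Irreducible f → ¬ f ∣ g → IsCoprime (f.comp h) (g.comp h) := by
    intro f g hf hfg
    have h4 : IsCoprime f g := (hf.coprime_iff_not_dvd).2 hfg
    have h5 := h4.map (Polynomial.compRingHom h)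
    exact h5
  have ndc : ∀ f g : k[X], Irreducible f → Irreducible (f.comp h) → ¬ f ∣ g →
      ¬ f.comp h ∣ g.comp h := by
    intro f g hf hfh hfg hdv
    exact hfh.not_isUnit ((cop f g hf hfg).isUnit_of_dvd' dvd_rfl hdv)
  have hbc : b.comp h = p₀.comp h * ∏ i, (p i).comp h := by
    rw [hbe, mul_comp, prod_comp]
  have hb' : b.comp h ≠ 0 := by
    rw [hbc]
    exact mul_ne_zero hp₀h.ne_zero (Finset.prod_ne_zero_iff.2 fun i _ => (hph i).ne_zero)
  -- `π` is one of the factors
  have hπh : Irreducible (π.comp h) := by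
    rw [hbe] at hπb
    have key : ∀ f : k[X], Irreducible f → Irreducible (f.comp h) → π ∣ f →
        Irreducible (π.comp h) := by
      intro f hf hfh hdv
      obtain ⟨w, hw⟩ := (hπ.associated_of_dvd hf hdv)
      obtain ⟨y, hy, ey⟩ := Polynomial.isUnit_iff.1 w.isUnit
      rw [← hw, ← ey, mul_comp, C_comp] at hfh
      exact (irreducible_mul_isUnit (isUnit_C.2 hy)).1 hfh
    rcases hπ.prime.dvd_or_dvd hπb with h4 | h4
    · exact key _ hp₀ hp₀h h4
    · obtain ⟨i, -, hi⟩ := (hπ.prime.dvd_finset_prod_iff _).1 h4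
      exact key _ (hp i) (hph i) hi
  have hsqf : Squarefree b := by
    rw [hbe]
    have c1 : IsCoprime p₀ (∏ i, p i) := IsCoprime.prod_right fun i _ =>
      (hp₀.coprime_iff_not_dvd).2 (n0 i)
    rw [squarefree_mul_iff]
    refine ⟨c1.isRelPrime, hp₀.squarefree, ?_⟩
    refine Finset.squarefree_prod_of_pairwise_isCoprime ?_ fun i _ => (hp i).squarefree
    intro i _ j _ hij
    exact (((hp i).coprime_iff_not_dvd).2 (n1 i j hij)).isRelPrime
  obtain ⟨c, hc⟩ := hπb
  have hπc : ¬ π ∣ c := by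
    intro h4
    have h5 : π * π ∣ b := by
      rw [hc]
      exact mul_dvd_mul_left _ h4
    exact hπ.not_isUnit (hsqf π h5)
  have hNb : NoCubic k k' ⊤ (b.comp h) := by
    refine noCubic_comp (m := 1) hb' hπ hπ.separable hπh hπh.separable ?_ ?_
      (by norm_num) hπ3 hh _ inferInstance (by rw [Subgroup.index_top]; exact one_dvd _)
      (Or.inl rfl)
    · rw [pow_one, hc, mul_comp]
      exact dvd_mul_right _ _
    · rw [pow_succ, pow_one, hc, mul_comp, mul_dvd_mul_iff_left hπh.ne_zero]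
      exact ndc π c hπ hπh hπc
  refine family2 (u := 1) (p₀ := p₀.comp h) (p := fun i => (p i).comp h) hT h3 hb' hd'
    (fun π hπ _ => hπ.separable) hNb
    (fun z hz => disc_conds hT hD hD2 hD3 hDh hh hodd z hz) hp₀h hph
    (fun i => ndc p₀ (p i) hp₀ hp₀h (n0 i)) (fun i j hij => ndc (p i) (p j) (hp i) (hph i) (n1 i j hij))
    (by rw [hbc, C_1, one_mul]) P hP

end ctx

end Pool.Agent.Helper70K9.TN
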