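import Pool.Agent.R939.HI.Trans2

/-!
# Hilbert irreducibility with densities, with local models at the primes prime to 6

The statements and proofs of `Pool.Agent.R939.HI.Trans` and `Pool.Agent.R939.HI.Trans2`, with local
models only for the primes `p > 3`.
-/

set_option autoImplicit false
set_option linter.all false

namespace Pool.Agent.Helper70K9.TN

open MvPolynomial Pool.Agent.W275.UB Pool.Agent.W275.ND Pool.Agent Pool.Agent.H927R2.RD
open Pool.Agent.R939.HI

/-- an order embeds in the `p`-adic integers for some prime `p` not equal to 2 and 3 -/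
theorem spl6 (O J : Type) [CommRing O] [IsDomain O] [Fintype J] (ω : Module.Basis J ℤ O) :
    ∃ (p : ℕ) (_ : Fact p.Prime), p ≠ 2 ∧ p ≠ 3 ∧ Nonempty (O →+* ℤ_[p]) := by
  classical
  have hfree : Module.Free ℤ O := Module.Free.of_basis ω
  have hfin : Module.Finite ℤ O := Module.Finite.of_basis ω
  have hint : Algebra.IsIntegral ℤ O := Algebra.IsIntegral.of_finite ℤ O
  let σ : O →ₐ[ℤ] ℂ := IsAlgClosed.lift
  set s : Finset ℂ := Finset.univ.image (fun j => σ (ω j)) with hs
  obtain ⟨K, hK, hK', S, h⟩ := exists_padic_embedding s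
  obtain ⟨p, hpS', hp⟩ := W930.ND.exists_degOne K (insert 3 (insert 2 S))
  have hpS : p ∉ S := fun h => hpS' (Finset.mem_insert_of_mem (Finset.mem_insert_of_mem h))
  have hp2 : p ≠ 2 := fun h => hpS' (by
    rw [h]; exact Finset.mem_insert_of_mem (Finset.mem_insert_self _ _))
  have hp3 : p ≠ 3 := fun h => hpS' (by rw [h]; exact Finset.mem_insert_self _ _)
  have hpp : Fact p.Prime := ⟨hp.1⟩
  obtain ⟨e⟩ := h p hpS hp
  refine ⟨p, hpp, hp2, hp3, ?_⟩
  have hmem : ∀ x : O, σ x ∈ Subfield.closure (s : Set ℂ) := by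
    intro x
    rw [← ω.sum_repr x, map_sum]
    refine sum_mem fun j _ => ?_
    rw [map_zsmul]
    refine zsmul_mem (Subfield.subset_closure ?_) _
    rw [hs]
    simp
  let τ : O →+* Subfield.closure (s : Set ℂ) := (σ : O →+* ℂ).codRestrict _ hmem
  let g : O →+* ℚ_[p] := e.comp τ
  have hg : ∀ x : O, g x ∈ PadicInt.subring p := by
    intro x
    have h1 : IsIntegral ℤ (g x) := (hint.isIntegral x).map g.toIntAlgHom
    have h2 : IsIntegral ℤ_[p] (g x) := h1.tower_top
    obtain ⟨y, hy⟩ := IsIntegrallyClosed.isIntegral_iff.1 h2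
    rw [← hy]
    exact y.2
  exact ⟨g.codRestrict (PadicInt.subring p) hg⟩

/-- **Roots of small degree at which `Q` is a square.** -/
theorem roots6 {O J ι : Type} [CommRing O] [IsDomain O] [Fintype J] [Fintype ι]
    (ω : Module.Basis J ℤ O) (P Q : Polynomial (MvPolynomial ι ℤ)) (hP : P ≠ 0) (N : ℕ)
    (hloc : ∀ p : ℕ, p.Prime → p ≠ 2 → p ≠ 3 → ∃ (a : ι → ℤ) (M : ℕ), ∀ (K' : Type) [Field K'] (A : Type)
      [CommRing A] [IsDomain A] [IsDiscreteValuationRing A] [Algebra A K'] [IsFractionRing A K']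
      (π : A), Irreducible π → π ∣ (p : A) → ¬ π ^ (N + 1) ∣ (p : A) → ∀ b : ι → A,
      (∀ i, (p : A) ^ M ∣ b i - (a i : A)) → ∀ θ w : K',
      P.eval₂ (av fun i => algebraMap A K' (b i)) θ = 0 →
      w ^ 2 ≠ Q.eval₂ (av fun i => algebraMap A K' (b i)) θ) :
    D0 {x : ι × J → ℤ | ∃ (K : Type) (_ : Field K) (_ : NumberField K) (σ : O →+* K) (θ w : K),
      Module.finrank ℚ K ≤ N * Fintype.card J ∧
      P.eval₂ (av (cv (fun j => σ (ω j)) fun q => (x q : K))) θ = 0 ∧
      w ^ 2 = Q.eval₂ (av (cv (fun j => σ (ω j)) fun q => (x q : K))) θ} := by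
  classical
  by_contra hcon
  have hcon' : ¬ (∀ ε : ℝ, 0 < ε → UD ε {x : ι × J → ℤ |
      ∃ (K : Type) (_ : Field K) (_ : NumberField K) (y : J ⊕ Fin 2 → K),
        Module.finrank ℚ K ≤ N * Fintype.card J ∧
        (∀ g ∈ gT ω ι ∪ {gP J P, gQ J Q}, eval₂ ((Int.castRingHom K).comp (eval x)) y g = 0) ∧
        eval₂ ((Int.castRingHom K).comp (eval x)) y 1 ≠ 0}) := by
    intro h
    apply hcon
    intro ε hε
    refine (h ε hε).mono ?_
    rintro x ⟨K, _, _, σ, θ, w, hK, hθ, hw⟩
    refine ⟨K, inferInstance, inferInstance, Sum.elim (fun j => σ (ω j)) ![θ, w], hK, ?_, ?_⟩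
    · have hx : ∀ q : ι × J, ((Int.castRingHom K).comp (eval x)) (X q) = (x q : K) := by
        intro q
        simp
      rintro g (hg | rfl | rfl)
      · exact (eval_gT ω _ _).2 ((tab O J K ω _).2 ⟨σ, fun j => rfl⟩) g hg
      · rw [eval_gP]
        simp only [hx]
        simpa using hθ
      · rw [eval_gQ]
        simp only [hx]
        simpa using sub_eq_zero.2 hw
    · rw [eval₂_one]
      exact one_ne_zero
  obtain ⟨L, _, _, y, hfd, hdeg, hy, -⟩ := genT (ι × J) (J ⊕ Fin 2) (N * Fintype.card J)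
    (gT ω ι ∪ {gP J P, gQ J Q}) 1 (by
      intro Ω _ _ _ y hy
      obtain ⟨σ, hσ⟩ := (tab O J Ω ω _).1 ((eval_gT ω _ _).1 fun g hg => hy g (Or.inl hg))
      have h1 := hy _ (Or.inr (Or.inl rfl))
      have h2 := hy _ (Or.inr (Or.inr rfl))
      rw [eval_gP] at h1
      rw [eval_gQ] at h2
      set v : ι → Ω := cv (fun j => y (Sum.inl j)) fun q => gn (ι × J) Ω (X q) with hv
      have hint : ∀ x : O, IsIntegral ℤ (σ x) := by
        intro x
        haveI : Module.Finite ℤ O := Module.Finite.of_basis ω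
        have h1 : IsIntegral ℤ x := Algebra.IsIntegral.isIntegral x
        have h2 := h1.map (σ.toIntAlgHom)
        exact h2
      have hz : ∀ j, IsAlgebraic (EE (ι × J)) (y (Sum.inl j)) := by
        intro j
        rw [show y (Sum.inl j) = σ (ω j) from hσ j]
        obtain ⟨p, hp, hpx⟩ := hint (ω j)
        refine IsIntegral.isAlgebraic
          ⟨p.map (Int.castRingHom (EE (ι × J))), hp.map _, ?_⟩
        rw [Polynomial.eval₂_map]
        have h2 : (algebraMap (EE (ι × J)) Ω).comp
            (Int.castRingHom (EE (ι × J))) = algebraMap ℤ Ω := RingHom.ext_int _ _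
        rw [h2]
        exact hpx
      have hvalg : ∀ i, IsAlgebraic (EE (ι × J)) (v i) := by
        intro i
        rw [hv]
        simp only [cv]
        refine Finset.sum_induction _ (IsAlgebraic (EE (ι × J))) (fun _ _ => IsAlgebraic.add)
          isAlgebraic_zero ?_
        intro j _
        exact (hz j).mul (isAlgebraic_algebraMap _)
      have hne : ∀ c : MvPolynomial ι ℤ, c ≠ 0 → av v c ≠ 0 := by
        intro c hc
        obtain ⟨cn, hcn, hdiv⟩ := norm O J ι ω c hc
        have h3 := hdiv Ω σ fun q => gn (ι × J) Ω (X q)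
        rw [gn_aeval] at h3
        have h4 := ne_zero_of_dvd_ne_zero (gn_ne_zero cn hcn) h3
        rw [av_aeval]
        have h5 : (fun j => σ (ω j)) = fun j => y (Sum.inl j) := funext fun j => (hσ j).symm
        rwa [h5] at h4
      have hPv : P.map (av v) ≠ 0 := by
        obtain ⟨n, hn⟩ : ∃ n, P.coeff n ≠ 0 := by
          by_contra h
          push Not at h
          exact hP (Polynomial.ext h)
        intro h0
        have := congrArg (fun f => Polynomial.coeff f n) h0
        simp only [Polynomial.coeff_map, Polynomial.coeff_zero] at this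
        exact hne _ hn this
      have hθ : IsAlgebraic (EE (ι × J)) (y (Sum.inr 0)) := by
        refine isAlg_root hPv ?_ (by rw [Polynomial.eval_map]; exact h1)
        intro n
        rw [Polynomial.coeff_map]
        exact isAlg_av hvalg _
      have hw : IsAlgebraic (EE (ι × J)) (y (Sum.inr 1)) := by
        have h3 : IsAlgebraic (EE (ι × J)) (y (Sum.inr 1) ^ 2) := by
          rw [sub_eq_zero.1 h2, ← Polynomial.eval_map]
          refine isAlg_eval ?_ hθ
          intro n
          rw [Polynomial.coeff_map]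
          exact isAlg_av hvalg _
        exact h3.of_pow (by norm_num)
      intro t
      rcases t with j | t
      · exact hz j
      · fin_cases t
        · exact hθ
        · exact hw) hcon'
  haveI := hfd
  obtain ⟨σ, hσ⟩ := (tab O J L ω _).1 ((eval_gT ω _ _).1 fun g hg => hy g (Or.inl hg))
  have h1 := hy _ (Or.inr (Or.inl rfl))
  have h2 := hy _ (Or.inr (Or.inr rfl))
  rw [eval_gP] at h1
  rw [eval_gQ] at h2
  have hσ' : (fun j => y (Sum.inl j)) = fun j => σ (ω j) := funext hσ
  rw [hσ'] at h1 h2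
  obtain ⟨p, hp, hp2, hp3, ⟨σ₀⟩⟩ := spl6 O J ω
  obtain ⟨a, M, hno⟩ := hloc p hp.1 hp2 hp3
  have hJ : 0 < Fintype.card J := by
    rw [Fintype.card_pos_iff]
    by_contra hemp
    rw [not_nonempty_iff] at hemp
    have : Subsingleton O := ω.repr.toEquiv.subsingleton
    exact not_subsingleton O this
  obtain ⟨K', _, φ, A, _, _, _, _, _, π, b, hπ, hπp, hπN, hb, hba⟩ :=
    lmk O J ω p σ₀ ι a 0 M (N + 1) L σ
      (lt_of_le_of_lt hdeg (Nat.mul_lt_mul_of_pos_right (Nat.lt_succ_self N) hJ))
  refine hno K' A π hπ hπp hπN b hba (φ (y (Sum.inr 0))) (φ (y (Sum.inr 1))) ?_ ?_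
  · have h3 := congrArg φ h1
    rw [Polynomial.hom_eval₂, map_zero, hom_av] at h3
    simp only [hb, pow_zero, one_mul]
    exact h3
  · have h3 := congrArg φ (sub_eq_zero.1 h2)
    rw [Polynomial.hom_eval₂, map_pow, hom_av] at h3
    simp only [hb, pow_zero, one_mul]
    exact h3

/-- **Factors over extensions of small degree.** -/
theorem factors6 {O J ι : Type} [CommRing O] [IsDomain O] [Fintype J] [Fintype ι]
    (ω : Module.Basis J ℤ O) (P : Polynomial (MvPolynomial ι ℤ)) (hP : P ≠ 0) (N i : ℕ)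
    (hloc : ∀ p : ℕ, p.Prime → p ≠ 2 → p ≠ 3 → ∃ (a : ι → ℤ) (M : ℕ), ∀ (K' : Type) [Field K'] (A : Type)
      [CommRing A] [IsDomain A] [IsDiscreteValuationRing A] [Algebra A K'] [IsFractionRing A K']
      (π : A), Irreducible π → π ∣ (p : A) → ¬ π ^ (N + 1) ∣ (p : A) → ∀ b : ι → A,
      (∀ i, (p : A) ^ M ∣ b i - (a i : A)) → ∀ g h : Polynomial K', g.Monic → g.natDegree = i →
      g * h ≠ P.map (av fun i => algebraMap A K' (b i))) :
    D0 {x : ι × J → ℤ | ∃ (K : Type) (_ : Field K) (_ : NumberField K) (σ : O →+* K)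
      (g h : Polynomial K), Module.finrank ℚ K ≤ N * Fintype.card J ∧ g.Monic ∧ g.natDegree = i ∧
      g * h = P.map (av (cv (fun j => σ (ω j)) fun q => (x q : K)))} := by
  classical
  set n := P.natDegree + 1 with hn
  by_contra hcon
  have hcon' : ¬ (∀ ε : ℝ, 0 < ε → UD ε {x : ι × J → ℤ |
      ∃ (K : Type) (_ : Field K) (_ : NumberField K) (y : J ⊕ (Fin i ⊕ Fin n) → K),
        Module.finrank ℚ K ≤ N * Fintype.card J ∧
        (∀ g ∈ gTT (Fin i ⊕ Fin n) ω ι ∪ gF J i n P,
          eval₂ ((Int.castRingHom K).comp (eval x)) y g = 0) ∧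
        eval₂ ((Int.castRingHom K).comp (eval x)) y 1 ≠ 0}) := by
    intro h
    apply hcon
    intro ε hε
    refine (h ε hε).mono ?_
    rintro x ⟨K, _, _, σ, g, h, hK, hgm, hgd, hgh⟩
    have hx : ∀ q : ι × J, ((Int.castRingHom K).comp (eval x)) (X q) = (x q : K) := by
      intro q
      simp
    have hhd : h.natDegree < n := by
      by_cases hh : h = 0
      · rw [hh, Polynomial.natDegree_zero]; omega
      · have h1 : (g * h).natDegree ≤ P.natDegree := by
          rw [hgh]
          exact Polynomial.natDegree_map_le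
        rw [Polynomial.natDegree_mul hgm.ne_zero hh] at h1
        omega
    refine ⟨K, inferInstance, inferInstance, Sum.elim (fun j => σ (ω j))
      (Sum.elim (fun j => g.coeff j) fun j => h.coeff j), hK, ?_, ?_⟩
    · rintro f (hf | hf)
      · exact (eval_gTT _ ω _ _).2 ((tab O J K ω _).2 ⟨σ, fun j => rfl⟩) f hf
      · refine (eval_gF P _ _).2 ?_ f hf
        simp only [hx, Sum.elim_inl, Sum.elim_inr]
        subst hgd
        rw [← eq_pm hgm, ← eq_pl hhd]
        exact hgh
    · rw [eval₂_one]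
      exact one_ne_zero
  obtain ⟨L, _, _, y, hfd, hdeg, hy, -⟩ := genT (ι × J) (J ⊕ (Fin i ⊕ Fin n)) (N * Fintype.card J)
    (gTT (Fin i ⊕ Fin n) ω ι ∪ gF J i n P) 1 (by
      intro Ω _ _ _ y hy
      obtain ⟨σ, hσ⟩ := (tab O J Ω ω _).1 ((eval_gTT _ ω _ _).1 fun g hg => hy g (Or.inl hg))
      have h1 := (eval_gF P _ _).1 fun g hg => hy g (Or.inr hg)
      set v : ι → Ω := cv (fun j => y (Sum.inl j)) fun q => gn (ι × J) Ω (X q) with hv
      have hint : ∀ x : O, IsIntegral ℤ (σ x) := by
        intro x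
        haveI : Module.Finite ℤ O := Module.Finite.of_basis ω
        have h1 : IsIntegral ℤ x := Algebra.IsIntegral.isIntegral x
        have h2 := h1.map (σ.toIntAlgHom)
        exact h2
      have hz : ∀ j, IsAlgebraic (EE (ι × J)) (y (Sum.inl j)) := by
        intro j
        rw [show y (Sum.inl j) = σ (ω j) from hσ j]
        obtain ⟨p, hp, hpx⟩ := hint (ω j)
        refine IsIntegral.isAlgebraic
          ⟨p.map (Int.castRingHom (EE (ι × J))), hp.map _, ?_⟩
        rw [Polynomial.eval₂_map]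
        have h2 : (algebraMap (EE (ι × J)) Ω).comp
            (Int.castRingHom (EE (ι × J))) = algebraMap ℤ Ω := RingHom.ext_int _ _
        rw [h2]
        exact hpx
      have hvalg : ∀ i, IsAlgebraic (EE (ι × J)) (v i) := by
        intro i
        rw [hv]
        simp only [cv]
        refine Finset.sum_induction _ (IsAlgebraic (EE (ι × J))) (fun _ _ => IsAlgebraic.add)
          isAlgebraic_zero ?_
        intro j _
        exact (hz j).mul (isAlgebraic_algebraMap _)
      have hne : ∀ c : MvPolynomial ι ℤ, c ≠ 0 → av v c ≠ 0 := by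
        intro c hc
        obtain ⟨cn, hcn, hdiv⟩ := norm O J ι ω c hc
        have h3 := hdiv Ω σ fun q => gn (ι × J) Ω (X q)
        rw [gn_aeval] at h3
        have h4 := ne_zero_of_dvd_ne_zero (gn_ne_zero cn hcn) h3
        rw [av_aeval]
        have h5 : (fun j => σ (ω j)) = fun j => y (Sum.inl j) := funext fun j => (hσ j).symm
        rwa [h5] at h4
      have hPv : P.map (av v) ≠ 0 := by
        obtain ⟨n, hn⟩ : ∃ n, P.coeff n ≠ 0 := by
          by_contra h
          push Not at h
          exact hP (Polynomial.ext h)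
        intro h0
        have := congrArg (fun f => Polynomial.coeff f n) h0
        simp only [Polynomial.coeff_map, Polynomial.coeff_zero] at this
        exact hne _ hn this
      obtain ⟨hga, hha⟩ := isAlg_factor (E := EE (ι × J)) hPv (fun n => by
        rw [Polynomial.coeff_map]
        exact isAlg_av hvalg _) (pm_monic _) h1
      intro t
      rcases t with j | j | j
      · exact hz j
      · have h5 := hga j
        rw [pm_eq, Polynomial.coeff_add, Polynomial.coeff_X_pow, if_neg (by have := j.2; omega),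
          zero_add, pl_coeff, dif_pos j.2] at h5
        exact h5
      · have h5 := hha j
        rw [pl_coeff, dif_pos j.2] at h5
        exact h5) hcon'
  haveI := hfd
  obtain ⟨σ, hσ⟩ := (tab O J L ω _).1 ((eval_gTT _ ω _ _).1 fun g hg => hy g (Or.inl hg))
  have h1 := (eval_gF P _ _).1 fun g hg => hy g (Or.inr hg)
  have hσ' : (fun j => y (Sum.inl j)) = fun j => σ (ω j) := funext hσ
  rw [hσ'] at h1
  obtain ⟨p, hp, hp2, hp3, ⟨σ₀⟩⟩ := spl6 O J ω
  obtain ⟨a, M, hno⟩ := hloc p hp.1 hp2 hp3
  have hJ : 0 < Fintype.card J := by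
    rw [Fintype.card_pos_iff]
    by_contra hemp
    rw [not_nonempty_iff] at hemp
    have : Subsingleton O := ω.repr.toEquiv.subsingleton
    exact not_subsingleton O this
  obtain ⟨K', _, φ, A, _, _, _, _, _, π, b, hπ, hπp, hπN, hb, hba⟩ :=
    lmk O J ω p σ₀ ι a 0 M (N + 1) L σ
      (lt_of_le_of_lt hdeg (Nat.mul_lt_mul_of_pos_right (Nat.lt_succ_self N) hJ))
  refine hno K' A π hπ hπp hπN b hba
    ((pm (fun j : Fin i => y (Sum.inr (Sum.inl j)))).map φ)
    ((pl (fun j : Fin n => y (Sum.inr (Sum.inr j)))).map φ) ((pm_monic _).map φ) ?_ ?_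
  · rw [(pm_monic _).natDegree_map, pm_natDegree]
  · rw [← Polynomial.map_mul, h1, Polynomial.map_map, hom_av]
    simp only [hb, pow_zero, one_mul]

end Pool.Agent.Helper70K9.TN
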