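import Pool.Agent.R939.HI.Loc2
import Pool.Agent.Helper70K9.TN.Tr

/-!
# Density zero: roots and factors of small degree, from the Newton polygon of a local target
-/

set_option autoImplicit false
set_option linter.all false

namespace Pool.Agent.Helper70K9.TN

open Polynomial Pool.Agent.R939.EI Pool.Agent.R939.HI Pool.Agent.W275.UB

section newton

variable {A : Type} [CommRing A] [IsDomain A] [IsDiscreteValuationRing A] {π : A} {q c : ℕ}

/-- **Degrees of factors**, for an edge of length `L` with a slope of denominator `q`. -/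
theorem newtonL (hπ : Irreducible π) (hq : 0 < q) (hcop : Nat.Coprime q c) {g h : A[X]}
    {l L w : ℕ} (hL : Mi π q c (fun a b => a < b) (g * h) l w)
    (hR : Mi π q c (fun a b => b < a) (g * h) (l + L) w) : q ≤ g.natDegree ∨ L ≤ h.natDegree := by
  have hgh : g * h ≠ 0 := by
    intro h0
    obtain ⟨n, u, hu, -⟩ := hL.1
    rw [h0, coeff_zero] at hu
    exact (mul_ne_zero u.ne_zero (pow_ne_zero n hπ.ne_zero)) hu.symm
  have hg : g ≠ 0 := left_ne_zero_of_mul hgh
  have hh : h ≠ 0 := right_ne_zero_of_mul hgh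
  obtain ⟨lg, wg, Lg⟩ := Mi.exists (q := q) (c := c) rho_lt hπ hq hg
  obtain ⟨lh, wh, Lh⟩ := Mi.exists (q := q) (c := c) rho_lt hπ hq hh
  obtain ⟨rg, wg', Rg⟩ := Mi.exists (q := q) (c := c) rho_gt hπ hq hg
  obtain ⟨rh, wh', Rh⟩ := Mi.exists (q := q) (c := c) rho_gt hπ hq hh
  have e1 := (Lg.mul rho_lt hπ hq Lh).unique rho_lt hπ hL
  have e2 := (Rg.mul rho_gt hπ hq Rh).unique rho_gt hπ hR
  have hw : wg = wg' := by
    apply le_antisymm
    · by_contra hlt
      push Not at hlt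
      exact Rg.1.not_ge hπ ((Lg.2.1 rg).mono (by omega))
    · by_contra hlt
      push Not at hlt
      exact Lg.1.not_ge hπ ((Rg.2.1 lg).mono (by omega))
  subst hw
  have hlg : lg ≤ rg := by
    by_contra hlt
    push Not at hlt
    exact Lg.1.not_ge hπ (Rg.2.2 lg hlt)
  have hlh : lh ≤ rh := by
    by_contra hlt
    push Not at hlt
    have hw' : wh = wh' := by
      have := e1.2
      have := e2.2
      omega
    subst hw'
    exact Lh.1.not_ge hπ (Rh.2.2 lh hlt)
  have hdvd : q ∣ rg - lg := by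
    obtain ⟨n, u, -, hn⟩ := Lg.1
    obtain ⟨n', u', -, hn'⟩ := Rg.1
    have h1 : (q : ℤ) ∣ c * ((rg : ℤ) - lg) := by
      refine ⟨(n : ℤ) - n', ?_⟩
      have h2 : (q : ℤ) * n + c * lg = q * n' + c * rg := by exact_mod_cast hn.trans hn'.symm
      linear_combination -h2
    have h3 : IsCoprime (q : ℤ) c := Nat.isCoprime_iff_coprime.2 hcop
    have h4 := h3.dvd_of_dvd_mul_left h1
    have h5 : ((rg - lg : ℕ) : ℤ) = (rg : ℤ) - lg := by
      push_cast [hlg]
      ring
    rw [← h5] at h4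
    exact_mod_cast h4
  have hrg : rg ≤ g.natDegree := by
    by_contra hlt
    push Not at hlt
    obtain ⟨n, u, hu, -⟩ := Rg.1
    rw [coeff_eq_zero_of_natDegree_lt hlt] at hu
    exact (mul_ne_zero u.ne_zero (pow_ne_zero n hπ.ne_zero)) hu.symm
  have hrh : rh ≤ h.natDegree := by
    by_contra hlt
    push Not at hlt
    obtain ⟨n, u, hu, -⟩ := Rh.1
    rw [coeff_eq_zero_of_natDegree_lt hlt] at hu
    exact (mul_ne_zero u.ne_zero (pow_ne_zero n hπ.ne_zero)) hu.symm
  have h1 := e1.1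
  have h2 := e2.1
  rcases Nat.eq_zero_or_pos (rg - lg) with h0 | h0
  · right
    omega
  · left
    have := Nat.le_of_dvd h0 hdvd
    omega

variable {K : Type} [Field K] [Algebra A K] [IsFractionRing A K]

/-- **Degrees of factors over the fraction field.** -/
theorem newtonL_frac (hπ : Irreducible π) (hq : 0 < q) (hcop : Nat.Coprime q c)
    {F : A[X]} (hF : IsUnit F.leadingCoeff) {l L w : ℕ}
    (hL : Mi π q c (fun a b => a < b) F l w)
    (hR : Mi π q c (fun a b => b < a) F (l + L) w) {g h : K[X]} (hg : g.Monic)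
    (e : g * h = F.map (algebraMap A K)) : q ≤ g.natDegree ∨ L ≤ h.natDegree := by
  obtain ⟨g', h', rfl, rfl, rfl⟩ := gauss hF hg e
  have hinj : Function.Injective (algebraMap A K) := IsFractionRing.injective A K
  rw [natDegree_map_eq_of_injective hinj, natDegree_map_eq_of_injective hinj]
  exact newtonL hπ hq hcop hL hR

end newton

section loc

variable {ι : Type} {P : (MvPolynomial ι ℤ)[X]} {N : ℕ}
  {K' : Type} [Field K'] {A : Type} [CommRing A] [IsDomain A] [IsDiscreteValuationRing A]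
  [Algebra A K'] [IsFractionRing A K'] {π : A} {p : ℕ}

/-- factors near a target with the Newton polygon of `t ^ N + p t` -/
theorem loc_edge (hN : 3 ≤ N) (hdeg : P.natDegree ≤ N) {a : ι → ℤ} {w : ℤ}
    (hw : IsCoprime w (p : ℤ)) (hT1 : (P.map (av a)).coeff 1 = (p : ℤ) * w)
    (hT0 : (p : ℤ) ^ 2 ∣ (P.map (av a)).coeff 0)
    (hTN : IsCoprime ((P.map (av a)).coeff N) (p : ℤ))
    (hTj : ∀ j, j ≠ 0 → j ≠ 1 → j ≠ N → (p : ℤ) ∣ (P.map (av a)).coeff j) {E0 i : ℕ}
    (hi : 2 ≤ i) (hE0 : ∀ e, 1 ≤ e → e ≤ E0 → i * Nat.gcd e (N - 1) < N - 1)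
    (hπ : Irreducible π) (hπp : π ∣ (p : A)) (hπN : ¬ π ^ (E0 + 1) ∣ (p : A)) {b : ι → A}
    (hb : ∀ i, (p : A) ^ 2 ∣ b i - (a i : A)) {g h : K'[X]} (hg : g.Monic)
    (hgd : g.natDegree = i) : g * h ≠ P.map (av fun i => algebraMap A K' (b i)) := by
  intro e
  have hp0 : (p : A) ≠ 0 := p_ne hπN
  obtain ⟨hu, hd, hl⟩ := lead_target hdeg hπ hπp hTN (by omega) hb
  rw [map_map_av] at e
  obtain ⟨E, u, hE⟩ := IsDiscreteValuationRing.eq_unit_mul_pow_irreducible hp0 hπ
  have hE1 : 1 ≤ E := by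
    rw [hE, ← pow_one π, ← pow_mul, one_mul] at hπp
    exact (pow_dvd_unit hπ).1 hπp
  have hE2 : E ≤ E0 := by
    rw [hE, pow_dvd_unit hπ] at hπN
    omega
  set F := P.map (av b) with hF
  set d := Nat.gcd E (N - 1) with hdd
  have hdpos : 0 < d := Nat.gcd_pos_of_pos_left _ hE1
  obtain ⟨c, hc⟩ : d ∣ E := Nat.gcd_dvd_left _ _
  obtain ⟨q, hq⟩ : d ∣ N - 1 := Nat.gcd_dvd_right _ _
  have hq0 : 0 < q := by
    rcases Nat.eq_zero_or_pos q with h0 | h0
    · rw [h0, Nat.mul_zero] at hq; omega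
    · exact h0
  have hc0 : 0 < c := by
    rcases Nat.eq_zero_or_pos c with h0 | h0
    · rw [h0, Nat.mul_zero] at hc; omega
    · exact h0
  have hcop : Nat.Coprime q c := by
    have h1 := Nat.coprime_div_gcd_div_gcd (m := E) (n := N - 1) hdpos
    rw [← hdd] at h1
    have e1 : E / d = c := by rw [hc]; exact Nat.mul_div_cancel_left _ hdpos
    have e2 : (N - 1) / d = q := by rw [hq]; exact Nat.mul_div_cancel_left _ hdpos
    rw [e1, e2] at h1
    exact h1.symm
  have hqE : q * E = c * (N - 1) := by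
    calc q * E = q * (d * c) := by rw [← hc]
      _ = c * (d * q) := by ring
      _ = c * (N - 1) := by rw [← hq]
  have hcN : c * (N - 1) + c = c * N := by
    have : N - 1 + 1 = N := by omega
    calc c * (N - 1) + c = c * (N - 1 + 1) := by ring
      _ = c * N := by rw [this]
  have ex1 : Ex π q c (c * N) 1 (F.coeff 1) := by
    obtain ⟨z, hz⟩ := coeff_near hb P 1
    have hU : IsUnit ((w : A) + (p : A) * z) := unit_add hπ (unit_int hπ hπp hw) (hπp.mul_right _)
    obtain ⟨U, hU'⟩ := hU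
    refine ⟨E, u * U, ?_, ?_⟩
    · rw [hF, hz, hT1, Units.val_mul, hU']
      push_cast
      calc (p : A) * w + (p : A) ^ 2 * z = (p : A) * (w + p * z) := by ring
        _ = (u * π ^ E) * (w + p * z) := by rw [← hE]
        _ = _ := by ring
    · rw [hqE, Nat.mul_one, hcN]
  have exN : Ex π q c (c * N) N (F.coeff N) := by
    obtain ⟨U, hU⟩ := hu
    exact ⟨0, U, by rw [hU, pow_zero, mul_one], by ring⟩
  have hpow : ∀ n, (p : A) ^ n = ((u ^ n : Aˣ) : A) * π ^ (n * E) := by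
    intro n
    rw [hE, Units.val_pow_eq_pow_val, mul_pow, ← pow_mul, Nat.mul_comm E n]
  have hge : ∀ j, j ≠ 1 → j ≠ N → Ge π q c (c * N + 1) j (F.coeff j) := by
    intro j h1 h2 n hn
    obtain ⟨z, hz⟩ := coeff_near hb P j
    rw [hF, hz]
    rcases Nat.eq_zero_or_pos j with h0 | h0
    · -- the constant coefficient
      obtain ⟨y, hy⟩ := hT0
      have h3 : (p : A) ^ 2 ∣ (((P.map (av a)).coeff j : ℤ) : A) + (p : A) ^ 2 * z := by
        rw [h0, hy]
        refine ⟨(y : A) + z, ?_⟩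
        push_cast
        ring
      refine Dvd.dvd.trans ?_ h3
      rw [hpow, pow_dvd_unit hπ]
      by_contra hlt
      push Not at hlt
      have h4 : 2 * E ≤ n := by omega
      have h5 : q * (2 * E) ≤ q * n := Nat.mul_le_mul_left _ h4
      have h6 : q * (2 * E) = c * (N - 1) + c * (N - 1) := by
        rw [← hqE]; ring
      have h7 : c * 2 ≤ c * (N - 1) := Nat.mul_le_mul_left _ (by omega)
      omega
    · by_cases hjN : N < j
      · exfalso
        have h3 : c * (N + 1) ≤ c * j := Nat.mul_le_mul_left _ hjN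
        have h4 : c * (N + 1) = c * N + c := by ring
        omega
      · obtain ⟨y, hy⟩ := hTj j (by omega) h1 h2
        have h3 : (p : A) ^ 1 ∣ (((P.map (av a)).coeff j : ℤ) : A) + (p : A) ^ 2 * z := by
          rw [hy]
          refine ⟨(y : A) + p * z, ?_⟩
          push_cast
          ring
        refine Dvd.dvd.trans ?_ h3
        rw [hpow, pow_dvd_unit hπ]
        by_contra hlt
        push Not at hlt
        have h4 : E ≤ n := by omega
        have h5 : q * E ≤ q * n := Nat.mul_le_mul_left _ h4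
        have h7 : c * 2 ≤ c * j := Nat.mul_le_mul_left _ (by omega)
        omega
  have hall : ∀ j, Ge π q c (c * N) j (F.coeff j) := by
    intro j
    by_cases h1 : j = 1
    · rw [h1]
      exact ex1.ge hπ hq0
    by_cases h2 : j = N
    · rw [h2]
      exact exN.ge hπ hq0
    exact (hge j h1 h2).mono (by omega)
  have hL : Mi π q c (fun a b => a < b) F 1 (c * N) :=
    ⟨ex1, hall, fun j hj => hge j (by omega) (by omega)⟩
  have hR : Mi π q c (fun a b => b < a) F (1 + (N - 1)) (c * N) := by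
    have e1 : 1 + (N - 1) = N := by omega
    rw [e1]
    exact ⟨exN, hall, fun j hj => hge j (by omega) (by omega)⟩
  have hdd' : g.natDegree + h.natDegree = N := by
    have h0 : g * h ≠ 0 := by
      rw [e]
      intro h0
      have h1 := (Polynomial.map_eq_zero_iff (IsFractionRing.injective A K')).1 h0
      rw [h1, coeff_zero] at hu
      exact hu.ne_zero rfl
    rw [← natDegree_mul (left_ne_zero_of_mul h0) (right_ne_zero_of_mul h0), e,
      natDegree_map_eq_of_injective (IsFractionRing.injective A K'), hd]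
  rcases newtonL_frac hπ hq0 hcop hl hL hR hg e with h1 | h1
  · have h2 := hE0 E hE1 hE2
    rw [← hdd] at h2
    have h3 : d * q ≤ i * d := by
      rw [Nat.mul_comm i d]
      exact Nat.mul_le_mul_left _ (hgd ▸ h1)
    omega
  · omega

/-- roots near an Eisenstein target -/
theorem loc_eis (hN : 1 ≤ N) (hdeg : P.natDegree ≤ N) {a : ι → ℤ} {w : ℤ}
    (hw : IsCoprime w (p : ℤ)) (hT0 : (P.map (av a)).coeff 0 = (p : ℤ) * w)
    (hTN : IsCoprime ((P.map (av a)).coeff N) (p : ℤ))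
    (hTj : ∀ j, j ≠ 0 → j ≠ N → (p : ℤ) ∣ (P.map (av a)).coeff j) {N' : ℕ} (hN' : N' < N)
    (hπ : Irreducible π) (hπp : π ∣ (p : A)) (hπN : ¬ π ^ (N' + 1) ∣ (p : A)) {b : ι → A}
    (hb : ∀ i, (p : A) ^ 2 ∣ b i - (a i : A)) {θ : K'} :
    P.eval₂ (av fun i => algebraMap A K' (b i)) θ ≠ 0 := by
  intro hθ
  have hp0 : (p : A) ≠ 0 := p_ne hπN
  obtain ⟨hu, hd, hl⟩ := lead_target hdeg hπ hπp hTN (by omega) hb
  rw [← eval_map, map_map_av] at hθ
  obtain ⟨θ₀, hθ₀, h0⟩ := int_root hl hθ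
  set F := P.map (av b) with hF
  have h1 : C (p : A) ∣ F - C (F.coeff N) * X ^ N := by
    rw [C_dvd_iff_dvd_coeff]
    intro j
    rw [coeff_sub, coeff_C_mul, coeff_X_pow]
    by_cases hjN : j = N
    · rw [if_pos hjN, hjN, mul_one, sub_self]
      exact dvd_zero _
    · rw [if_neg hjN, mul_zero, sub_zero]
      obtain ⟨z, hz⟩ := coeff_near hb P j
      rw [hF, hz]
      have h2 : (p : ℤ) ∣ (P.map (av a)).coeff j := by
        by_cases hj0 : j = 0
        · rw [hj0, hT0]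
          exact dvd_mul_right _ _
        · exact hTj j hj0 hjN
      obtain ⟨y, hy⟩ := h2
      rw [hy]
      exact ⟨(y : A) + p * z, by push_cast; ring⟩
  obtain ⟨G, hG⟩ := h1
  have hG0 : IsUnit (G.coeff 0) := by
    have h2 := congrArg (fun f => Polynomial.coeff f 0) hG
    simp only [coeff_sub, coeff_C_mul, coeff_X_pow] at h2
    rw [if_neg (by omega), mul_zero, sub_zero] at h2
    obtain ⟨z, hz⟩ := coeff_near hb P 0
    rw [hF, hz, hT0] at h2
    have h3 : G.coeff 0 = (w : A) + p * z := by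
      apply mul_left_cancel₀ hp0
      rw [← h2]
      push_cast
      ring
    rw [h3]
    exact unit_add hπ (unit_int hπ hπp hw) (hπp.mul_right _)
  have h2 := congrArg (Polynomial.eval θ₀) hG
  rw [eval_sub, h0, eval_mul, eval_C, eval_pow, eval_X, eval_mul, eval_C, zero_sub] at h2
  have hπθ : π ∣ θ₀ := by
    have h3 : π ∣ F.coeff N * θ₀ ^ N := by
      have : F.coeff N * θ₀ ^ N = (p : A) * (-(G.eval θ₀)) := by linear_combination -h2
      rw [this]
      exact hπp.mul_right _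
    rw [hu.dvd_mul_left] at h3
    exact hπ.prime.dvd_of_dvd_pow h3
  have hGθ : IsUnit (G.eval θ₀) := by
    have h3 : θ₀ ∣ G.eval θ₀ - G.eval 0 := by
      have := Polynomial.sub_dvd_eval_sub θ₀ 0 G
      rwa [sub_zero] at this
    have h4 : G.eval θ₀ = G.coeff 0 + (G.eval θ₀ - G.eval 0) := by
      rw [coeff_zero_eq_eval_zero]; ring
    rw [h4]
    exact unit_add hπ hG0 (hπθ.trans h3)
  obtain ⟨E, u, hE⟩ := IsDiscreteValuationRing.eq_unit_mul_pow_irreducible hp0 hπ
  have hE2 : E ≤ N' := by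
    rw [hE, pow_dvd_unit hπ] at hπN
    omega
  have hθ0 : θ₀ ≠ 0 := by
    intro h3
    rw [h3, zero_pow (by omega), mul_zero, neg_zero] at h2
    rw [h3] at hGθ
    exact mul_ne_zero hp0 hGθ.ne_zero h2.symm
  obtain ⟨c, v, hv⟩ := IsDiscreteValuationRing.eq_unit_mul_pow_irreducible hθ0 hπ
  have hc1 : 1 ≤ c := by
    rw [hv, ← pow_one π, ← pow_mul, one_mul] at hπθ
    exact (pow_dvd_unit hπ).1 hπθ
  have h5 : (F.coeff N * (v : A) ^ N) * π ^ (N * c) = (-(u * G.eval θ₀)) * π ^ E := by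
    calc (F.coeff N * (v : A) ^ N) * π ^ (N * c) = F.coeff N * θ₀ ^ N := by
          rw [hv, mul_pow, ← pow_mul, Nat.mul_comm c N]; ring
      _ = -((p : A) * G.eval θ₀) := by linear_combination -h2
      _ = -((u * π ^ E) * G.eval θ₀) := by rw [← hE]
      _ = _ := by ring
  have h6 := exp_eq hπ (hu.mul (v.isUnit.pow N)) (u.isUnit.mul hGθ).neg h5
  have h7 : N * 1 ≤ N * c := Nat.mul_le_mul_left N hc1
  omega

end loc

section dens

variable {O J ι : Type} [CommRing O] [IsDomain O] [Fintype J] [Fintype ι]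
  (ω : Module.Basis J ℤ O)

/-- The parameters such that `P` has a monic factor of degree `i` over an extension of degree at most
`E`. -/
def FacSetE (P : (MvPolynomial ι ℤ)[X]) (i E : ℕ) : Set (ι × J → ℤ) :=
  {x : ι × J → ℤ | ∃ (K : Type) (_ : Field K) (_ : NumberField K) (σ : O →+* K) (g h : K[X]),
    Module.finrank ℚ K ≤ E * Fintype.card J ∧ g.Monic ∧ g.natDegree = i ∧
    g * h = P.map (av (cv (fun j => σ (ω j)) fun q => (x q : K)))}

theorem dens_eis {P : (MvPolynomial ι ℤ)[X]} {N N' : ℕ} (hN : 1 ≤ N)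
    (hN' : N' < N) (hdeg : P.natDegree ≤ N)
    (h : ∀ p : ℕ, p.Prime → p ≠ 2 → p ≠ 3 → ∃ (a : ι → ℤ) (w : ℤ), IsCoprime w (p : ℤ) ∧
      (P.map (av a)).coeff 0 = (p : ℤ) * w ∧ IsCoprime ((P.map (av a)).coeff N) (p : ℤ) ∧
      ∀ j, j ≠ 0 → j ≠ N → (p : ℤ) ∣ (P.map (av a)).coeff j) : D0 (RootSq ω P 0 N') := by
  have hP : P ≠ 0 := by
    obtain ⟨a, w, -, -, h1, -⟩ := h 5 (by norm_num) (by norm_num) (by norm_num)
    exact ne_of_target (by norm_num : Nat.Prime 5) h1
  refine roots6 ω _ _ hP _ ?_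
  intro p hp hp2 hp3
  obtain ⟨a, w, hw, hT0, hTN, hTj⟩ := h p hp hp2 hp3
  refine ⟨a, 2, ?_⟩
  intro K' _ A _ _ _ _ _ π hπ hπp hπN b hb θ z hθ _
  exact loc_eis (K' := K') hN hdeg hw hT0 hTN hTj hN' hπ hπp hπN hb hθ

theorem dens_edge {P : (MvPolynomial ι ℤ)[X]} {N i E : ℕ} (hN : 3 ≤ N) (hi : 2 ≤ i)
    (hE : ∀ e, 1 ≤ e → e ≤ E → i * Nat.gcd e (N - 1) < N - 1) (hdeg : P.natDegree ≤ N)
    (h : ∀ p : ℕ, p.Prime → p ≠ 2 → p ≠ 3 → ∃ (a : ι → ℤ) (w : ℤ), IsCoprime w (p : ℤ) ∧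
      (P.map (av a)).coeff 1 = (p : ℤ) * w ∧ (p : ℤ) ^ 2 ∣ (P.map (av a)).coeff 0 ∧
      IsCoprime ((P.map (av a)).coeff N) (p : ℤ) ∧
      ∀ j, j ≠ 0 → j ≠ 1 → j ≠ N → (p : ℤ) ∣ (P.map (av a)).coeff j) :
    D0 (FacSetE ω P i E) := by
  have hP : P ≠ 0 := by
    obtain ⟨a, w, -, -, -, h1, -⟩ := h 5 (by norm_num) (by norm_num) (by norm_num)
    exact ne_of_target (by norm_num : Nat.Prime 5) h1
  refine factors6 ω _ hP _ _ ?_
  intro p hp hp2 hp3
  obtain ⟨a, w, hw, hT1, hT0, hTN, hTj⟩ := h p hp hp2 hp3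
  refine ⟨a, 2, ?_⟩
  intro K' _ A _ _ _ _ _ π hπ hπp hπN b hb g h hg hgd
  exact loc_edge hN hdeg hw hT1 hT0 hTN hTj hi hE hπ hπp hπN hb hg hgd

end dens

end Pool.Agent.Helper70K9.TN
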