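import Pool.Agent.R939.HI.Tgt2
import Pool.Agent.Helper70K9.TN.Loc

/-!
# The discriminant `a ^ 3 - 27 b`: local targets
-/

set_option autoImplicit false
set_option linter.all false

namespace Pool.Agent.Helper70K9.TN

open Polynomial Pool.Agent.R939.EI Pool.Agent.R939.HI Pool.Agent.W275.UB

section pol

variable {R : Type} [CommRing R] {r s : ℕ} {m : Fin s → ℕ}

/-- The discriminant `a ^ 3 - 27 b`. -/
noncomputable def polT (a : Fin (r + 1) → R) (β : (i : Fin s) → Fin (m i + 1) → R) : R[X] :=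
  polA a ^ 3 - 27 * polP β

theorem C27 : (27 : R[X]) = C 27 := by rw [map_ofNat]

theorem polT_map {R' : Type} [CommRing R'] (f : R →+* R') (a : Fin (r + 1) → R)
    (β : (i : Fin s) → Fin (m i + 1) → R) :
    (polT a β).map f = polT (fun j => f (a j)) (fun i j => f (β i j)) := by
  unfold polT
  rw [Polynomial.map_sub, Polynomial.map_mul, Polynomial.map_pow, Polynomial.map_ofNat, polA_map,
    polP_map]

theorem polT_deg {N : ℕ} (hr : 3 * r ≤ N) (hm : ∑ i, m i ≤ N) (a : Fin (r + 1) → R)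
    (β : (i : Fin s) → Fin (m i + 1) → R) : (polT a β).natDegree ≤ N := by
  unfold polT
  refine (natDegree_sub_le _ _).trans (max_le ?_ ?_)
  · refine natDegree_pow_le.trans ?_
    exact (Nat.mul_le_mul_left 3 (polA_natDegree a)).trans hr
  · rw [C27]
    exact (natDegree_C_mul_le _ _).trans ((polP_natDegree β).trans hm)

end pol

section maps

variable {r s u : ℕ} {m : Fin s → ℕ} {n : Fin u → ℕ} {R : Type} [CommRing R]

theorem map_T (v : Ix r m n → R) :
    (polT (aV (XX r m n)) (bV (XX r m n))).map (av v) = polT (aV v) (bV v) := by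
  rw [polT_map]
  simp only [aV, bV, av_X]
  rfl

theorem mapT_mk (ta : Fin (r + 1) → R) (tb : (i : Fin s) → Fin (m i + 1) → R)
    (td : (l : Fin u) → Fin (n l + 1) → R) :
    (polT (aV (XX r m n)) (bV (XX r m n))).map (av (mk ta tb td : Ix r m n → R)) = polT ta tb := by
  rw [map_T, aV_mk, bV_mk]

end maps

theorem cop27 {p : ℕ} (hp : p.Prime) (hp3 : p ≠ 3) : IsCoprime (27 : ℤ) (p : ℤ) := by
  have h2 : IsCoprime ((3 : ℕ) : ℤ) (p : ℤ) :=
    Nat.isCoprime_iff_coprime.2 ((Nat.coprime_primes Nat.prime_three hp).2 (Ne.symm hp3))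
  have : (27 : ℤ) = ((3 : ℕ) : ℤ) ^ 3 := by norm_num
  rw [this]
  exact h2.pow_left

theorem C33 : (C 3 : ℤ[X]) ^ 3 = C 27 := by
  rw [← C_pow]
  norm_num

section dens

variable {r s u : ℕ} {m : Fin s → ℕ} {n : Fin u → ℕ} {O J : Type} [CommRing O] [IsDomain O]
  [Fintype J] (ω : Module.Basis J ℤ O)

/-- the discriminant is irreducible -/
theorem dens_T1 (hr : 1 ≤ r) (hm : ∑ i, m i ≤ 3 * r) (i0 : Fin s) :
    D0 (RootSq ω (polT (aV (XX r m n)) (bV (XX r m n))) 0 (3 * r - 1)) := by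
  refine dens_eis (N := 3 * r) ω (by omega) (by omega) (polT_deg le_rfl hm _ _) ?_
  intro p hp hp2 hp3
  refine ⟨mk (Pi.single (Fin.last r) 3)
    (tb1 m i0 (Pi.single 0 (p : ℤ)) fun i => Pi.single 0 1) (fun _ _ => 0), -27,
    (cop27 hp hp3).neg_left, ?_⟩
  have e : polT (Pi.single (Fin.last r) (3 : ℤ))
      (tb1 m i0 (Pi.single 0 (p : ℤ)) fun i => Pi.single 0 1) =
      C 27 * X ^ (3 * r) - C (27 * (p : ℤ)) := by
    unfold polT
    rw [polP_one i0 _ (C (p : ℤ)) (by rw [tb1_same, polA_single, Fin.val_zero, pow_zero, mul_one])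
      (by intro i hi; rw [tb1_ne _ _ _ hi, polA_single, Fin.val_zero, pow_zero, mul_one, C_1]),
      polA_single, Fin.val_last, C_mul, C27, mul_pow, C33, ← pow_mul, Nat.mul_comm r 3]
  rw [mapT_mk, e]
  refine ⟨?_, ?_, ?_⟩
  · rw [coeff_sub, coeff_C_mul, coeff_X_pow, if_neg (by omega), coeff_C_zero]
    ring
  · rw [coeff_sub, coeff_C_mul, coeff_X_pow, if_pos rfl, coeff_C, if_neg (by omega), sub_zero,
      mul_one]
    exact cop27 hp hp3
  · intro j h0 hN
    rw [coeff_sub, coeff_C_mul, coeff_X_pow, if_neg hN, coeff_C, if_neg h0]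
    simp

/-- the discriminant has no factors of small degree over extensions of small degree -/
theorem dens_T2 (hr : 1 ≤ r) (hm : ∑ i, m i ≤ 3 * r) (i0 : Fin s) (hi0 : 1 ≤ m i0) {i E : ℕ}
    (hi : 2 ≤ i) (hE : ∀ e, 1 ≤ e → e ≤ E → i * Nat.gcd e (3 * r - 1) < 3 * r - 1) :
    D0 (FacSetE ω (polT (aV (XX r m n)) (bV (XX r m n))) i E) := by
  refine dens_edge (N := 3 * r) ω (by omega) hi hE (polT_deg le_rfl hm _ _) ?_
  intro p hp hp2 hp3
  have e : polT (Pi.single (Fin.last r) (3 : ℤ))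
      (tb1 m i0 (Pi.single 1 (p : ℤ)) fun i => Pi.single 0 1) =
      C 27 * X ^ (3 * r) - C (27 * (p : ℤ)) * X ^ 1 := by
    unfold polT
    rw [polP_one i0 _ (C (p : ℤ) * X ^ 1) (by rw [tb1_same, polA_single, val1 hi0])
      (by intro i hi; rw [tb1_ne _ _ _ hi, polA_single, Fin.val_zero, pow_zero, mul_one, C_1]),
      polA_single, Fin.val_last, C_mul, C27, mul_pow, C33, ← pow_mul, Nat.mul_comm r 3, mul_assoc]
  refine ⟨mk (Pi.single (Fin.last r) 3)
    (tb1 m i0 (Pi.single 1 (p : ℤ)) fun i => Pi.single 0 1) (fun _ _ => 0), -27,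
    (cop27 hp hp3).neg_left, ?_⟩
  rw [mapT_mk, e]
  refine ⟨?_, ?_, ?_, ?_⟩
  · rw [coeff_sub, coeff_C_mul, coeff_X_pow, if_neg (by omega), coeff_C_mul, coeff_X_pow,
      if_pos rfl]
    ring
  · rw [coeff_sub, coeff_C_mul, coeff_X_pow, if_neg (by omega), coeff_C_mul, coeff_X_pow,
      if_neg (by omega)]
    simp
  · rw [coeff_sub, coeff_C_mul, coeff_X_pow, if_pos rfl, coeff_C_mul, coeff_X_pow,
      if_neg (by omega), mul_zero, sub_zero, mul_one]
    exact cop27 hp hp3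
  · intro j h0 h1 hN
    rw [coeff_sub, coeff_C_mul, coeff_X_pow, if_neg hN, coeff_C_mul, coeff_X_pow, if_neg h1]
    simp

/-- `b i` has no factors of small degree over extensions of small degree -/
theorem dens_bE (l : Fin s) (hm : 3 ≤ m l) {i E : ℕ}
    (hi : 2 ≤ i) (hE : ∀ e, 1 ≤ e → e ≤ E → i * Nat.gcd e (m l - 1) < m l - 1) :
    D0 (FacSetE ω (polA (bV (XX r m n) l)) i E) := by
  refine dens_edge (N := m l) ω hm hi hE (polA_natDegree _) ?_
  intro p hp hp2 hp3
  have e : polA (Pi.single (Fin.last (m l)) 1 + Pi.single 1 (p : ℤ) : Fin (m l + 1) → ℤ) =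
      X ^ (m l) + C (p : ℤ) * X ^ 1 := by
    have h1 : ∀ f g : Fin (m l + 1) → ℤ, polA (f + g) = polA f + polA g := by
      intro f g
      unfold polA
      rw [← Finset.sum_add_distrib]
      refine Finset.sum_congr rfl fun j _ => ?_
      rw [Pi.add_apply, C_add, add_mul]
    rw [h1, polA_single, polA_single, Fin.val_last, val1 (by omega), C_1, one_mul]
  refine ⟨mk (fun _ => 0) (tb1 m l (Pi.single (Fin.last (m l)) 1 + Pi.single 1 (p : ℤ))
    fun _ _ => 0) (fun _ _ => 0), 1, isCoprime_one_left, ?_⟩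
  rw [mapb_mk, tb1_same, e]
  refine ⟨?_, ?_, ?_, ?_⟩
  · rw [coeff_add, coeff_X_pow, if_neg (by omega), coeff_C_mul, coeff_X_pow, if_pos rfl]
    ring
  · rw [coeff_add, coeff_X_pow, if_neg (by omega), coeff_C_mul, coeff_X_pow, if_neg (by omega)]
    simp
  · rw [coeff_add, coeff_X_pow, if_pos rfl, coeff_C_mul, coeff_X_pow, if_neg (by omega), mul_zero,
      add_zero]
    exact isCoprime_one_left
  · intro j h0 h1 hN
    rw [coeff_add, coeff_X_pow, if_neg hN, coeff_C_mul, coeff_X_pow, if_neg h1]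
    simp

theorem polA_zero {R : Type} [CommRing R] {n : ℕ} : polA (fun _ : Fin (n + 1) => (0 : R)) = 0 := by
  unfold polA
  simp

theorem polP_fin1 {R : Type} [CommRing R] {m : Fin 1 → ℕ} (β : (i : Fin 1) → Fin (m i + 1) → R) :
    polP β = polA (β 0) := by
  unfold polP
  rw [Fin.prod_univ_one]

/-- the discriminant is irreducible; the case where `b` dominates -/
theorem dens_T1b {m : Fin 1 → ℕ} (hm1 : 1 ≤ m 0) (hr : 3 * r ≤ m 0) :
    D0 (RootSq ω (polT (aV (XX r m n)) (bV (XX r m n))) 0 (m 0 - 1)) := by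
  refine dens_eis (N := m 0) ω hm1 (by omega) (polT_deg hr (by simp) _ _) ?_
  intro p hp hp2 hp3
  refine ⟨mk (fun _ => 0) (fun i => Pi.single (Fin.last (m i)) 1 + Pi.single 0 (p : ℤ))
    (fun _ _ => 0), -27, (cop27 hp hp3).neg_left, ?_⟩
  rw [mapT_mk]
  have e : polT (fun _ : Fin (r + 1) => (0 : ℤ))
      (fun i : Fin 1 => (Pi.single (Fin.last (m i)) 1 + Pi.single 0 (p : ℤ) :
        Fin (m i + 1) → ℤ)) = C (-27) * X ^ (m 0) + C (-27 * (p : ℤ)) := by
    unfold polT
    rw [polA_zero, polP_fin1, polA_add, polA_single, polA_single, Fin.val_last, Fin.val_zero,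
      pow_zero, mul_one, C_1, one_mul, C27, C_mul, C_neg]
    ring
  rw [e]
  refine ⟨?_, ?_, ?_⟩
  · rw [coeff_add, coeff_C_mul, coeff_X_pow, if_neg (by omega), coeff_C_zero]
    ring
  · rw [coeff_add, coeff_C_mul, coeff_X_pow, if_pos rfl, coeff_C, if_neg (by omega), add_zero,
      mul_one]
    exact (cop27 hp hp3).neg_left
  · intro j h0 hN
    rw [coeff_add, coeff_C_mul, coeff_X_pow, if_neg hN, coeff_C, if_neg h0]
    simp

/-- the discriminant has no factors of small degree over extensions of small degree; the case where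
`b` dominates -/
theorem dens_T2b {m : Fin 1 → ℕ} (hm3 : 3 ≤ m 0) (hr : 3 * r ≤ m 0) {i E : ℕ}
    (hi : 2 ≤ i) (hE : ∀ e, 1 ≤ e → e ≤ E → i * Nat.gcd e (m 0 - 1) < m 0 - 1) :
    D0 (FacSetE ω (polT (aV (XX r m n)) (bV (XX r m n))) i E) := by
  refine dens_edge (N := m 0) ω hm3 hi hE (polT_deg hr (by simp) _ _) ?_
  intro p hp hp2 hp3
  refine ⟨mk (fun _ => 0) (fun i => Pi.single (Fin.last (m i)) 1 + Pi.single 1 (p : ℤ))
    (fun _ _ => 0), -27, (cop27 hp hp3).neg_left, ?_⟩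
  rw [mapT_mk]
  have e : polT (fun _ : Fin (r + 1) => (0 : ℤ))
      (fun i : Fin 1 => (Pi.single (Fin.last (m i)) 1 + Pi.single 1 (p : ℤ) :
        Fin (m i + 1) → ℤ)) = C (-27) * X ^ (m 0) + C (-27 * (p : ℤ)) * X ^ 1 := by
    unfold polT
    rw [polA_zero, polP_fin1, polA_add, polA_single, polA_single, Fin.val_last,
      val1 (by omega : 1 ≤ m 0), C_1, one_mul, C27, C_mul, C_neg]
    ring
  rw [e]
  refine ⟨?_, ?_, ?_, ?_⟩
  · rw [coeff_add, coeff_C_mul, coeff_X_pow, if_neg (by omega), coeff_C_mul, coeff_X_pow,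
      if_pos rfl]
    ring
  · rw [coeff_add, coeff_C_mul, coeff_X_pow, if_neg (by omega), coeff_C_mul, coeff_X_pow,
      if_neg (by omega)]
    simp
  · rw [coeff_add, coeff_C_mul, coeff_X_pow, if_pos rfl, coeff_C_mul, coeff_X_pow,
      if_neg (by omega), mul_zero, add_zero, mul_one]
    exact (cop27 hp hp3).neg_left
  · intro j h0 h1 hN
    rw [coeff_add, coeff_C_mul, coeff_X_pow, if_neg hN, coeff_C_mul, coeff_X_pow, if_neg h1]
    simp

end dens

end Pool.Agent.Helper70K9.TN
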