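import Pool.Agent.Helper7K9.T3.Fac

/-!
# Subfields of degree two and three of the fields generated by a root
-/

set_option autoImplicit false
set_option linter.all false

open Polynomial
open scoped Classical IntermediateField

namespace Pool.Agent.Helper70K9.TN

open Pool.Agent.Helper7K9.T3

/-- `f` has no monic factor of degree `deg f / e` over an extension of degree `e`. -/
def NoSub {k : Type} [Field k] (e : ℕ) (f : k[X]) : Prop :=
  ∀ (L : Type) [Field L] [Algebra k L], Module.finrank k L = e → ∀ g h : L[X], g.Monic →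
    e * g.natDegree = f.natDegree → g * h ≠ f.map (algebraMap k L)

/-- degree reasons -/
theorem NoSub.of_not_dvd {k : Type} [Field k] {e : ℕ} {f : k[X]} (h : ¬ e ∣ f.natDegree) :
    NoSub e f := fun L _ _ _ g _ _ hg _ => h ⟨g.natDegree, hg.symm⟩

section root

variable {k k' : Type} [Field k] [Field k'] [Algebra k k'] [IsSepClosure k k']

/-- A subgroup of index `e` which contains the stabilizer of a root. -/
theorem stab_sub {π : k[X]} (hπ : Irreducible π) (hs : π.Separable) {θ : k'}
    (hθ : (π.map (algebraMap k k')).IsRoot θ) {H : Subgroup (k' ≃ₐ[k] k')}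
    (hH : MulAction.stabilizer (k' ≃ₐ[k] k') θ ≤ H) {e : ℕ} (he : H.index = e) (he0 : e ≠ 0)
    (hN : NoSub e π) : False := by
  haveI : IsSepClosed k' := IsSepClosure.sep_closed k
  haveI : IsGalois k k' := inferInstance
  have hint : ∀ x : k', IsIntegral k x := fun x => Algebra.IsIntegral.isIntegral x
  -- `H` is open
  haveI : FiniteDimensional k k⟮θ⟯ := IntermediateField.adjoin.finiteDimensional (hint θ)
  have hopen : IsOpen ((k⟮θ⟯).fixingSubgroup : Set (k' ≃ₐ[k] k')) :=
    IntermediateField.fixingSubgroup_isOpen _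
  have hHo : IsOpen (H : Set (k' ≃ₐ[k] k')) := by
    refine Subgroup.isOpen_mono ?_ hopen
    rw [← stab_eq]
    exact hH
  let Hc : ClosedSubgroup (k' ≃ₐ[k] k') := ⟨H, H.isClosed_of_isOpen hHo⟩
  have hfx := InfiniteGalois.fixingSubgroup_fixedField Hc
  set L := IntermediateField.fixedField H with hL
  have hfx' : L.fixingSubgroup = H := hfx
  have hdim : Module.finrank k L = e := by
    rw [IntermediateField.finrank_eq_fixingSubgroup_index, hfx', he]
  -- `L` is contained in `k(θ)`
  have hle : L ≤ k⟮θ⟯ := by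
    have h1 : IntermediateField.fixedField H ≤
        IntermediateField.fixedField (k⟮θ⟯).fixingSubgroup := by
      intro x hx
      rw [IntermediateField.mem_fixedField_iff] at hx ⊢
      intro g hg
      refine hx g (hH ?_)
      rw [stab_eq]
      exact hg
    rw [InfiniteGalois.fixedField_fixingSubgroup] at h1
    exact h1
  -- the minimal polynomial over `L`
  have hintL : IsIntegral L θ := (hint θ).tower_top
  have h1 : Module.finrank L (IntermediateField.extendScalars hle) = (minpoly L θ).natDegree := by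
    have h2 : IntermediateField.extendScalars hle = L⟮θ⟯ := by
      apply le_antisymm
      · intro x hx
        have hx' : x ∈ k⟮θ⟯ := hx
        have h3 : k⟮θ⟯ ≤ (L⟮θ⟯).restrictScalars k := by
          rw [IntermediateField.adjoin_simple_le_iff]
          exact IntermediateField.mem_adjoin_simple_self L θ
        exact h3 hx'
      · rw [IntermediateField.adjoin_simple_le_iff]
        exact IntermediateField.mem_adjoin_simple_self k θ
    rw [h2, IntermediateField.adjoin.finrank hintL]
  have h2 : Module.finrank k L * (minpoly L θ).natDegree = π.natDegree := by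
    rw [← h1]
    have h3 : Module.finrank k L * Module.finrank L (IntermediateField.extendScalars hle) =
        Module.finrank k k⟮θ⟯ :=
      Module.finrank_mul_finrank k L (IntermediateField.extendScalars hle)
    rw [h3, IntermediateField.adjoin.finrank (hint θ), natDegree_minpoly hπ hθ]
  have h3 : minpoly L θ ∣ π.map (algebraMap k L) := by
    apply minpoly.dvd
    rw [aeval_map_algebraMap]
    rw [IsRoot.def, eval_map_algebraMap] at hθ
    exact hθ
  obtain ⟨h, hh⟩ := h3
  exact hN L hdim (minpoly L θ) h (minpoly.monic hintL) (by rw [← hdim, h2]) hh.symm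

/-- The cube roots of unity are not in the field generated by a root. -/
theorem swap_of_noSub {z : k'} (hz : z ^ 2 + z + 1 = 0) (hk : ∀ x : k, x ^ 2 + x + 1 ≠ 0)
    {π : k[X]} (hπ : Irreducible π) (hs : π.Separable) (h2 : NoSub 2 π) {θ : k'}
    (hθ : (π.map (algebraMap k k')).IsRoot θ) : ∃ s : k' ≃ₐ[k] k', s θ = θ ∧ s z ≠ z := by
  haveI : IsSepClosed k' := IsSepClosure.sep_closed k
  haveI : IsGalois k k' := inferInstance
  by_contra hc
  push Not at hc
  have h1 : MulAction.stabilizer (k' ≃ₐ[k] k') θ ≤ fixZ k z := fun s hs => hc s hs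
  have h3 : (fixZ k z).index ≠ 1 := by
    intro h4
    rw [Subgroup.index_eq_one] at h4
    have h5 : z ∈ Set.range (algebraMap k k') := by
      rw [InfiniteGalois.mem_range_algebraMap_iff_fixed]
      intro s
      have : s ∈ fixZ k z := by rw [h4]; exact Subgroup.mem_top s
      exact this
    obtain ⟨x, hx⟩ := h5
    apply hk x
    apply (algebraMap k k').injective
    rw [map_add, map_add, map_pow, hx, map_one, map_zero, hz]
  have h4 := fixZ_index_dvd (k := k) hz
  have h5 : (fixZ k z).index = 2 := ((Nat.dvd_prime Nat.prime_two).1 h4).resolve_left h3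
  exact stab_sub hπ hs hθ h1 h5 (by norm_num) h2

/-- A normal subgroup of index three in `M` does not contain the elements of `M` which fix a root. -/
theorem cubic_core {π : k[X]} (hπ : Irreducible π) (hs : π.Separable) (h3 : NoSub 3 π) {θ : k'}
    (hθ : (π.map (algebraMap k k')).IsRoot θ) {M N : Subgroup (k' ≃ₐ[k] k')} (hMn : M.Normal)
    (hM : M.index ∣ 2) (hN : N.Normal) (hNM : N ≤ M) (hrel : N.relIndex M = 3)
    (hsw : M = ⊤ ∨ ∃ s : k' ≃ₐ[k] k', s θ = θ ∧ s ∉ M)
    (hSM : MulAction.stabilizer (k' ≃ₐ[k] k') θ ⊓ M ≤ N) : False := by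
  set S := MulAction.stabilizer (k' ≃ₐ[k] k') θ with hS
  have hM0 : M.index ≠ 0 := by
    intro h0
    rw [h0] at hM
    norm_num at hM
  have e1 := Subgroup.relIndex_mul_index hNM
  rw [hrel] at e1
  -- `S M` is everything
  have hSup : M.relIndex S = M.index := by
    rcases hsw with h | h
    · rw [h]
      simp
    · have h1 : S ⊔ M = ⊤ := by
        obtain ⟨s, hs1, hs2⟩ := h
        have h2 : M.index = 1 ∨ M.index = 2 := (Nat.dvd_prime Nat.prime_two).1 hM
        rcases h2 with h2 | h2
        · rw [Subgroup.index_eq_one] at h2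
          rw [h2]
          simp
        · have h3 : (S ⊔ M).index ∣ 2 := by
            rw [← h2]
            exact Subgroup.index_dvd_of_le le_sup_right
          rcases (Nat.dvd_prime Nat.prime_two).1 h3 with h4 | h4
          · exact Subgroup.index_eq_one.1 h4
          · exfalso
            have h5 := Subgroup.relIndex_mul_index (le_sup_right : M ≤ S ⊔ M)
            rw [h4, h2] at h5
            have h6 : M.relIndex (S ⊔ M) = 1 := by omega
            rw [Subgroup.relIndex_eq_one] at h6
            exact hs2 (h6 ((le_sup_left : S ≤ S ⊔ M) hs1))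
      have h2 : M.relIndex (S ⊔ M) = M.relIndex S := Subgroup.relIndex_sup_right S M
      rw [h1, Subgroup.relIndex_top_right] at h2
      exact h2.symm
  have e2 : N.relIndex (S ⊔ N) = N.relIndex S := Subgroup.relIndex_sup_right S N
  have e3 : N.relIndex S = M.relIndex S := by
    rw [← Subgroup.inf_relIndex_right, ← Subgroup.inf_relIndex_right M]
    congr 1
    apply le_antisymm
    · rintro s ⟨hs1, hs2⟩
      exact ⟨hNM hs1, hs2⟩
    · rintro s ⟨hs1, hs2⟩
      exact ⟨hSM ⟨hs2, hs1⟩, hs2⟩
  have e4 := Subgroup.relIndex_mul_index (le_sup_right : N ≤ S ⊔ N)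
  rw [e2, e3, hSup, ← e1] at e4
  have e5 : (S ⊔ N).index = 3 := by
    have : M.index * (S ⊔ N).index = M.index * 3 := by rw [e4]; ring
    exact Nat.eq_of_mul_eq_mul_left (Nat.pos_of_ne_zero hM0) this
  exact stab_sub hπ hs hθ (le_sup_left : S ≤ S ⊔ N) e5 (by norm_num) h3

/-- the values of a polynomial at a root of a composition -/
theorem root_comp {π h : k[X]} {θ : k'} (hθ : ((π.comp h).map (algebraMap k k')).IsRoot θ) :
    (π.map (algebraMap k k')).IsRoot (aeval θ h) := by
  rw [IsRoot.def, eval_map_algebraMap] at hθ ⊢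
  rw [aeval_comp] at hθ
  exact hθ

theorem stab_comp_le (h : k[X]) (θ : k') : MulAction.stabilizer (k' ≃ₐ[k] k') θ ≤
    MulAction.stabilizer (k' ≃ₐ[k] k') (aeval θ h : k') := by
  intro s hs
  have h1 : s θ = θ := hs
  show s (aeval θ h) = aeval θ h
  have h2 := Polynomial.aeval_algHom_apply (s : k' →ₐ[k] k') θ h
  have h3 : (s : k' →ₐ[k] k') θ = θ := h1
  rw [h3] at h2
  exact h2.symm

theorem stab_comp_index {π h : k[X]} (hπ : Irreducible π) (hπh : Irreducible (π.comp h)) {θ : k'}
    (hθ : ((π.comp h).map (algebraMap k k')).IsRoot θ) :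
    (MulAction.stabilizer (k' ≃ₐ[k] k') θ).relIndex
      (MulAction.stabilizer (k' ≃ₐ[k] k') (aeval θ h : k')) = h.natDegree := by
  haveI : IsSepClosed k' := IsSepClosure.sep_closed k
  haveI : IsGalois k k' := inferInstance
  have e1 := Subgroup.relIndex_mul_index (stab_comp_le h θ)
  rw [stab_index, stab_index, natDegree_minpoly hπ (root_comp hθ), natDegree_minpoly hπh hθ,
    natDegree_comp] at e1
  have h0 : 0 < π.natDegree := hπ.natDegree_pos
  exact Nat.eq_of_mul_eq_mul_right h0 (by rw [e1]; ring)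

/-- **No cyclic cubic extension of the constants.** -/
theorem noCubic_comp {p π h : k[X]} {m : ℕ} (hp : p ≠ 0) (hπ : Irreducible π)
    (hs : π.Separable) (hπh : Irreducible (π.comp h)) (hsh : (π.comp h).Separable)
    (hd1 : (π.comp h) ^ m ∣ p) (hd2 : ¬ (π.comp h) ^ (m + 1) ∣ p) (hm : ¬ 3 ∣ m)
    (h3 : NoSub 3 π) (hh : ¬ 3 ∣ h.natDegree) (M : Subgroup (k' ≃ₐ[k] k')) (hMn : M.Normal)
    (hM : M.index ∣ 2)
    (hsw : M = ⊤ ∨ ∀ y : k', (π.map (algebraMap k k')).IsRoot y →
      ∃ s : k' ≃ₐ[k] k', s y = y ∧ s ∉ M) : NoCubic k k' M p := by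
  haveI : IsSepClosed k' := IsSepClosure.sep_closed k
  haveI : IsGalois k k' := inferInstance
  obtain ⟨θ, hθ⟩ := exists_root_irr (k' := k') hπh hsh
  have hmul := mult_factor (k' := k') hp hπh hsh hd1 hd2 hθ
  refine ⟨⟨θ, by rw [hmul]; exact hm⟩, fun N hN hNM hrel => ?_⟩
  by_contra hc
  push Not at hc
  set S := MulAction.stabilizer (k' ≃ₐ[k] k') θ with hS
  set S' := MulAction.stabilizer (k' ≃ₐ[k] k') (aeval θ h : k') with hS'
  have hSM : S ⊓ M ≤ N := by
    rintro s ⟨hs1, hs2⟩
    exact hc θ s (by rw [hmul]; exact hm) hs2 hs1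
  have hSS : S ≤ S' := stab_comp_le h θ
  have hidx : S.relIndex S' = h.natDegree := stab_comp_index hπ hπh hθ
  -- the index divides 3
  have a1 : N.relIndex (S' ⊓ M) ∣ 3 := by
    have e1 : N.relIndex ((S' ⊓ M) ⊔ N) = N.relIndex (S' ⊓ M) :=
      Subgroup.relIndex_sup_right (S' ⊓ M) N
    have e2 := Subgroup.relIndex_mul_relIndex N ((S' ⊓ M) ⊔ N) M le_sup_right
      (sup_le inf_le_right hNM)
    rw [e1, hrel] at e2
    exact ⟨_, e2.symm⟩
  -- and it is prime to 3
  have a2 : N.relIndex (S' ⊓ M) ∣ 2 * h.natDegree := by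
    have e1 : N.relIndex (S' ⊓ M) ∣ (S ⊓ M).relIndex (S' ⊓ M) :=
      Subgroup.relIndex_dvd_of_le_left _ hSM
    have e2 := Subgroup.relIndex_mul_relIndex (S ⊓ M) (S' ⊓ M) S' (inf_le_inf_right M hSS)
      inf_le_left
    have e3 := Subgroup.relIndex_mul_relIndex (S ⊓ M) S S' inf_le_left hSS
    have e4 : (S ⊓ M).relIndex S = M.relIndex S := Subgroup.inf_relIndex_left S M
    have e5 : M.relIndex S ∣ M.index := Subgroup.relIndex_dvd_index_of_normal M S
    rw [hidx, e4] at e3
    refine e1.trans ((Dvd.intro _ e2).trans ?_)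
    rw [← e3]
    exact Nat.mul_dvd_mul_right (e5.trans hM) _
  have a3 : N.relIndex (S' ⊓ M) = 1 := by
    rcases (Nat.dvd_prime Nat.prime_three).1 a1 with h1 | h1
    · exact h1
    · exfalso
      rw [h1] at a2
      rcases (Nat.Prime.dvd_mul Nat.prime_three).1 a2 with h2 | h2
      · norm_num at h2
      · exact hh h2
  rw [Subgroup.relIndex_eq_one] at a3
  refine cubic_core hπ hs h3 (root_comp hθ) hMn hM hN hNM hrel ?_ a3
  rcases hsw with h1 | h1
  · exact Or.inl h1
  · exact Or.inr (h1 _ (root_comp hθ))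

/-- The cube roots of unity are not in the field generated by a root of a composition. -/
theorem swap_comp {z : k'} (hz : z ^ 2 + z + 1 = 0) (hk : ∀ x : k, x ^ 2 + x + 1 ≠ 0)
    {π h : k[X]} (hπ : Irreducible π) (hs : π.Separable) (h2 : NoSub 2 π)
    (hπh : Irreducible (π.comp h)) (hodd : Odd h.natDegree) {θ : k'}
    (hθ : ((π.comp h).map (algebraMap k k')).IsRoot θ) : ∃ s : k' ≃ₐ[k] k', s θ = θ ∧ s z ≠ z := by
  haveI : IsSepClosed k' := IsSepClosure.sep_closed k
  haveI : IsGalois k k' := inferInstance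
  by_contra hc
  push Not at hc
  have h1 : MulAction.stabilizer (k' ≃ₐ[k] k') θ ≤ fixZ k z := fun s hs => hc s hs
  set S := MulAction.stabilizer (k' ≃ₐ[k] k') θ with hS
  set S' := MulAction.stabilizer (k' ≃ₐ[k] k') (aeval θ h : k') with hS'
  have hSS : S ≤ S' := stab_comp_le h θ
  have hidx : S.relIndex S' = h.natDegree := stab_comp_index hπ hπh hθ
  obtain ⟨s, hs1, hs2⟩ := swap_of_noSub hz hk hπ hs h2 (root_comp hθ)
  have e1 : (fixZ k z).relIndex S' ∣ (fixZ k z).index :=
    haveI := fixZ_normal (k := k) hz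
    Subgroup.relIndex_dvd_index_of_normal (fixZ k z) S'
  have e2 : (fixZ k z).relIndex S' ≠ 1 := by
    intro h3
    rw [Subgroup.relIndex_eq_one] at h3
    exact hs2 (h3 hs1)
  have e3 : (fixZ k z).relIndex S' = 2 :=
    ((Nat.dvd_prime Nat.prime_two).1 (e1.trans (fixZ_index_dvd hz))).resolve_left e2
  have e4 := Subgroup.relIndex_mul_relIndex S (S' ⊓ fixZ k z) S' (le_inf hSS h1) inf_le_left
  rw [Subgroup.inf_relIndex_left, e3, hidx] at e4
  rw [← Nat.not_even_iff_odd] at hodd
  exact hodd (even_iff_two_dvd.2 ⟨_, by rw [← e4]; ring⟩)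

end root

end Pool.Agent.Helper70K9.TN
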