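import Pool.Agent.R939.HI.Nf2
import Pool.Agent.Helper70K9.TN.Pol
import Pool.Agent.Helper70K9.TN.Sub

/-!
# Number fields: the densities of the conditions
-/

set_option autoImplicit false
set_option linter.all false

namespace Pool.Agent.Helper70K9.TN

open Polynomial NumberField Pool.Agent.R939.EI Pool.Agent.R939.HI Pool.Agent.W275.UB

section nf

variable {k : Type} [Field k] [NumberField k] {J : Type} [Fintype J] (B : Module.Basis J ℤ (𝓞 k))
  {ι : Type} [Fintype ι]

/-- no factor over an extension of degree at most `E` -/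
theorem not_facSetE {P : (MvPolynomial ι ℤ)[X]} {i E : ℕ} {x : ι × J → ℤ}
    (hx : x ∉ FacSetE B P i E) {K : Type} [Field K] [NumberField K] [Algebra k K]
    (hK : Module.finrank k K ≤ E) (g h : K[X]) (hg : g.Monic) (hgd : g.natDegree = i) :
    g * h ≠ (P.map (av (kv B x))).map (algebraMap k K) := by
  intro e
  apply hx
  haveI : IsScalarTower ℚ k K := IsScalarTower.of_algebraMap_eq fun q => by simp
  refine ⟨K, inferInstance, inferInstance, (algebraMap k K).comp (algebraMap (𝓞 k) k), g, h, ?_,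
    hg, hgd, ?_⟩
  · rw [← Module.finrank_mul_finrank ℚ k K, card_J B, mul_comm]
    exact Nat.mul_le_mul_right _ hK
  · rw [cv_kv, e, Polynomial.map_map, hom_av]

/-- no factor of degree `deg / e` over an extension of degree `e` -/
theorem noSub_of {P : (MvPolynomial ι ℤ)[X]} {N e : ℕ} {x : ι × J → ℤ} (he : 1 ≤ e)
    (hdeg : (P.map (av (kv B x))).natDegree = N) (hx : e ∣ N → x ∉ FacSetE B P (N / e) e) :
    NoSub e (P.map (av (kv B x))) := by
  intro L _ _ hL g h hg hgd hgh
  haveI : FiniteDimensional k L := Module.finite_of_finrank_pos (by omega)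
  haveI : CharZero L := charZero_of_injective_algebraMap (algebraMap k L).injective
  haveI : IsScalarTower ℚ k L := IsScalarTower.of_algebraMap_eq fun q => by simp
  haveI : FiniteDimensional ℚ L := FiniteDimensional.trans ℚ k L
  haveI : NumberField L := { to_charZero := inferInstance, to_finiteDimensional := inferInstance }
  have h1 : e ∣ N := ⟨g.natDegree, by rw [← hdeg, ← hgd]⟩
  refine not_facSetE B (hx h1) hL.le g h hg ?_ hgh
  rw [hdeg] at hgd
  rw [← hgd, Nat.mul_div_cancel_left _ (by omega)]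

/-- **Irreducible of the right degree.** -/
theorem irr_dens {P : (MvPolynomial ι ℤ)[X]} {N : ℕ} (hN : 1 ≤ N) (hdeg : P.natDegree ≤ N)
    (hc : P.coeff N ≠ 0) (h1 : D0 (RootSq B P 0 (N - 1))) :
    D0 {x : ι × J → ℤ | ¬ (Irreducible (P.map (av (kv B x))) ∧
      (P.map (av (kv B x))).natDegree = N)} := by
  intro ε hε
  refine ((h1.union (dens_lead B hc)) ε hε).mono ?_
  intro x hx
  by_contra hcon
  simp only [Set.mem_union, not_or] at hcon
  obtain ⟨k1, k2⟩ := hcon
  apply hx
  have hd : (P.map (av (kv B x))).natDegree = N :=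
    le_antisymm ((natDegree_map_le).trans hdeg) (le_natDegree_of_ne_zero k2)
  refine ⟨irr_of_no_small (N := N - 1) (by rw [hd]; omega) ?_, hd⟩
  intro f hf hfd hfdv
  refine not_rootSq B k1 hf hfd hfdv 0 ?_
  rw [Polynomial.map_zero, zero_pow two_ne_zero, sub_zero]
  exact dvd_zero _

/-- **No factors over small extensions.** -/
theorem noSub_dens {P : (MvPolynomial ι ℤ)[X]} {N e : ℕ} (he : 1 ≤ e) (hdeg : P.natDegree ≤ N)
    (hc : P.coeff N ≠ 0) (h1 : e ∣ N → D0 (FacSetE B P (N / e) e)) :
    D0 {x : ι × J → ℤ | ¬ NoSub e (P.map (av (kv B x)))} := by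
  by_cases hd : e ∣ N
  · intro ε hε
    refine (((h1 hd).union (dens_lead B hc)) ε hε).mono ?_
    intro x hx
    by_contra hcon
    simp only [Set.mem_union, not_or] at hcon
    obtain ⟨k1, k2⟩ := hcon
    apply hx
    have hd : (P.map (av (kv B x))).natDegree = N :=
      le_antisymm ((natDegree_map_le).trans hdeg) (le_natDegree_of_ne_zero k2)
    exact noSub_of B he hd fun _ => k1
  · intro ε hε
    refine ((dens_lead B hc) ε hε).mono ?_
    intro x hx
    by_contra k2
    apply hx
    have hd' : (P.map (av (kv B x))).natDegree = N :=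
      le_antisymm ((natDegree_map_le).trans hdeg) (le_natDegree_of_ne_zero k2)
    exact NoSub.of_not_dvd (by rw [hd']; exact hd)

variable {r s u : ℕ} {m : Fin s → ℕ} {n : Fin u → ℕ}

theorem coeff_ne_of_target {ι : Type} {P : (MvPolynomial ι ℤ)[X]} {N p : ℕ} (hp : p.Prime)
    {a : ι → ℤ} (hTN : IsCoprime ((P.map (av a)).coeff N) (p : ℤ)) : P.coeff N ≠ 0 := by
  intro h
  rw [coeff_map, h, map_zero] at hTN
  have h1 := isCoprime_zero_left.1 hTN
  rw [Int.isUnit_iff] at h1
  have := hp.two_le
  omega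

/-- the top coefficient of the discriminant -/
theorem T_top (hr : 1 ≤ r) (hm : ∑ i, m i ≤ 3 * r) (i0 : Fin s) :
    (polT (aV (XX r m n)) (bV (XX r m n))).coeff (3 * r) ≠ 0 := by
  refine coeff_ne_of_target (p := 5) (by norm_num) (a := mk (Pi.single (Fin.last r) 3)
    (tb1 m i0 (Pi.single 0 (5 : ℤ)) fun i => Pi.single 0 1) (fun _ _ => 0)) ?_
  have e : polT (Pi.single (Fin.last r) (3 : ℤ))
      (tb1 m i0 (Pi.single 0 (5 : ℤ)) fun i => Pi.single 0 1) =
      C 27 * X ^ (3 * r) - C (27 * (5 : ℤ)) := by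
    unfold polT
    rw [polP_one i0 _ (C (5 : ℤ)) (by rw [tb1_same, polA_single, Fin.val_zero, pow_zero, mul_one])
      (by intro i hi; rw [tb1_ne _ _ _ hi, polA_single, Fin.val_zero, pow_zero, mul_one, C_1]),
      polA_single, Fin.val_last, C_mul, C27, mul_pow, C33, ← pow_mul, Nat.mul_comm r 3]
  rw [mapT_mk, e, coeff_sub, coeff_C_mul, coeff_X_pow, if_pos rfl, coeff_C, if_neg (by omega),
    sub_zero, mul_one]
  exact cop27 (by norm_num) (by norm_num)

/-- The conditions on the discriminant. -/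
theorem disc_dens (hr : 2 ≤ r) (hm1 : ∀ i, 1 ≤ m i) (hm : ∑ i, m i ≤ 3 * r) (i0 : Fin s) :
    D0 {x : Ix r m n × J → ℤ | ¬ ((Irreducible (polT (aV (kv B x)) (bV (kv B x))) ∧
      (polT (aV (kv B x)) (bV (kv B x))).natDegree = 3 * r) ∧
      NoSub 2 (polT (aV (kv B x)) (bV (kv B x))) ∧
      NoSub 3 (polT (aV (kv B x)) (bV (kv B x))))} := by
  have hdeg : (polT (aV (XX r m n)) (bV (XX r m n))).natDegree ≤ 3 * r := polT_deg le_rfl hm _ _
  have hc := T_top (n := n) (by omega : 1 ≤ r) hm i0
  have h1 := irr_dens B (by omega) hdeg hc (dens_T1 B (by omega) hm i0)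
  have h2 := noSub_dens B (e := 2) (by norm_num) hdeg hc fun h => by
    refine dens_T2 B (by omega) hm i0 (hm1 i0) (by omega) ?_
    intro e he1 he2
    have hg : Nat.gcd e (3 * r - 1) = 1 := by
      interval_cases e
      · exact Nat.gcd_one_left _
      · have h3 : Odd (3 * r - 1) := by
          obtain ⟨c, hc⟩ := h
          refine ⟨c - 1, ?_⟩
          omega
        exact (Nat.coprime_two_left).2 h3
    rw [hg]
    omega
  have h3 := noSub_dens B (e := 3) (by norm_num) hdeg hc fun h => by
    have hr3 : 3 * r / 3 = r := Nat.mul_div_cancel_left _ (by norm_num)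
    rw [hr3]
    refine dens_T2 B (by omega) hm i0 (hm1 i0) (by omega) ?_
    intro e he1 he2
    have hg : Nat.gcd e (3 * r - 1) ≤ 2 := by
      interval_cases e
      · rw [Nat.gcd_one_left]
        norm_num
      · exact Nat.gcd_le_left _ (by norm_num)
      · have h3 : Nat.Coprime 3 (3 * r - 1) := by
          rw [Nat.Prime.coprime_iff_not_dvd Nat.prime_three]
          omega
        rw [Nat.Coprime] at h3
        rw [h3]
        norm_num
    calc r * Nat.gcd e (3 * r - 1) ≤ r * 2 := Nat.mul_le_mul_left _ hg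
      _ < 3 * r - 1 := by omega
  intro ε hε
  refine (((h1.union h2).union h3) ε hε).mono ?_
  intro x hx
  by_contra hcon
  simp only [Set.mem_union, not_or, Set.mem_setOf_eq, not_not, map_T] at hcon
  obtain ⟨⟨k1, k2⟩, k3⟩ := hcon
  exact hx ⟨k1, k2, k3⟩

/-- The conditions on the factors of `b`. -/
theorem b_dens (l : Fin s) (hm1 : 1 ≤ m l) :
    D0 {x : Ix r m n × J → ℤ | ¬ ((Irreducible (polA (bV (kv B x) l)) ∧
      (polA (bV (kv B x) l)).natDegree = m l))} := by
  have hc : (polA (bV (XX r m n) l)).coeff (m l) ≠ 0 := by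
    refine coeff_ne_of_target (p := 5) (by norm_num) (a := mk (fun _ => 0)
      (fun i' => Pi.single (Fin.last _) 1) (fun _ _ => 0)) ?_
    rw [mapb_mk, polA_single, Fin.val_last, coeff_C_mul, coeff_X_pow, if_pos rfl, mul_one]
    exact isCoprime_one_left
  have h1 := irr_dens B hm1 (polA_natDegree _) hc (dens_b B l hm1)
  intro ε hε
  refine (h1 ε hε).mono ?_
  intro x hx
  simp only [Set.mem_setOf_eq, map_b] at hx ⊢
  exact hx

theorem b_dens3 (l : Fin s) (hm1 : 1 ≤ m l) (hm3 : m l ≠ 3) :
    D0 {x : Ix r m n × J → ℤ | ¬ NoSub 3 (polA (bV (kv B x) l))} := by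
  have hc : (polA (bV (XX r m n) l)).coeff (m l) ≠ 0 := by
    refine coeff_ne_of_target (p := 5) (by norm_num) (a := mk (fun _ => 0)
      (fun i' => Pi.single (Fin.last _) 1) (fun _ _ => 0)) ?_
    rw [mapb_mk, polA_single, Fin.val_last, coeff_C_mul, coeff_X_pow, if_pos rfl, mul_one]
    exact isCoprime_one_left
  have h3 := noSub_dens B (e := 3) (by norm_num) (polA_natDegree _) hc fun h => by
    obtain ⟨c, hc⟩ := h
    have hc3 : m l / 3 = c := by omega
    rw [hc3]
    refine dens_bE B l (by omega) (by omega) ?_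
    intro e he1 he2
    have hg : Nat.gcd e (m l - 1) ≤ 2 := by
      interval_cases e
      · rw [Nat.gcd_one_left]
        norm_num
      · exact Nat.gcd_le_left _ (by norm_num)
      · have h3 : Nat.Coprime 3 (m l - 1) := by
          rw [Nat.Prime.coprime_iff_not_dvd Nat.prime_three]
          omega
        rw [Nat.Coprime] at h3
        rw [h3]
        norm_num
    calc c * Nat.gcd e (m l - 1) ≤ c * 2 := Nat.mul_le_mul_left _ hg
      _ < m l - 1 := by omega
  intro ε hε
  refine (h3 ε hε).mono ?_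
  intro x hx
  simp only [Set.mem_setOf_eq, map_b] at hx ⊢
  exact hx

end nf

end Pool.Agent.Helper70K9.TN
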