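import Pool.Agent.R939.PP.Surf
import Pool.Agent.Helper70K9.TN.Nf

/-!
# The roots of the discriminant `a ^ 3 - 27 b` are not powers
-/

set_option autoImplicit false
set_option linter.all false

namespace Pool.Agent.Helper70K9.TN

open Polynomial NumberField Pool.Agent.R939.EI Pool.Agent.R939.HI Pool.Agent.W275.UB
open Pool.Agent.TH115.GD Finset Pool.Agent.R939.KM Pool.Agent.R939.PP

section nf

variable {k : Type} [Field k] [NumberField k] {J : Type} [Fintype J] (B : Module.Basis J ℤ (𝓞 k))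
  {ι : Type} [Fintype ι]

theorem dens_pow6 {u v : MvPolynomial ι ℤ}
    (hE : ∀ p : ℕ, p.Prime → p ≠ 2 → p ≠ 3 → ∃ (a : ι → ℤ) (w : ℤ), IsCoprime w (p : ℤ) ∧
      av a u = (p : ℤ) * w ∧ IsCoprime (av a v) (p : ℤ)) {ℓ : ℕ} (hℓ : 2 ≤ ℓ) :
    D0 (RootSq B (polPow' u v ℓ) 0 1) := by
  classical
  refine dens_eis (N := ℓ) B (by omega) (by omega) ?_ ?_
  · rw [polPow']
    refine (natDegree_sub_le _ _).trans (max_le ?_ ?_)
    · exact natDegree_C_mul_X_pow_le _ _
    · rw [natDegree_C]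
      exact Nat.zero_le _
  intro p hp hp2 hp3
  obtain ⟨a, w, hw, hu, hv⟩ := hE p hp hp2 hp3
  refine ⟨a, -w, hw.neg_left, ?_, ?_, ?_⟩
  · rw [polPow'_map, hu, coeff_sub, coeff_C_mul, coeff_X_pow, if_neg (by omega),
      coeff_C, if_pos rfl]
    ring
  · rw [polPow'_map, coeff_sub, coeff_C_mul, coeff_X_pow, if_pos rfl, coeff_C,
      if_neg (by omega), sub_zero, mul_one]
    exact hv
  · intro j hj0 hjN
    rw [polPow'_map, coeff_sub, coeff_C_mul, coeff_X_pow, if_neg hjN, coeff_C, if_neg hj0]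
    simp

/-- **The quotient of the values is rarely a perfect power.** -/
theorem dens_perfect6 {u v : MvPolynomial ι ℤ} (hU : Shal (val B u)) (hV : Shal (val B v))
    (hE : ∀ p : ℕ, p.Prime → p ≠ 2 → p ≠ 3 → ∃ (a : ι → ℤ) (w : ℤ), IsCoprime w (p : ℤ) ∧
      av a u = (p : ℤ) * w ∧ IsCoprime (av a v) (p : ℤ)) : D0 {x : ι × J → ℤ |
    ∃ ℓ : ℕ, 2 ≤ ℓ ∧ ∃ z : k, algebraMap (𝓞 k) k (val B v x) * z ^ ℓ =
      algebraMap (𝓞 k) k (val B u x)} := by
  classical
  have hd1 : 1 ≤ Module.finrank ℚ k := Module.finrank_pos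
  -- a special vector
  obtain ⟨a, w, hw, hau, hav⟩ := hE 5 (by norm_num) (by norm_num) (by norm_num)
  let y : ι × J → ℤ := fun q => B.repr ((a q.1 : ℤ) : 𝓞 k) q.2
  have hy : ∀ c : MvPolynomial ι ℤ, val B c y = ((av a c : ℤ) : 𝓞 k) := by
    intro c
    have h1 : (fun i => elt B fun t => y (i, t)) = fun i => ((a i : ℤ) : 𝓞 k) := by
      funext i
      exact (basis_elt B ((a i : ℤ) : 𝓞 k)).symm
    rw [Pool.Agent.R939.PP.val, h1]
    have h2 := MvPolynomial.map_aeval a (Int.castRingHom (𝓞 k)) c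
    rw [av_aeval]
    show _ = (Int.castRingHom (𝓞 k)) (MvPolynomial.aeval a c)
    rw [h2, MvPolynomial.aeval_def, MvPolynomial.coe_eval₂Hom]
    congr 1
  have hNI : ∀ z : ℤ, Algebra.norm ℤ ((z : ℤ) : 𝓞 k) = z ^ Module.finrank ℚ k := by
    intro z
    have h6 : ((z : ℤ) : 𝓞 k) = algebraMap ℤ (𝓞 k) z := by simp
    rw [h6, Algebra.norm_algebraMap, RingOfIntegers.rank]
  have hne5 : ∀ c : ℤ, IsCoprime c ((5 : ℕ) : ℤ) → ¬ (5 : ℤ) ∣ c := by
    intro c hc h5
    have h6 : IsUnit (5 : ℤ) := hc.isUnit_of_dvd' h5 (by norm_num)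
    rw [Int.isUnit_iff] at h6
    omega
  have hw5 := hne5 w hw
  have hv5 := hne5 _ hav
  have hu0' : av a u ≠ 0 := by
    rw [hau]
    have : w ≠ 0 := by
      rintro rfl
      exact hw5 (dvd_zero _)
    push_cast
    exact mul_ne_zero (by norm_num) this
  have hv0' : av a v ≠ 0 := by
    intro h
    rw [h] at hv5
    exact hv5 (dvd_zero _)
  have hnorm : (Algebra.norm ℤ (val B u y)) ^ 2 ≠ (Algebra.norm ℤ (val B v y)) ^ 2 := by
    rw [hy, hy, hNI, hNI, ← pow_mul, ← pow_mul, mul_comm _ 2, pow_mul, pow_mul]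
    intro h
    have h2 := (pow_left_inj₀ (sq_nonneg _) (sq_nonneg _) (by omega : Module.finrank ℚ k ≠ 0)).1 h
    apply hv5
    have h3 : (5 : ℤ) ∣ (av a v) ^ 2 := by
      rw [← h2, hau, pow_two, mul_assoc]
      push_cast
      exact dvd_mul_right _ _
    exact (Int.prime_iff_natAbs_prime.2 (by norm_num : Nat.Prime (5 : ℤ).natAbs)).dvd_of_dvd_pow h3
  have hu0 : val B u y ≠ 0 := by
    rw [hy]
    exact_mod_cast hu0'
  have hv0 : val B v y ≠ 0 := by
    rw [hy]
    exact_mod_cast hv0'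
  intro ε hε
  obtain ⟨L, hL⟩ := hU (ε / 4) (by positivity)
  obtain ⟨L', hL'⟩ := hV (ε / 4) (by positivity)
  have h3 : D0 (⋃ ℓ ∈ Finset.Ico 2 (max L L'), RootSq B (polPow' u v ℓ) 0 1) :=
    D0.biUnion _ _ fun ℓ hℓ => dens_pow6 B hE (Finset.mem_Ico.1 hℓ).1
  have h4 := val_norm B hnorm
  have h5 := val_zero B hu0
  have h6 := val_zero B hv0
  have h7 := (((h3.union h4).union h5).union h6) (ε / 2) (by positivity)
  have h8 := (hL.union hL').union h7
  have e : ε / 4 + ε / 4 + ε / 2 = ε := by ring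
  rw [e] at h8
  refine h8.mono ?_
  rintro x ⟨ℓ, hℓ, z, hz⟩
  by_contra hcon
  simp only [Set.mem_union, not_or, Set.mem_iUnion, exists_prop, not_exists, not_and] at hcon
  obtain ⟨⟨k1, k2⟩, ⟨⟨k3, k4⟩, k5⟩, k6⟩ := hcon
  have hU : val B u x ≠ 0 := k5
  have hV : val B v x ≠ 0 := k6
  rcases Nat.lt_or_ge ℓ (max L L') with hlt | hge
  · refine not_rootSq B (k3 ℓ (Finset.mem_Ico.2 ⟨hℓ, hlt⟩)) (f := X - C z) (irreducible_X_sub_C z)
      (by rw [natDegree_X_sub_C]) ?_ 0 ?_
    · rw [polPow'_map, dvd_iff_isRoot, IsRoot, eval_sub, eval_mul, eval_C, eval_pow, eval_X, eval_C,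
        ← val_kv, ← val_kv, hz, sub_self]
    · rw [Polynomial.map_zero, zero_pow two_ne_zero, sub_zero]
      exact dvd_zero _
  · apply k4
    refine norm_eq_of_pow hU hV hge ?_ ?_ hz
    · intro P hP hP0 hmem
      exact k1 ⟨hU, P, hP, hP0, Ideal.pow_le_pow_right (le_max_left _ _) hmem⟩
    · intro P hP hP0 hmem
      exact k2 ⟨hV, P, hP, hP0, Ideal.pow_le_pow_right (le_max_right _ _) hmem⟩

/-- no root of an irreducible polynomial is a power, from its first and last coefficients -/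
theorem noPow_of {P : (MvPolynomial ι ℤ)[X]} {N : ℕ} (hdeg : P.natDegree ≤ N)
    {U V : MvPolynomial ι ℤ} (hU : P.coeff 0 = U) (hV : P.coeff N = V)
    (hsU : Shal (val B U)) (hsV : Shal (val B V))
    (hE : ∀ p : ℕ, p.Prime → p ≠ 2 → p ≠ 3 → ∃ (a : ι → ℤ) (w : ℤ), IsCoprime w (p : ℤ) ∧
      av a U = (p : ℤ) * w ∧ IsCoprime (av a V) (p : ℤ)) :
    D0 {x : ι × J → ℤ | Irreducible (P.map (av (kv B x))) ∧
      ∃ ℓ : ℕ, ℓ.Prime ∧ ℓ ≠ 2 ∧ ¬ NoPowerRoot (P.map (av (kv B x))) ℓ} := by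
  have h3 := dens_perfect6 B hsU hsV hE
  have h4 : D0 {x : ι × J → ℤ | (P.map (av (kv B x))).coeff N = 0} := by
    refine dens_lead B ?_
    rw [hV]
    rintro rfl
    obtain ⟨a, w, -, -, ha⟩ := hE 5 (by norm_num) (by norm_num) (by norm_num)
    rw [map_zero] at ha
    have h1 := isCoprime_zero_left.1 ha
    rw [Int.isUnit_iff] at h1
    omega
  intro ε hε
  refine ((h3.union h4) ε hε).mono ?_
  rintro x ⟨hirr, ℓ, hℓ, hℓ2, hx⟩
  by_contra hcon
  simp only [Set.mem_union, not_or] at hcon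
  obtain ⟨k1, k2⟩ := hcon
  have k2' : (P.map (av (kv B x))).coeff N ≠ 0 := k2
  set D := P.map (av (kv B x)) with hD
  have hdeg' : D.natDegree = N :=
    le_antisymm (natDegree_map_le.trans hdeg) (le_natDegree_of_ne_zero k2')
  have hc : ∀ j, D.coeff j = av (kv B x) (P.coeff j) := by
    intro j
    rw [hD, coeff_map]
  apply hx
  intro π hπ hdv
  have has : Associated π D := hπ.associated_of_dvd hirr hdv
  refine no_power_assoc has.symm.dvd ?_
  intro y hy
  obtain ⟨z, hz⟩ := power_of_root hirr (hℓ.odd_of_ne_two hℓ2) hy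
  apply k1
  refine ⟨ℓ, hℓ.two_le, z, ?_⟩
  rw [leadingCoeff, hdeg', hc, hc, hU, hV, ← val_kv, ← val_kv] at hz
  exact hz

/-- **The values of `X³ - 27 Y`.** -/
theorem shal_cub {ja jb : ι} (hab : jb ≠ ja) :
    Shal (val B (MvPolynomial.X ja ^ 3 - 27 * (MvPolynomial.X jb : MvPolynomial ι ℤ))) := by
  classical
  have e2 : val B (MvPolynomial.X ja ^ 3 - 27 * (MvPolynomial.X jb : MvPolynomial ι ℤ)) =
      fun x => (elt B fun t => x (ja, t)) ^ 3 - (fun _ => (27 : 𝓞 k)) x * elt B fun t => x (jb, t) := by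
    funext x
    rw [Pool.Agent.R939.PP.val, map_sub, map_mul, map_pow, map_ofNat, MvPolynomial.aeval_X, MvPolynomial.aeval_X]
  obtain ⟨C0, S, hb⟩ := normB B (MvPolynomial.X ja ^ 3 - 27 * (MvPolynomial.X jb : MvPolynomial ι ℤ))
  rw [e2] at hb ⊢
  refine shal_lin B jb (A := fun x => (elt B fun t => x (ja, t)) ^ 3) (C := fun _ => 27) ?_ ?_ ?_ ?_
    ⟨C0, S, hb⟩
  · intro x y hxy
    have h1 : (fun t => x (ja, t)) = fun t => y (ja, t) := by
      funext t
      exact hxy (ja, t) fun h => hab h.symm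
    show (elt B fun t => x (ja, t)) ^ 3 = (elt B fun t => y (ja, t)) ^ 3
    rw [h1]
  · intro x y _
    rfl
  · exact shal_const 27
  · intro ε hε
    refine (D0.empty ε hε).mono ?_
    intro x hx
    exfalso
    have h27 : (27 : 𝓞 k) = 0 := hx
    norm_num at h27

theorem shal_X3 (j : ι) : Shal (val B (MvPolynomial.X j ^ 3 : MvPolynomial ι ℤ)) := by
  have h1 : val B (MvPolynomial.X j ^ 3 : MvPolynomial ι ℤ) = fun x =>
      (elt B fun t => x (j, t)) * ((elt B fun t => x (j, t)) * (elt B fun t => x (j, t))) := by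
    funext x
    rw [Pool.Agent.R939.PP.val, map_pow, MvPolynomial.aeval_X]
    ring
  rw [h1]
  exact shal_mul (shal_coord B j) (shal_mul (shal_coord B j) (shal_coord B j))

theorem shal_27X (j : ι) : Shal (val B (-(27 * MvPolynomial.X j) : MvPolynomial ι ℤ)) := by
  have h1 : val B (-(27 * MvPolynomial.X j) : MvPolynomial ι ℤ) = fun x =>
      (-27 : 𝓞 k) * (elt B fun t => x (j, t)) := by
    funext x
    rw [Pool.Agent.R939.PP.val, map_neg, map_mul, map_ofNat, MvPolynomial.aeval_X, neg_mul]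
  rw [h1]
  exact shal_mul (shal_const _) (shal_coord B j)

end nf

section surf

variable {R : Type} [CommRing R] {r u : ℕ} {m : Fin 1 → ℕ} {n : Fin u → ℕ}

theorem coeff_zero_polT (a : Fin (r + 1) → R) (β : (i : Fin 1) → Fin (m i + 1) → R) :
    (polT a β).coeff 0 = a 0 ^ 3 - 27 * β 0 0 := by
  have h : ∀ {n : ℕ} (c : Fin (n + 1) → R), (polA c).eval 0 = c 0 := fun c => by
    rw [← coeff_zero_eq_eval_zero]
    exact coeff_polA c 0
  unfold polT
  rw [polP_fin1, coeff_zero_eq_eval_zero, eval_sub, eval_pow, eval_mul, eval_ofNat, h, h]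

theorem coeff_cube_top (a : Fin (r + 1) → R) : (polA a ^ 3).coeff (3 * r) = a (Fin.last r) ^ 3 := by
  rw [coeff_pow_of_natDegree_le (polA_natDegree a)]
  congr 1
  exact coeff_polA a (Fin.last r)

theorem coeff_topT1 (h : m 0 < 3 * r) (a : Fin (r + 1) → R)
    (β : (i : Fin 1) → Fin (m i + 1) → R) : (polT a β).coeff (3 * r) = a (Fin.last r) ^ 3 := by
  unfold polT
  rw [coeff_sub, coeff_cube_top, C27, coeff_C_mul, polP_fin1,
    coeff_eq_zero_of_natDegree_lt ((polA_natDegree _).trans_lt h), mul_zero, sub_zero]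

theorem coeff_topT2 (h : m 0 = 3 * r) (a : Fin (r + 1) → R)
    (β : (i : Fin 1) → Fin (m i + 1) → R) : (polT a β).coeff (3 * r) =
      a (Fin.last r) ^ 3 - 27 * β 0 (Fin.last (m 0)) := by
  unfold polT
  rw [coeff_sub, coeff_cube_top, C27, coeff_C_mul, polP_fin1, ← h]
  congr 2
  exact coeff_polA (β 0) (Fin.last (m 0))

theorem coeff_topT3 (h : 3 * r < m 0) (a : Fin (r + 1) → R)
    (β : (i : Fin 1) → Fin (m i + 1) → R) : (polT a β).coeff (m 0) =
      - (27 * β 0 (Fin.last (m 0))) := by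
  unfold polT
  rw [coeff_sub, coeff_eq_zero_of_natDegree_lt ((natDegree_pow_le.trans
    (Nat.mul_le_mul_left 3 (polA_natDegree a))).trans_lt h), C27, coeff_C_mul, polP_fin1,
    zero_sub]
  congr 2
  exact coeff_polA (β 0) (Fin.last (m 0))

end surf

section nf

variable {k : Type} [Field k] [NumberField k] {J : Type} [Fintype J] (B : Module.Basis J ℤ (𝓞 k))
  {r u : ℕ} {m : Fin 1 → ℕ} {n : Fin u → ℕ}

theorem cop_pp {p : ℕ} (hp : p.Prime) (hp3 : p ≠ 3) :
    IsCoprime ((p : ℤ) ^ 2 - 27) (p : ℤ) := by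
  obtain ⟨s, t, hst⟩ := cop27 hp hp3
  exact ⟨-s, t + s * p, by linear_combination hst⟩

/-- **No root of the discriminant is a power.** -/
theorem dens_noT (hm : 1 ≤ m 0) (hN : r = 0 → 3 * r < m 0) :
    D0 {x : Ix r m n × J → ℤ | Irreducible (polT (aV (kv B x)) (bV (kv B x))) ∧
      ∃ ℓ : ℕ, ℓ.Prime ∧ ℓ ≠ 2 ∧ ¬ NoPowerRoot (polT (aV (kv B x)) (bV (kv B x))) ℓ} := by
  have hm0 : (Fin.last (m 0)) ≠ 0 := by
    intro h
    have h1 := congrArg Fin.val h
    simp at h1
    omega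
  have hbT : ∀ (f : Fin (m 0 + 1)) (j : Fin (r + 1)),
      (Sum.inl (Sum.inr ⟨0, f⟩) : Ix r m n) ≠ Sum.inl (Sum.inl j) := by
    intro f j h
    exact absurd (Sum.inl_injective h) Sum.inr_ne_inl
  rcases lt_trichotomy (m 0) (3 * r) with h | h | h
  · have hr0 : Fin.last r ≠ 0 := by
      intro h'
      have h1 := congrArg Fin.val h'
      simp at h1
      omega
    have key := noPow_of B (P := polT (aV (XX r m n)) (bV (XX r m n))) (N := 3 * r)
      (polT_deg le_rfl (by simpa using h.le) _ _) (coeff_zero_polT _ _) (coeff_topT1 h _ _)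
      (shal_cub B (hbT 0 0)) (shal_X3 B _) (fun p hp hp2 hp3 =>
        ⟨mk (fun j => if j = 0 then (p : ℤ) else 1) (fun i j => (p : ℤ)) (fun _ _ => 0),
          (p : ℤ) ^ 2 - 27, cop_pp hp hp3, by
            rw [map_sub, map_pow, map_mul, map_ofNat]
            show (av _ (MvPolynomial.X _)) ^ 3 - 27 * av _ (MvPolynomial.X _) = _
            rw [av_X, av_X]
            show (if (0 : Fin (r + 1)) = 0 then (p : ℤ) else 1) ^ 3 - 27 * (p : ℤ) = _
            rw [if_pos rfl]
            ring, by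
            rw [map_pow]
            show IsCoprime ((av _ (MvPolynomial.X _)) ^ 3) _
            rw [av_X]
            show IsCoprime ((if (Fin.last r) = 0 then (p : ℤ) else 1) ^ 3) _
            rw [if_neg hr0, one_pow]
            exact isCoprime_one_left⟩)
    simp only [map_T] at key
    exact key
  · have hr0 : Fin.last r ≠ 0 := by
      intro h'
      have h1 := congrArg Fin.val h'
      simp at h1
      omega
    have key := noPow_of B (P := polT (aV (XX r m n)) (bV (XX r m n))) (N := 3 * r)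
      (polT_deg le_rfl (by simpa using h.le) _ _) (coeff_zero_polT _ _) (coeff_topT2 h _ _)
      (shal_cub B (hbT 0 0)) (shal_cub B (hbT _ _)) (fun p hp hp2 hp3 =>
        ⟨mk (fun j => if j = 0 then (p : ℤ) else 1) (fun i j => if j = 0 then (p : ℤ) else 0)
          (fun _ _ => 0), (p : ℤ) ^ 2 - 27, cop_pp hp hp3, by
            rw [map_sub, map_pow, map_mul, map_ofNat]
            show (av _ (MvPolynomial.X _)) ^ 3 - 27 * av _ (MvPolynomial.X _) = _
            rw [av_X, av_X]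
            show (if (0 : Fin (r + 1)) = 0 then (p : ℤ) else 1) ^ 3 -
              27 * (if (0 : Fin (m 0 + 1)) = 0 then (p : ℤ) else 0) = _
            rw [if_pos rfl, if_pos rfl]
            ring, by
            rw [map_sub, map_pow, map_mul, map_ofNat]
            show IsCoprime ((av _ (MvPolynomial.X _)) ^ 3 - 27 * av _ (MvPolynomial.X _)) _
            rw [av_X, av_X]
            show IsCoprime ((if (Fin.last r) = 0 then (p : ℤ) else 1) ^ 3 -
              27 * (if (Fin.last (m 0)) = 0 then (p : ℤ) else 0)) _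
            rw [if_neg hr0, if_neg hm0, one_pow, mul_zero, sub_zero]
            exact isCoprime_one_left⟩)
    simp only [map_T] at key
    exact key
  · have key := noPow_of B (P := polT (aV (XX r m n)) (bV (XX r m n))) (N := m 0)
      (polT_deg h.le (by simp) _ _) (coeff_zero_polT _ _) (coeff_topT3 h _ _)
      (shal_cub B (hbT 0 0)) (shal_27X B _) (fun p hp hp2 hp3 =>
        ⟨mk (fun j => (p : ℤ)) (fun i j => if j = 0 then (p : ℤ) else 1)
          (fun _ _ => 0), (p : ℤ) ^ 2 - 27, cop_pp hp hp3, by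
            rw [map_sub, map_pow, map_mul, map_ofNat]
            show (av _ (MvPolynomial.X _)) ^ 3 - 27 * av _ (MvPolynomial.X _) = _
            rw [av_X, av_X]
            show (p : ℤ) ^ 3 - 27 * (if (0 : Fin (m 0 + 1)) = 0 then (p : ℤ) else 1) = _
            rw [if_pos rfl]
            ring, by
            rw [map_neg, map_mul, map_ofNat]
            show IsCoprime (-(27 * av _ (MvPolynomial.X _))) _
            rw [av_X]
            show IsCoprime (-(27 * (if (Fin.last (m 0)) = 0 then (p : ℤ) else 1))) _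
            rw [if_neg hm0, mul_one]
            exact (cop27 hp hp3).neg_left⟩)
    simp only [map_T] at key
    exact key

end nf

end Pool.Agent.Helper70K9.TN
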