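import Pool.Agent.Helper7K9.T3.Stm

/-!
# The Tate conjecture at 3 for surfaces with a section of infinite order: the definitions
-/

set_option autoImplicit false
set_option linter.all false

open Polynomial WeierstrassCurve WeierstrassCurve.Affine
open scoped Classical

namespace Pool.Agent.Helper70K9.TN

open Pool.Agent.Helper7K9.T3 Pool.Agent.TH115.GD

/-- For the curve `E : y² + a x y + b y = x³` with `b = p (p - g³ - a g)`, pulled back by `t ↦ h(t)`:
the Tate conjecture at 3 holds, and the point `(p g, p g³)` has infinite order. -/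
def RankAt3 (k' K F : Type) {k : Type} [Field k] [Field k'] [Field K] [Algebra k[X] K] [Field F]
    [Algebra k'[X] F] [IsFractionRing k'[X] F] [Algebra K F] (a p g h : k[X]) : Prop :=
  TateAt (F := F) 3 k' (crv3 (algebraMap k[X] K (a.comp h))
    (algebraMap k[X] K ((p * (p - g ^ 3 - a * g)).comp h))) ∧
  ∃ P : Pt (crv3 (algebraMap k[X] K (a.comp h))
      (algebraMap k[X] K ((p * (p - g ^ 3 - a * g)).comp h))) K,
    (∃ hn, P = Point.some (algebraMap k[X] K ((p * g).comp h))
      (algebraMap k[X] K ((p * g ^ 3).comp h)) hn) ∧ ∀ n : ℕ, n ≠ 0 → n • P ≠ 0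

/-- This for all polynomials `h` of degree prime to three, and odd if `k` does not contain the
primitive cube roots of unity, such that `p(h(t))`, `q(h(t))` and `Δ(h(t))` are irreducible, where
`q = p - g³ - a g` and `Δ = a³ - 27 p q`; and for all `h = tᴹ` for the `M` prime to some `N ≠ 0`. -/
def RankCovers3 (k' K F : Type) {k : Type} [Field k] [Field k'] [Field K] [Algebra k[X] K] [Field F]
    [Algebra k'[X] F] [IsFractionRing k'[X] F] [Algebra K F] (a p g : k[X]) : Prop :=
  (∀ h : k[X], ¬ 3 ∣ h.natDegree → (Odd h.natDegree ∨ ∃ x : k, x ^ 2 + x + 1 = 0) →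
    Irreducible (p.comp h) → Irreducible ((p - g ^ 3 - a * g).comp h) →
    Irreducible ((a ^ 3 - 27 * (p * (p - g ^ 3 - a * g))).comp h) → RankAt3 k' K F a p g h) ∧
  ∃ N : ℕ, N ≠ 0 ∧ ∀ M : ℕ, Nat.Coprime M N → RankAt3 k' K F a p g (X ^ M)

end Pool.Agent.Helper70K9.TN
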