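import Pool.Agent.Helper70K9.TN.Rk1
import Pool.Agent.Helper70K9.TN.NoT
import Pool.Agent.Helper70K9.TN.Comp
import Pool.Agent.Helper70K9.TN.StmR

/-!
# The family `b = p (p - g ^ 3 - a g)`: densities over number fields
-/

set_option autoImplicit false
set_option linter.all false

namespace Pool.Agent.Helper70K9.TN

open Polynomial NumberField Pool.Agent.R939.EI Pool.Agent.R939.HI Pool.Agent.W275.UB
open Pool.Agent.R939.KM Pool.Agent.R939.PP

/-- the norm of a root -/
theorem norm_root {k : Type} [Field k] {D : k[X]} (hD : Irreducible D) :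
    Algebra.norm k (AdjoinRoot.root D) = (-1) ^ D.natDegree * (D.leadingCoeff⁻¹ * D.coeff 0) := by
  haveI : Fact (Irreducible D) := ⟨hD⟩
  have h1 := Algebra.PowerBasis.norm_gen_eq_coeff_zero_minpoly (AdjoinRoot.powerBasis hD.ne_zero)
  rw [AdjoinRoot.minpoly_powerBasis_gen, AdjoinRoot.powerBasis_gen, AdjoinRoot.powerBasis_dim,
    mul_comm D, coeff_C_mul] at h1
  exact h1

/-- if a root is a root of unity, then the first and the last coefficient have a common power -/
theorem pow_eq_of_cyclo {k : Type} [Field k] {D : k[X]} (hD : Irreducible D) {n : ℕ}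
    (h : D ∣ X ^ n - 1) : D.coeff 0 ^ (2 * n) = D.leadingCoeff ^ (2 * n) := by
  haveI : Fact (Irreducible D) := ⟨hD⟩
  have hl : D.leadingCoeff ≠ 0 := leadingCoeff_ne_zero.2 hD.ne_zero
  have h1 : AdjoinRoot.root D ^ n = 1 := by
    have h2 := AdjoinRoot.mk_eq_zero.2 h
    rw [map_sub, map_pow, map_one, AdjoinRoot.mk_X] at h2
    exact sub_eq_zero.1 h2
  have h2 := congrArg (Algebra.norm k) h1
  rw [map_pow, map_one, norm_root hD] at h2
  have h3 : ((-1 : k) ^ D.natDegree * (D.leadingCoeff⁻¹ * D.coeff 0)) ^ (2 * n) = 1 := by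
    rw [mul_comm 2 n, pow_mul, h2, one_pow]
  rw [mul_pow, ← pow_mul, mul_comm D.natDegree, mul_assoc, pow_mul (-1 : k) 2, neg_one_sq, one_pow,
    one_mul, mul_pow, inv_pow] at h3
  have h4 : D.leadingCoeff ^ (2 * n) ≠ 0 := pow_ne_zero _ hl
  field_simp at h3
  exact h3

section nf

variable {k : Type} [Field k] [NumberField k] {J : Type} [Fintype J] (B : Module.Basis J ℤ (𝓞 k))
  {ι : Type} [Fintype ι]

/-- **Coprime to the cyclotomic polynomials.** -/
theorem cop_dens {P : (MvPolynomial ι ℤ)[X]} {N : ℕ} (hdeg : P.natDegree ≤ N)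
    (hE : ∃ (a : ι → ℤ) (w : ℤ), IsCoprime w 5 ∧ (P.map (av a)).coeff 0 = 5 * w ∧
      IsCoprime ((P.map (av a)).coeff N) 5) :
    D0 {x : ι × J → ℤ | Irreducible (P.map (av (kv B x))) ∧
      ¬ ∀ n : ℕ, 0 < n → IsCoprime (P.map (av (kv B x))) (X * (X ^ n - 1))} := by
  classical
  obtain ⟨a, w, hw, hau, hav⟩ := hE
  rw [coeff_map] at hau hav
  set U := P.coeff 0 with hU
  set V := P.coeff N with hV
  have hd1 : 1 ≤ Module.finrank ℚ k := Module.finrank_pos
  let y : ι × J → ℤ := fun q => B.repr ((a q.1 : ℤ) : 𝓞 k) q.2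
  have hy : ∀ c : MvPolynomial ι ℤ, Pool.Agent.R939.PP.val B c y = ((av a c : ℤ) : 𝓞 k) := by
    intro c
    have h1 : (fun i => elt B fun t => y (i, t)) = fun i => ((a i : ℤ) : 𝓞 k) := by
      funext i
      exact (basis_elt B ((a i : ℤ) : 𝓞 k)).symm
    rw [Pool.Agent.R939.PP.val, h1]
    have h2 := MvPolynomial.map_aeval a (Int.castRingHom (𝓞 k)) c
    rw [av_aeval]
    show _ = (Int.castRingHom (𝓞 k)) (MvPolynomial.aeval a c)
    rw [h2, MvPolynomial.aeval_def, MvPolynomial.coe_eval₂Hom]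
    congr 1
  have hNI : ∀ z : ℤ, Algebra.norm ℤ ((z : ℤ) : 𝓞 k) = z ^ Module.finrank ℚ k := by
    intro z
    have h6 : ((z : ℤ) : 𝓞 k) = algebraMap ℤ (𝓞 k) z := by simp
    rw [h6, Algebra.norm_algebraMap, RingOfIntegers.rank]
  have hne5 : ∀ c : ℤ, IsCoprime c 5 → ¬ (5 : ℤ) ∣ c := by
    intro c hc h5
    have h6 : IsUnit (5 : ℤ) := hc.isUnit_of_dvd' h5 dvd_rfl
    rw [Int.isUnit_iff] at h6
    omega
  have hw5 := hne5 w hw
  have hv5 := hne5 _ hav
  have hu0' : av a U ≠ 0 := by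
    rw [hau]
    have : w ≠ 0 := by
      rintro rfl
      exact hw5 (dvd_zero _)
    exact mul_ne_zero (by norm_num) this
  have hv0' : av a V ≠ 0 := by
    intro h
    rw [h] at hv5
    exact hv5 (dvd_zero _)
  have hnorm : (Algebra.norm ℤ (Pool.Agent.R939.PP.val B U y)) ^ 2 ≠
      (Algebra.norm ℤ (Pool.Agent.R939.PP.val B V y)) ^ 2 := by
    rw [hy, hy, hNI, hNI, ← pow_mul, ← pow_mul, mul_comm _ 2, pow_mul, pow_mul]
    intro h
    have h2 := (pow_left_inj₀ (sq_nonneg _) (sq_nonneg _) (by omega : Module.finrank ℚ k ≠ 0)).1 h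
    apply hv5
    have h3 : (5 : ℤ) ∣ (av a V) ^ 2 := by
      rw [← h2, hau, pow_two, mul_assoc]
      exact dvd_mul_right _ _
    exact (Int.prime_iff_natAbs_prime.2 (by norm_num : Nat.Prime (5 : ℤ).natAbs)).dvd_of_dvd_pow h3
  have hu0 : Pool.Agent.R939.PP.val B U y ≠ 0 := by
    rw [hy]
    exact_mod_cast hu0'
  have hv0 : Pool.Agent.R939.PP.val B V y ≠ 0 := by
    rw [hy]
    exact_mod_cast hv0'
  have h4 := val_norm B hnorm
  have h5 := val_zero B hu0
  have h6 := val_zero B hv0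
  intro ε hε
  refine (((h4.union h5).union h6) ε hε).mono ?_
  rintro x ⟨hirr, hcyc⟩
  by_contra hcon
  simp only [Set.mem_union, not_or] at hcon
  obtain ⟨⟨k1, k2⟩, k3⟩ := hcon
  have kU : Pool.Agent.R939.PP.val B U x ≠ 0 := k2
  have kV : Pool.Agent.R939.PP.val B V x ≠ 0 := k3
  set D := P.map (av (kv B x)) with hD
  have c0 : D.coeff 0 = algebraMap (𝓞 k) k (Pool.Agent.R939.PP.val B U x) := by
    rw [hD, coeff_map, val_kv]
  have cN : D.coeff N = algebraMap (𝓞 k) k (Pool.Agent.R939.PP.val B V x) := by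
    rw [hD, coeff_map, val_kv]
  have i0 : Function.Injective (algebraMap (𝓞 k) k) := FaithfulSMul.algebraMap_injective (𝓞 k) k
  have cN0 : D.coeff N ≠ 0 := by
    rw [cN, Ne, map_eq_zero_iff _ i0]
    exact kV
  have c00 : D.coeff 0 ≠ 0 := by
    rw [c0, Ne, map_eq_zero_iff _ i0]
    exact kU
  have hdeg' : D.natDegree = N :=
    le_antisymm (natDegree_map_le.trans hdeg) (le_natDegree_of_ne_zero cN0)
  apply hcyc
  intro n hn
  rw [hirr.coprime_iff_not_dvd]
  intro hdv
  rcases hirr.prime.dvd_or_dvd hdv with h | h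
  · obtain ⟨g, hg⟩ := h
    have h7 := congrArg (eval 0) hg
    rw [eval_X, eval_mul] at h7
    rcases mul_eq_zero.1 h7.symm with h8 | h8
    · apply c00
      rw [coeff_zero_eq_eval_zero, h8]
    · have h9 : X ∣ g := by
        rw [X_dvd_iff, coeff_zero_eq_eval_zero, h8]
      obtain ⟨g', rfl⟩ := h9
      have h10 : (X : k[X]) * (D * g') = X * 1 := by
        rw [mul_one]
        conv_rhs => rw [hg]
        ring
      have h11 := mul_left_cancel₀ X_ne_zero h10
      exact hirr.not_isUnit (IsUnit.of_mul_eq_one _ h11)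
  · have h7 := pow_eq_of_cyclo hirr h
    rw [leadingCoeff, hdeg', c0, cN, ← map_pow, ← map_pow] at h7
    have h8 := i0 h7
    have h9 := congrArg (Algebra.norm ℤ) h8
    rw [map_pow, map_pow, pow_mul, pow_mul] at h9
    exact k1 ((pow_left_inj₀ (sq_nonneg _) (sq_nonneg _) (by omega : n ≠ 0)).1 h9)

end nf

section nf

variable {k : Type} [Field k] [NumberField k] {J : Type} [Fintype J] (B : Module.Basis J ℤ (𝓞 k))
  {r : ℕ} {m n : Fin 1 → ℕ}

theorem Q_top (hm : 1 ≤ m 0) :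
    (polQ (aV (XX r m n)) (bV (XX r m n) 0) (dV (XX r m n) 0)).coeff (degQ r m n) ≠ 0 := by
  obtain ⟨v, e, he, hv⟩ := model_Q (r := r) (m := m) (n := n) hm (5 : ℤ)
  have hN : 1 ≤ degQ r m n := hm.trans degQ_le.1
  refine coeff_ne_of_target (p := 5) (by norm_num) (a := v) ?_
  rw [map_Q, hv, coeff_add, coeff_C_mul, coeff_X_pow, if_pos rfl, coeff_C, if_neg (by omega),
    add_zero, mul_one]
  rcases he with rfl | rfl
  · exact isCoprime_one_left
  · exact isCoprime_one_left.neg_left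

theorem model_W5 (hr : 1 ≤ r) : ∃ (v : Ix r m n → ℤ) (w : ℤ), IsCoprime w 5 ∧
    ((polW (aV (XX r m n)) (bV (XX r m n) 0) (dV (XX r m n) 0)).map (av v)).coeff 0 = 5 * w ∧
    IsCoprime (((polW (aV (XX r m n)) (bV (XX r m n) 0) (dV (XX r m n) 0)).map (av v)).coeff
      (3 * r)) 5 := by
  obtain ⟨v, hv⟩ := model_W (r := r) (m := m) (n := n) hr (C (5 : ℤ)) (by
    rw [natDegree_C]
    exact Nat.zero_le _)
  refine ⟨v, -27 * 6, ?_, ?_, ?_⟩
  · rw [Int.isCoprime_iff_gcd_eq_one]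
    norm_num
  · rw [map_W, hv]
    have e : (C 27 * X ^ (3 * r) - C 27 * (C (5 : ℤ) * (C (5 : ℤ) + 1 + C 3 * X ^ r)) : ℤ[X]) =
        C 27 * X ^ (3 * r) - C (27 * 30) - C 405 * X ^ r := by
      rw [show (C (27 * 30) : ℤ[X]) = C 27 * (C 5 * (C 5 + 1)) by
        rw [← C_1, ← C_add, ← C_mul, ← C_mul]; norm_num,
        show (C 405 : ℤ[X]) = C 27 * (C 5 * C 3) by rw [← C_mul, ← C_mul]; norm_num]
      ring
    rw [e, coeff_sub, coeff_sub, coeff_C_mul, coeff_X_pow, if_neg (by omega), coeff_C_zero,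
      coeff_C_mul, coeff_X_pow, if_neg (by omega)]
    norm_num
  · rw [map_W, hv]
    have e : (C 27 * X ^ (3 * r) - C 27 * (C (5 : ℤ) * (C (5 : ℤ) + 1 + C 3 * X ^ r)) : ℤ[X]) =
        C 27 * X ^ (3 * r) - C (27 * 30) - C 405 * X ^ r := by
      rw [show (C (27 * 30) : ℤ[X]) = C 27 * (C 5 * (C 5 + 1)) by
        rw [← C_1, ← C_add, ← C_mul, ← C_mul]; norm_num,
        show (C 405 : ℤ[X]) = C 27 * (C 5 * C 3) by rw [← C_mul, ← C_mul]; norm_num]
      ring
    rw [e, coeff_sub, coeff_sub, coeff_C_mul, coeff_X_pow, if_pos rfl, coeff_C, if_neg (by omega),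
      coeff_C_mul, coeff_X_pow, if_neg (by omega)]
    rw [Int.isCoprime_iff_gcd_eq_one]
    norm_num

/-- the conditions on the discriminant -/
theorem W_dens (hr : 2 ≤ r) (hm1 : 1 ≤ m 0) (hm : m 0 + degQ r m n ≤ 3 * r) :
    D0 {x : Ix r m n × J → ℤ | ¬ ((Irreducible (polW (aV (kv B x)) (bV (kv B x) 0)
        (dV (kv B x) 0))) ∧ NoSub 2 (polW (aV (kv B x)) (bV (kv B x) 0) (dV (kv B x) 0)) ∧
      NoSub 3 (polW (aV (kv B x)) (bV (kv B x) 0) (dV (kv B x) 0)))} := by
  have hdeg : (polW (aV (XX r m n)) (bV (XX r m n) 0) (dV (XX r m n) 0)).natDegree ≤ 3 * r :=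
    polW_deg degQ_le.1 degQ_le.2.1 degQ_le.2.2 hm le_rfl _ _ _
  obtain ⟨v, w, -, -, hv⟩ := model_W5 (m := m) (n := n) (by omega : 1 ≤ r)
  have hc := coeff_ne_of_target (p := 5) (by norm_num) (a := v) hv
  have h1 := irr_dens B (by omega) hdeg hc (dens_W1 B (by omega) hm)
  have h2 := noSub_dens B (e := 2) (by norm_num) hdeg hc fun h => by
    refine dens_W2 B (by omega) hm1 hm (by omega) ?_
    intro e he1 he2
    have hg : Nat.gcd e (3 * r - 1) = 1 := by
      interval_cases e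
      · exact Nat.gcd_one_left _
      · have h3 : Odd (3 * r - 1) := by
          obtain ⟨c, hc⟩ := h
          refine ⟨c - 1, ?_⟩
          omega
        exact (Nat.coprime_two_left).2 h3
    rw [hg]
    omega
  have h3 := noSub_dens B (e := 3) (by norm_num) hdeg hc fun h => by
    have hr3 : 3 * r / 3 = r := Nat.mul_div_cancel_left _ (by norm_num)
    rw [hr3]
    refine dens_W2 B (by omega) hm1 hm (by omega) ?_
    intro e he1 he2
    have hg : Nat.gcd e (3 * r - 1) ≤ 2 := by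
      interval_cases e
      · rw [Nat.gcd_one_left]
        norm_num
      · exact Nat.gcd_le_left _ (by norm_num)
      · have h3 : Nat.Coprime 3 (3 * r - 1) := by
          rw [Nat.Prime.coprime_iff_not_dvd Nat.prime_three]
          omega
        rw [Nat.Coprime] at h3
        rw [h3]
        norm_num
    calc r * Nat.gcd e (3 * r - 1) ≤ r * 2 := Nat.mul_le_mul_left _ hg
      _ < 3 * r - 1 := by omega
  intro ε hε
  refine (((h1.union h2).union h3) ε hε).mono ?_
  intro x hx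
  by_contra hcon
  simp only [Set.mem_union, not_or, Set.mem_setOf_eq, not_not, map_W] at hcon
  obtain ⟨⟨k1, k2⟩, k3⟩ := hcon
  exact hx ⟨k1.1, k2, k3⟩

/-- `q` is irreducible -/
theorem Q_dens (hm1 : 1 ≤ m 0) :
    D0 {x : Ix r m n × J → ℤ | ¬ Irreducible (polQ (aV (kv B x)) (bV (kv B x) 0)
        (dV (kv B x) 0))} := by
  have h1 := irr_dens B (hm1.trans degQ_le.1) (polQ_deg degQ_le.1 degQ_le.2.1 degQ_le.2.2 _ _ _)
    (Q_top hm1) (dens_Q B (r := r) (m := m) (n := n) hm1)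
  intro ε hε
  refine (h1 ε hε).mono ?_
  intro x hx
  simp only [Set.mem_setOf_eq, map_Q] at hx ⊢
  exact fun h => hx h.1

/-- `q` does not divide `p`, and `g ≠ 0` -/
theorem pq_dens (hm1 : 1 ≤ m 0) :
    D0 {x : Ix r m n × J → ℤ | ¬ (polA (dV (kv B x) 0) ≠ 0 ∧
      (Irreducible (polA (bV (kv B x) 0)) → Irreducible (polQ (aV (kv B x)) (bV (kv B x) 0)
        (dV (kv B x) 0)) → ¬ polQ (aV (kv B x)) (bV (kv B x) 0) (dV (kv B x) 0) ∣
          polA (bV (kv B x) 0)))} := by
  -- the polynomial `s₀ p₁ - s₁ p₀`, where `s = g³ + a g`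
  set PA := polA (aV (XX r m n)) with hPA
  set PP := polA (bV (XX r m n) 0) with hPP
  set PG := polA (dV (XX r m n) 0) with hPG
  set S := PG ^ 3 + PA * PG with hS
  set c := S.coeff 0 * PP.coeff 1 - S.coeff 1 * PP.coeff 0 with hc
  have mA : ∀ {R : Type} [CommRing R] (v : Ix r m n → R), PA.map (av v) = polA (aV v) := by
    intro R _ v
    rw [hPA, polA_map]
    simp only [aV, av_X]
    rfl
  have mP : ∀ {R : Type} [CommRing R] (v : Ix r m n → R), PP.map (av v) = polA (bV v 0) := by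
    intro R _ v
    rw [hPP, map_b]
  have mG : ∀ {R : Type} [CommRing R] (v : Ix r m n → R), PG.map (av v) = polA (dV v 0) := by
    intro R _ v
    rw [hPG, map_d]
  have mS : ∀ {R : Type} [CommRing R] (v : Ix r m n → R), S.map (av v) =
      polA (dV v 0) ^ 3 + polA (aV v) * polA (dV v 0) := by
    intro R _ v
    rw [hS, Polynomial.map_add, Polynomial.map_mul, Polynomial.map_pow, mA, mG]
  obtain ⟨v, ea, ep, eg⟩ := vecs (r := r) (m := m) (n := n) (0 : ℤ[X]) (X ^ 1) 1
    (by simp) ((natDegree_X_pow_le _).trans hm1) (by simp)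
  have hc0 : (C c : (MvPolynomial (Ix r m n) ℤ)[X]).coeff 0 ≠ 0 := by
    rw [coeff_C_zero]
    intro h0
    have h1 := congrArg (av v) h0
    rw [hc, map_sub, map_mul, map_mul, map_zero, ← coeff_map, ← coeff_map, ← coeff_map,
      ← coeff_map, mS, mP, ea, ep, eg] at h1
    simp at h1
  have hg0 : PG.coeff 0 ≠ 0 := by
    intro h0
    have h1 := congrArg (av v) h0
    rw [← coeff_map, mG, eg, map_zero] at h1
    simp at h1
  have h1 := dens_lead B hc0
  have h2 := dens_lead B hg0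
  intro ε hε
  refine ((h1.union h2) ε hε).mono ?_
  intro x hx
  by_contra hcon
  simp only [Set.mem_union, not_or] at hcon
  obtain ⟨k1, k2⟩ := hcon
  apply hx
  constructor
  · intro h0
    apply k2
    show (PG.map (av (kv B x))).coeff 0 = 0
    rw [mG, h0, coeff_zero]
  · intro ip iq hdv
    apply k1
    show ((C c : (MvPolynomial (Ix r m n) ℤ)[X]).map (av (kv B x))).coeff 0 = 0
    rw [map_C, coeff_C_zero, hc, map_sub, map_mul, map_mul, ← coeff_map, ← coeff_map, ← coeff_map,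
      ← coeff_map, mS, mP]
    obtain ⟨w, hw⟩ := (iq.associated_of_dvd ip hdv)
    obtain ⟨y, hy, ey⟩ := Polynomial.isUnit_iff.1 w.isUnit
    have e1 : polA (dV (kv B x) 0) ^ 3 + polA (aV (kv B x)) * polA (dV (kv B x) 0) =
        C (y - 1) * polQ (aV (kv B x)) (bV (kv B x) 0) (dV (kv B x) 0) := by
      have e2 : polA (bV (kv B x) 0) = polQ (aV (kv B x)) (bV (kv B x) 0) (dV (kv B x) 0) * C y := by
        rw [ey, hw]
      have e3 : polA (dV (kv B x) 0) ^ 3 + polA (aV (kv B x)) * polA (dV (kv B x) 0) =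
          polA (bV (kv B x) 0) - polQ (aV (kv B x)) (bV (kv B x) 0) (dV (kv B x) 0) := by
        unfold polQ
        ring
      rw [e3, C_sub, C_1]
      linear_combination e2
    have e2 : polA (bV (kv B x) 0) = C y * polQ (aV (kv B x)) (bV (kv B x) 0) (dV (kv B x) 0) := by
      rw [ey, ← hw]
      ring
    rw [e1, e2, coeff_C_mul, coeff_C_mul, coeff_C_mul, coeff_C_mul]
    ring

end nf

end Pool.Agent.Helper70K9.TN
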