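import Pool.Agent.Helper7K9.T3.Fam
import Pool.Agent.Helper70K9.TN.Sub

/-!
# The criterion, for compositions
-/

set_option autoImplicit false
set_option linter.all false

open Polynomial IsDedekindDomain WeierstrassCurve WeierstrassCurve.Affine
open scoped Classical

namespace Pool.Agent.Helper70K9.TN

open Pool.Agent.Helper7K9.T3
open Pool.Agent.TH115.GD (pl Pt act incl rs ak Sep act_act act_inj splits_of_sep splits_dvd IsTower
  desc_poly)

section ctx

variable {k k' K F : Type} [Field k] [Field k'] [Algebra k k'] [Field K] [Algebra k[X] K]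
    [Field F] [Algebra k'[X] F] [IsFractionRing k'[X] F] [Algebra K F]
    (hT : IsTower k k' K F) (h3 : (3 : k) ≠ 0) {a b : k[X]} (hb : b ≠ 0)
    (hd : a ^ 3 - 27 * b ≠ 0)
    (hsep : ∀ π : k[X], Irreducible π → π ∣ b * (a ^ 3 - 27 * b) → π.Separable)

include hT h3 hb hd hsep in
/-- The criterion. -/
theorem tate_of_conds (hNb : NoCubic k k' ⊤ b)
    (hN : ∀ z : k', z ^ 2 + z + 1 = 0 →
      NoCubic k k' (fixZ k z) (a ^ 3 - 27 * b) ∧ EnoughDual3 K F z a b)
    (hpts : EnoughPoints3 K F a b) :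
    TateAt (F := F) 3 k' (crv3 (algebraMap k[X] K a) (algebraMap k[X] K b)) := by
  obtain ⟨z, hz⟩ := exists_z hT h3
  exact main3 hT h3 hb hd hsep hz hNb (hN z hz).1 hpts (hN z hz).2

include hT h3 hb hd hsep in
/-- Surfaces with points for all irreducible factors of `b` but one. -/
theorem family2 (hNb : NoCubic k k' ⊤ b)
    (hN : ∀ z : k', z ^ 2 + z + 1 = 0 →
      NoCubic k k' (fixZ k z) (a ^ 3 - 27 * b) ∧ EnoughDual3 K F z a b)
    {ι : Type*} [Fintype ι]
    {u : k} {p₀ : k[X]} {p : ι → k[X]} (hp₀ : Irreducible p₀) (hp : ∀ i, Irreducible (p i))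
    (n0 : ∀ i, ¬ p₀ ∣ p i) (n1 : ∀ i j, i ≠ j → ¬ p i ∣ p j)
    (hbe : b = C u * (p₀ * ∏ i, p i))
    (P : ι → Pt (crv3 (algebraMap k[X] K a) (algebraMap k[X] K b)) K)
    (hP : ∀ i, ∃ c : F, c ≠ 0 ∧ Pool.Agent.Helper7K9.T3.em K F (p i) = c ^ 3 * algebraMap K F (dT (algebraMap k[X] K b) (P i))) :
    TateAt (F := F) 3 k' (crv3 (algebraMap k[X] K a) (algebraMap k[X] K b)) ∧
      LinearIndependent ℤ P := by
  haveI := hT.sep
  haveI := hT.fracK
  haveI : IsSepClosed k' := IsSepClosure.sep_closed k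
  haveI : IsGalois k k' := inferInstance
  have hKF := hT.map
  have injk := (algebraMap k k').injective
  have hu : u ≠ 0 := by
    rintro rfl
    rw [C_0, zero_mul] at hbe
    exact hb hbe
  have hCu : IsUnit (C u : k[X]) := isUnit_C.2 (isUnit_iff_ne_zero.2 hu)
  have hprod0 : ∏ i, p i ≠ 0 := Finset.prod_ne_zero_iff.2 fun i _ => (hp i).ne_zero
  have emne : ∀ q : k[X], q ≠ 0 → Pool.Agent.Helper7K9.T3.em K F q ≠ 0 := by
    intro q hq
    unfold Pool.Agent.Helper7K9.T3.em
    simpa using hq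
  have emmul : ∀ q r : k[X], Pool.Agent.Helper7K9.T3.em K F (q * r) = Pool.Agent.Helper7K9.T3.em K F q * Pool.Agent.Helper7K9.T3.em K F r := by
    intro q r; unfold Pool.Agent.Helper7K9.T3.em; rw [map_mul, map_mul]
  have hRp : ∀ i, Rep K (algebraMap k[X] K a) (algebraMap k[X] K b) (Pool.Agent.Helper7K9.T3.em K F (p i)) := by
    intro i
    obtain ⟨c, hc, e⟩ := hP i
    exact ⟨P i, c, hc, e⟩
  have emprod : Pool.Agent.Helper7K9.T3.em K F (∏ i, p i) = ∏ i, Pool.Agent.Helper7K9.T3.em K F (p i) := by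
    unfold Pool.Agent.Helper7K9.T3.em
    rw [map_prod, map_prod]
  have hR0 : Rep K (algebraMap k[X] K a) (algebraMap k[X] K b) (Pool.Agent.Helper7K9.T3.em K F p₀) := by
    obtain ⟨r, hr, er⟩ := const_cube (F := F) hT h3 u hu
    have q1 := Rep.base (F := F) hT h3 hb hd
    have q2 := Rep.pow hT h3 hb hd (Rep.prod hT h3 hb hd Finset.univ (fun i => Pool.Agent.Helper7K9.T3.em K F (p i))
      (fun i _ => hRp i)) 2
    obtain ⟨Q, c, hc, e⟩ := Rep.mul hT h3 hb hd q1 q2
    rw [← emprod] at e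
    have hPr := emne _ hprod0
    have hbF : Pool.Agent.Helper7K9.T3.em K F b = r ^ 3 * (Pool.Agent.Helper7K9.T3.em K F p₀ * Pool.Agent.Helper7K9.T3.em K F (∏ i, p i)) := by
      rw [hbe, emmul, emmul]
      congr 1
    refine ⟨Q, c / (r * Pool.Agent.Helper7K9.T3.em K F (∏ i, p i)), div_ne_zero hc (mul_ne_zero hr hPr), ?_⟩
    rw [div_pow, div_mul_eq_mul_div, ← e, hbF]
    field_simp
  constructor
  · refine tate_of_conds hT h3 hb hd hsep hNb hN (enough_of_primes hT h3 hb hd fun κ hκ h => ?_)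
    rw [hbe, hCu.dvd_mul_left] at h
    rcases hκ.prime.dvd_or_dvd h with h | h
    · exact Rep.assoc hT h3 hb hd (hκ.associated_of_dvd hp₀ h).symm hR0
    · obtain ⟨i, -, hi⟩ := (hκ.prime.dvd_finset_prod_iff _).1 h
      exact Rep.assoc hT h3 hb hd (hκ.associated_of_dvd (hp i) hi).symm (hRp i)
  · -- linear independence
    have p0b : p₀ ∣ b := ⟨C u * ∏ i, p i, by rw [hbe]; ring⟩
    have pib : ∀ i, p i ∣ b := fun i => by
      rw [hbe]
      exact ((Finset.dvd_prod_of_mem p (Finset.mem_univ i)).mul_left _).mul_left _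
    have hs0 : p₀.Separable := hsep _ hp₀ (p0b.mul_right _)
    have hsi : ∀ i, (p i).Separable := fun i => hsep _ (hp i) ((pib i).mul_right _)
    obtain ⟨θ₀, hθ₀⟩ := exists_root_irr (k' := k') hp₀ hs0
    choose θ hθ using fun i => exists_root_irr (k' := k') (hp i) (hsi i)
    have nd0 : ¬ p₀ ^ (1 + 1) ∣ b := by
      intro h
      rw [hbe, hCu.dvd_mul_left, pow_succ, pow_one, mul_dvd_mul_iff_left hp₀.ne_zero,
        hp₀.prime.dvd_finset_prod_iff] at h
      obtain ⟨i, -, hi⟩ := h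
      exact n0 i hi
    have ndi : ∀ i, ¬ p i ^ (1 + 1) ∣ b := by
      intro i h
      have e1 : p₀ * ∏ j, p j = p i * (p₀ * ∏ j ∈ Finset.univ.erase i, p j) := by
        rw [← Finset.mul_prod_erase Finset.univ p (Finset.mem_univ i)]
        ring
      rw [hbe, hCu.dvd_mul_left, pow_succ, pow_one, e1, mul_dvd_mul_iff_left (hp i).ne_zero] at h
      rcases (hp i).prime.dvd_or_dvd h with h5 | h5
      · exact n0 i ((hp i).associated_of_dvd hp₀ h5).symm.dvd
      · obtain ⟨j, hj, hj'⟩ := ((hp i).prime.dvd_finset_prod_iff _).1 h5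
        exact n1 i j (Finset.ne_of_mem_erase hj).symm hj'
    have m0 : rootMultiplicity θ₀ (b.map (algebraMap k k')) = 1 :=
      mult_factor hb hp₀ hs0 (by rw [pow_one]; exact p0b) nd0 hθ₀
    have mi : ∀ i, rootMultiplicity (θ i) (b.map (algebraMap k k')) = 1 := fun i =>
      mult_factor hb (hp i) (hsi i) (by rw [pow_one]; exact pib i) (ndi i) (hθ i)
    have hlam : ∀ (η : k') (j : ι), lam k' F a b η (P j) =
        (rootMultiplicity η ((p j).map (algebraMap k k')) : ZMod 3) := by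
      intro η j
      obtain ⟨c, hc, e⟩ := hP j
      have hne : algebraMap K F (dT (algebraMap k[X] K b) (P j)) ≠ 0 := by
        intro h0
        rw [h0, mul_zero] at e
        exact emne _ (hp j).ne_zero e
      unfold lam
      rw [← om_cube _ hc hne, ← e]
      exact om_root hKF (p j) (hp j).ne_zero η
    have hself : ∀ i, rootMultiplicity (θ i) ((p i).map (algebraMap k k')) = 1 := fun i =>
      mult_factor (hp i).ne_zero (hp i) (hsi i) (by rw [pow_one]) (by
        rw [pow_succ, pow_one]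
        intro h
        have h2 : p i * p i ∣ p i * 1 := by rw [mul_one]; exact h
        exact (hp i).not_isUnit (isUnit_of_dvd_one
          ((mul_dvd_mul_iff_left (hp i).ne_zero).1 h2))) (hθ i)
    refine indep (F := F) hT h3 hb hd ⟨θ₀, by rw [m0]; decide⟩ ?_ P θ θ₀ (fun i j => ?_)
      (fun j => ?_) (fun i => by rw [m0, mi])
    · obtain ⟨z, hz⟩ := exists_z hT h3
      exact (hN z hz).1.1
    · rw [hlam]
      by_cases hij : i = j
      · subst hij
        rw [if_pos rfl, hself]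
        rfl
      · rw [if_neg hij, rootMultiplicity_eq_zero]
        · rfl
        · intro h
          exact n1 i j hij (dvd_of_root (hp i) (hθ i) h)
    · rw [hlam, rootMultiplicity_eq_zero]
      · rfl
      · intro h
        exact n0 j (dvd_of_root hp₀ hθ₀ h)

end ctx

end Pool.Agent.Helper70K9.TN
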