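import Pool.Agent.Helper7K9.T3.Stm

/-!
# The Tate conjecture at 3 for a surface and its covers: the definition used in the statement
-/

set_option autoImplicit false
set_option linter.all false

open Polynomial WeierstrassCurve WeierstrassCurve.Affine

namespace Pool.Agent.Helper70K9.TN

open Pool.Agent.Helper7K9.T3

/-- The Tate conjecture at 3 for the surfaces `y² + a(h(t)) x y + b(h(t)) y = x³` for all the
polynomials `h` of degree prime to three, and odd if `k` does not contain the primitive cube roots of
unity, such that `b(h(t))` and `a(h(t))³ - 27 b(h(t))` are irreducible; and for all `h = tᴹ`, `M` prime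
to six. -/
def TateCovers3 (k' K F : Type) {k : Type} [Field k] [Field k'] [Field K] [Algebra k[X] K] [Field F]
    [Algebra k'[X] F] [IsFractionRing k'[X] F] [Algebra K F] (a b : k[X]) : Prop :=
  (∀ h : k[X], ¬ 3 ∣ h.natDegree → (Odd h.natDegree ∨ ∃ x : k, x ^ 2 + x + 1 = 0) →
    Irreducible (b.comp h) → Irreducible ((a ^ 3 - 27 * b).comp h) →
    TateAt (F := F) 3 k' (crv3 (algebraMap k[X] K (a.comp h)) (algebraMap k[X] K (b.comp h)))) ∧
  ∀ M : ℕ, Nat.Coprime M 6 →
    TateAt (F := F) 3 k' (crv3 (algebraMap k[X] K (a.comp (X ^ M)))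
      (algebraMap k[X] K (b.comp (X ^ M))))

end Pool.Agent.Helper70K9.TN
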