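import Pool.Agent.Helper70K9.TN.NoT
import Pool.Agent.Helper70K9.TN.Comp
import Pool.Agent.Helper70K9.TN.Stm

/-!
# Almost all surfaces `y ^ 2 + a x y + b y = x ^ 3` and their covers
-/

set_option autoImplicit false
set_option linter.all false

namespace Pool.Agent.Helper70K9.TN

open Polynomial NumberField Pool.Agent.R939.EI Pool.Agent.R939.HI Pool.Agent.W275.UB
open Pool.Agent.Helper7K9.T3 Pool.Agent.R939.KM
open Pool.Agent.TH115.GD (IsTower)

section main

variable {k k' K F : Type} [Field k] [Field k'] [Algebra k k'] [Field K] [Algebra k[X] K]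
    [Field F] [Algebra k'[X] F] [IsFractionRing k'[X] F] [Algebra K F]

/-- the criterion for one irreducible factor -/
theorem covers_of [CharZero k] (hT : IsTower k k' K F) {a b : k[X]} (hb : Irreducible b)
    (hb3 : NoSub 3 b) (hD : Irreducible (a ^ 3 - 27 * b)) (hD2 : NoSub 2 (a ^ 3 - 27 * b))
    (hD3 : NoSub 3 (a ^ 3 - 27 * b))
    (hbp : ∀ ℓ : ℕ, ℓ.Prime → ℓ ≠ 2 → NoPowerRoot b ℓ)
    (hDp : ∀ ℓ : ℕ, ℓ.Prime → ℓ ≠ 2 → NoPowerRoot (a ^ 3 - 27 * b) ℓ) :
    TateCovers3 k' K F a b := by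
  have key : ∀ h : k[X], ¬ 3 ∣ h.natDegree → (Odd h.natDegree ∨ ∃ x : k, x ^ 2 + x + 1 = 0) →
      Irreducible (b.comp h) → Irreducible ((a ^ 3 - 27 * b).comp h) →
      TateAt (F := F) 3 k' (crv3 (algebraMap k[X] K (a.comp h)) (algebraMap k[X] K (b.comp h))) := by
    intro h hh hodd hbh hDh
    exact (tate_comp (ι := Empty) hT hb.ne_zero hD hD2 hD3 (p₀ := b) (p := fun i => i.elim)
      (by simp) hb (fun i => i.elim) (fun i => i.elim) (fun i => i.elim) hb dvd_rfl hb3 hbh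
      (fun i => i.elim) hDh hh hodd (fun i => i.elim) (fun i => i.elim)).1
  refine ⟨key, ?_⟩
  intro M hM
  have hM2 : Nat.Coprime M 2 := Nat.Coprime.coprime_dvd_right (by norm_num) hM
  have hM3 : Nat.Coprime M 3 := Nat.Coprime.coprime_dvd_right (by norm_num) hM
  have hodd : Odd M := Nat.coprime_two_right.1 hM2
  have h2 : ∀ ℓ : ℕ, ℓ.Prime → ℓ ∣ M → ℓ ≠ 2 := by
    rintro ℓ hℓ hℓM rfl
    exact (Nat.not_even_iff_odd.2 hodd) (even_iff_two_dvd.2 hℓM)
  refine key (X ^ M) ?_ ?_ ?_ ?_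
  · rw [natDegree_X_pow]
    intro h3
    exact Nat.not_coprime_of_dvd_of_dvd (by norm_num) h3 (dvd_refl 3) hM3
  · rw [natDegree_X_pow]
    exact Or.inl hodd
  · exact irr_pow hb hodd fun ℓ hℓ hℓM => hbp ℓ hℓ (h2 ℓ hℓ hℓM) b hb dvd_rfl
  · exact irr_pow hD hodd fun ℓ hℓ hℓM => hDp ℓ hℓ (h2 ℓ hℓ hℓM) _ hD dvd_rfl

variable [NumberField k] {J : Type} [Fintype J] (B : Module.Basis J ℤ (𝓞 k)) {r u : ℕ}
  {m : Fin 1 → ℕ} {n : Fin u → ℕ}

/-- the top coefficient of the discriminant; the case where `b` dominates -/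
theorem T_top_b {m : Fin 1 → ℕ} (hm1 : 1 ≤ m 0) (hr : 3 * r ≤ m 0) :
    (polT (aV (XX r m n)) (bV (XX r m n))).coeff (m 0) ≠ 0 := by
  refine coeff_ne_of_target (p := 5) (by norm_num) (a := mk (fun _ => 0)
    (fun i => Pi.single (Fin.last (m i)) 1 + Pi.single 0 (5 : ℤ)) (fun _ _ => 0)) ?_
  rw [mapT_mk]
  have e : polT (fun _ : Fin (r + 1) => (0 : ℤ))
      (fun i : Fin 1 => (Pi.single (Fin.last (m i)) 1 + Pi.single 0 (5 : ℤ) :
        Fin (m i + 1) → ℤ)) = C (-27) * X ^ (m 0) + C (-27 * (5 : ℤ)) := by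
    unfold polT
    rw [polA_zero, polP_fin1, polA_add, polA_single, polA_single, Fin.val_last, Fin.val_zero,
      pow_zero, mul_one, C_1, one_mul, C27, C_mul, C_neg]
    ring
  rw [e, coeff_add, coeff_C_mul, coeff_X_pow, if_pos rfl, coeff_C, if_neg (by omega), add_zero,
    mul_one]
  exact (cop27 (by norm_num) (by norm_num)).neg_left

include B in
/-- The conditions on the discriminant; the case where `b` dominates. -/
theorem disc_dens_b (hm4 : 4 ≤ m 0) (hr : 3 * r ≤ m 0) :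
    D0 {x : Ix r m n × J → ℤ | ¬ ((Irreducible (polT (aV (kv B x)) (bV (kv B x))) ∧
      (polT (aV (kv B x)) (bV (kv B x))).natDegree = m 0) ∧
      NoSub 2 (polT (aV (kv B x)) (bV (kv B x))) ∧
      NoSub 3 (polT (aV (kv B x)) (bV (kv B x))))} := by
  have hdeg : (polT (aV (XX r m n)) (bV (XX r m n))).natDegree ≤ m 0 :=
    polT_deg hr (by simp) _ _
  have hc := T_top_b (n := n) (by omega : 1 ≤ m 0) hr
  have h1 := irr_dens B (by omega) hdeg hc (dens_T1b B (by omega) hr)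
  have h2 := noSub_dens B (e := 2) (by norm_num) hdeg hc fun h => by
    refine dens_T2b B (by omega) hr (by omega) ?_
    intro e he1 he2
    have hg : Nat.gcd e (m 0 - 1) = 1 := by
      interval_cases e
      · exact Nat.gcd_one_left _
      · have h3 : Odd (m 0 - 1) := by
          obtain ⟨c, hc⟩ := h
          refine ⟨c - 1, ?_⟩
          omega
        exact (Nat.coprime_two_left).2 h3
    rw [hg]
    omega
  have h3 := noSub_dens B (e := 3) (by norm_num) hdeg hc fun h => by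
    obtain ⟨c, hc⟩ := h
    have hr3 : m 0 / 3 = c := by omega
    rw [hr3]
    refine dens_T2b B (by omega) hr (by omega) ?_
    intro e he1 he2
    have hg : Nat.gcd e (m 0 - 1) ≤ 2 := by
      interval_cases e
      · rw [Nat.gcd_one_left]
        norm_num
      · exact Nat.gcd_le_left _ (by norm_num)
      · have h3 : Nat.Coprime 3 (m 0 - 1) := by
          rw [Nat.Prime.coprime_iff_not_dvd Nat.prime_three]
          omega
        rw [Nat.Coprime] at h3
        rw [h3]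
        norm_num
    calc c * Nat.gcd e (m 0 - 1) ≤ c * 2 := Nat.mul_le_mul_left _ hg
      _ < m 0 - 1 := by omega
  intro ε hε
  refine (((h1.union h2).union h3) ε hε).mono ?_
  intro x hx
  by_contra hcon
  simp only [Set.mem_union, not_or, Set.mem_setOf_eq, not_not, map_T] at hcon
  obtain ⟨⟨k1, k2⟩, k3⟩ := hcon
  exact hx ⟨k1, k2, k3⟩

/-- **Almost all surfaces and all their covers**, in terms of the coordinates. -/
theorem main_covers (hT : IsTower k k' K F) (hm1 : 1 ≤ m 0) (hm3 : m 0 ≠ 3)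
    (hN : 4 ≤ max (3 * r) (m 0)) :
    D0 {x : Ix r m n × J → ℤ | ¬ TateCovers3 k' K F (polA (aV (kv B x)))
      (polA (bV (kv B x) 0))} := by
  classical
  have h1 : D0 {x : Ix r m n × J → ℤ | ¬ (Irreducible (polT (aV (kv B x)) (bV (kv B x))) ∧
      NoSub 2 (polT (aV (kv B x)) (bV (kv B x))) ∧
      NoSub 3 (polT (aV (kv B x)) (bV (kv B x))))} := by
    rcases Nat.le_total (3 * r) (m 0) with h | h
    · have h0 := disc_dens_b (n := n) B (by omega : 4 ≤ m 0) h
      intro ε hε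
      refine (h0 ε hε).mono ?_
      intro x hx hcon
      exact hx ⟨hcon.1.1, hcon.2.1, hcon.2.2⟩
    · have h0 := disc_dens (n := n) B (by omega : 2 ≤ r) (m := m)
        (fun i => by rw [Subsingleton.elim i 0]; exact hm1) (by simpa using h) 0
      intro ε hε
      refine (h0 ε hε).mono ?_
      intro x hx hcon
      exact hx ⟨hcon.1.1, hcon.2.1, hcon.2.2⟩
  have h2 := b_dens (n := n) (r := r) B (0 : Fin 1) hm1
  have h3 := b_dens3 (n := n) (r := r) B (0 : Fin 1) hm1 hm3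
  have h4 := dens_noT (n := n) (r := r) B hm1 (by
    rintro rfl
    omega)
  have h5 : D0 {x : Ix r m n × J → ℤ |
      ∃ ℓ : ℕ, ℓ.Prime ∧ ℓ ≠ 2 ∧ ¬ NoPowerRoot (polA (bV (kv B x) 0)) ℓ} :=
    Pool.Agent.R939.PP.dens_nopow' B (fun j => (Sum.inl (Sum.inr ⟨0, j⟩) : Ix r m n)) (by
      intro j j' h
      have h5 := Sum.inr_injective (Sum.inl_injective h)
      exact eq_of_heq (Sigma.mk.inj_iff.1 h5).2) hm1
  intro ε hε
  refine (((((h1.union h2).union h3).union h4).union h5) ε hε).mono ?_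
  intro x hx
  by_contra hcon
  apply hx
  simp only [Set.mem_union, not_or] at hcon
  obtain ⟨⟨⟨⟨c1, c2⟩, c3⟩, c4⟩, c5⟩ := hcon
  obtain ⟨hD, hD2, hD3⟩ := not_not.1 c1
  obtain ⟨hb, -⟩ := not_not.1 c2
  have hb3 := not_not.1 c3
  have e : polT (aV (kv B x)) (bV (kv B x)) =
      polA (aV (kv B x)) ^ 3 - 27 * polA (bV (kv B x) 0) := by
    unfold polT
    rw [polP_fin1]
  have hDp : ∀ ℓ : ℕ, ℓ.Prime → ℓ ≠ 2 → NoPowerRoot (polT (aV (kv B x)) (bV (kv B x))) ℓ := by
    intro ℓ hℓ hℓ2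
    by_contra h
    exact c4 ⟨hD, ℓ, hℓ, hℓ2, h⟩
  have hbp : ∀ ℓ : ℕ, ℓ.Prime → ℓ ≠ 2 → NoPowerRoot (polA (bV (kv B x) 0)) ℓ := by
    intro ℓ hℓ hℓ2
    by_contra h
    exact c5 ⟨ℓ, hℓ, hℓ2, h⟩
  rw [e] at hD hD2 hD3 hDp
  exact covers_of hT hb hb3 hD hD2 hD3 hbp hDp

end main

end Pool.Agent.Helper70K9.TN
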