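import Pool.Agent.Helper70K9.TN.Rk2

/-!
# Almost all surfaces of the family with a section of infinite order, and their covers
-/

set_option autoImplicit false
set_option linter.all false

namespace Pool.Agent.Helper70K9.TN

open Polynomial NumberField Pool.Agent.R939.EI Pool.Agent.R939.HI Pool.Agent.W275.UB
open Pool.Agent.Helper7K9.T3 Pool.Agent.R939.KM
open Pool.Agent.TH115.GD (IsTower Pt)
open WeierstrassCurve.Affine
open scoped Classical

section crit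

variable {k k' K F : Type} [Field k] [Field k'] [Algebra k k'] [Field K] [Algebra k[X] K]
    [Field F] [Algebra k'[X] F] [IsFractionRing k'[X] F] [Algebra K F]

/-- the criterion for the family -/
theorem rank_of [CharZero k] (hT : IsTower k k' K F) {a p g h : k[X]} (hg : g ≠ 0)
    (hp : Irreducible p) (hq : Irreducible (p - g ^ 3 - a * g))
    (hqp : ¬ (p - g ^ 3 - a * g) ∣ p) (hp3 : NoSub 3 p)
    (hD : Irreducible (a ^ 3 - 27 * (p * (p - g ^ 3 - a * g))))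
    (hD2 : NoSub 2 (a ^ 3 - 27 * (p * (p - g ^ 3 - a * g))))
    (hD3 : NoSub 3 (a ^ 3 - 27 * (p * (p - g ^ 3 - a * g))))
    (hh : ¬ 3 ∣ h.natDegree) (hodd : Odd h.natDegree ∨ ∃ x : k, x ^ 2 + x + 1 = 0)
    (hph : Irreducible (p.comp h)) (hqh : Irreducible ((p - g ^ 3 - a * g).comp h))
    (hDh : Irreducible ((a ^ 3 - 27 * (p * (p - g ^ 3 - a * g))).comp h)) :
    RankAt3 k' K F a p g h := by
  set q := p - g ^ 3 - a * g with hqe
  have h3 : (3 : k) ≠ 0 := by norm_num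
  have hb : p * q ≠ 0 := mul_ne_zero hp.ne_zero hq.ne_zero
  have hb' : (p * q).comp h ≠ 0 := by
    rw [mul_comp]
    exact mul_ne_zero hph.ne_zero hqh.ne_zero
  have hd' : (a.comp h) ^ 3 - 27 * (p * q).comp h ≠ 0 := by
    rw [disc_comp]
    exact hDh.ne_zero
  have hh0 : h.natDegree ≠ 0 := by
    intro h0
    rw [h0] at hh
    exact hh (dvd_zero 3)
  have hgh : g.comp h ≠ 0 := by
    intro h0
    rw [comp_eq_zero_iff] at h0
    rcases h0 with h0 | ⟨-, h0⟩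
    · exact hg h0
    · apply hh0
      rw [h0, natDegree_C]
  have heq : (p.comp h * g.comp h ^ 3) ^ 2 + a.comp h * (p.comp h * g.comp h) *
      (p.comp h * g.comp h ^ 3) + (p * q).comp h * (p.comp h * g.comp h ^ 3) =
      (p.comp h * g.comp h) ^ 3 := by
    rw [hqe, mul_comp, sub_comp, sub_comp, mul_comp, pow_comp]
    ring
  obtain ⟨P, ⟨hn, hP⟩, hc⟩ := point_of (F := F) hT h3 hb' hd' (x := p.comp h * g.comp h)
    (y := p.comp h * g.comp h ^ 3) (p := p.comp h) (g := g.comp h) heq rfl hph.ne_zero hgh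
  obtain ⟨t, li⟩ := tate_comp (ι := Unit) (a := a) (b := p * q) (h := h) hT hb hD hD2 hD3
    (p₀ := q) (p := fun _ => p) (by simp [mul_comm]) hq (fun _ => hp) (fun _ => hqp)
    (fun i j hij => absurd (Subsingleton.elim i j) hij) hp (dvd_mul_right p q) hp3 hqh
    (fun _ => hph) hDh hh hodd (fun _ => P) (fun _ => hc)
  have e1 : (p * g).comp h = p.comp h * g.comp h := mul_comp _ _ _
  have e2 : (p * g ^ 3).comp h = p.comp h * g.comp h ^ 3 := by rw [mul_comp, pow_comp]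
  refine ⟨t, P, ?_, fun n hn0 h0 => hn0 ?_⟩
  · rw [e1, e2]
    exact ⟨hn, hP⟩
  · rw [Fintype.linearIndependent_iff] at li
    have := li (fun _ => (n : ℤ)) (by
      rw [Finset.univ_unique, Finset.sum_singleton, natCast_zsmul]
      exact h0) ()
    exact_mod_cast this

/-- all covers -/
theorem rank_covers_of [NumberField k] (hT : IsTower k k' K F) {a p g : k[X]} (hg : g ≠ 0)
    (hp : Irreducible p) (hq : Irreducible (p - g ^ 3 - a * g))
    (hqp : ¬ (p - g ^ 3 - a * g) ∣ p) (hp3 : NoSub 3 p)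
    (hD : Irreducible (a ^ 3 - 27 * (p * (p - g ^ 3 - a * g))))
    (hD2 : NoSub 2 (a ^ 3 - 27 * (p * (p - g ^ 3 - a * g))))
    (hD3 : NoSub 3 (a ^ 3 - 27 * (p * (p - g ^ 3 - a * g))))
    (cp : ∀ n : ℕ, 0 < n → IsCoprime p (X * (X ^ n - 1)))
    (cq : ∀ n : ℕ, 0 < n → IsCoprime (p - g ^ 3 - a * g) (X * (X ^ n - 1)))
    (cD : ∀ n : ℕ, 0 < n → IsCoprime (a ^ 3 - 27 * (p * (p - g ^ 3 - a * g)))
      (X * (X ^ n - 1))) :
    RankCovers3 k' K F a p g := by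
  refine ⟨fun h hh hodd hph hqh hDh =>
    rank_of hT hg hp hq hqp hp3 hD hD2 hD3 hh hodd hph hqh hDh, ?_⟩
  obtain ⟨N1, h1, h1'⟩ := no_power_all hp.ne_zero cp
  obtain ⟨N2, h2, h2'⟩ := no_power_all hq.ne_zero cq
  obtain ⟨N3, h3, h3'⟩ := no_power_all hD.ne_zero cD
  refine ⟨6 * (N1 * (N2 * N3)), by positivity, fun M hM => ?_⟩
  have hM6 : Nat.Coprime M 6 := hM.coprime_mul_right_right
  have hM' : Nat.Coprime M (N1 * (N2 * N3)) := hM.coprime_mul_left_right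
  have hMN1 : Nat.Coprime M N1 := hM'.coprime_mul_right_right
  have hMN2 : Nat.Coprime M N2 := hM'.coprime_mul_left_right.coprime_mul_right_right
  have hMN3 : Nat.Coprime M N3 := hM'.coprime_mul_left_right.coprime_mul_left_right
  have hM2 : Nat.Coprime M 2 := Nat.Coprime.coprime_dvd_right (by norm_num) hM6
  have hM3 : Nat.Coprime M 3 := Nat.Coprime.coprime_dvd_right (by norm_num) hM6
  have hodd : Odd M := Nat.coprime_two_right.1 hM2
  have key : ∀ N : ℕ, Nat.Coprime M N → ∀ ℓ : ℕ, ℓ.Prime → ℓ ∣ M → ¬ ℓ ∣ N := by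
    intro N hN ℓ hℓ hℓM hℓN
    exact Nat.not_coprime_of_dvd_of_dvd hℓ.one_lt hℓM hℓN hN
  refine rank_of hT hg hp hq hqp hp3 hD hD2 hD3 (h := X ^ M) ?_ ?_ ?_ ?_ ?_
  · rw [natDegree_X_pow]
    intro h3
    exact Nat.not_coprime_of_dvd_of_dvd (by norm_num) h3 (dvd_refl 3) hM3
  · rw [natDegree_X_pow]
    exact Or.inl hodd
  · exact irr_pow hp hodd fun ℓ hℓ hℓM => h1' ℓ hℓ (key N1 hMN1 ℓ hℓ hℓM) p hp dvd_rfl
  · exact irr_pow hq hodd fun ℓ hℓ hℓM => h2' ℓ hℓ (key N2 hMN2 ℓ hℓ hℓM) _ hq dvd_rfl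
  · exact irr_pow hD hodd fun ℓ hℓ hℓM => h3' ℓ hℓ (key N3 hMN3 ℓ hℓ hℓM) _ hD dvd_rfl

end crit

section main

variable {k k' K F : Type} [Field k] [Field k'] [Algebra k k'] [Field K] [Algebra k[X] K]
    [Field F] [Algebra k'[X] F] [IsFractionRing k'[X] F] [Algebra K F]
    [NumberField k] {J : Type} [Fintype J] (B : Module.Basis J ℤ (𝓞 k)) {r : ℕ}
    {m n : Fin 1 → ℕ}

/-- **Almost all members and all their covers**, in terms of the coordinates. -/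
theorem main_rank (hT : IsTower k k' K F) (hr : 2 ≤ r) (hm1 : 1 ≤ m 0) (hm3 : m 0 ≠ 3)
    (hm : m 0 + degQ r m n ≤ 3 * r) :
    D0 {x : Ix r m n × J → ℤ | ¬ RankCovers3 k' K F (polA (aV (kv B x)))
      (polA (bV (kv B x) 0)) (polA (dV (kv B x) 0))} := by
  classical
  have h1 := W_dens (m := m) (n := n) B hr hm1 hm
  have h2 := Q_dens (r := r) (m := m) (n := n) B hm1
  have h3 := pq_dens (r := r) (m := m) (n := n) B hm1
  have h4 := b_dens (n := n) (r := r) B (0 : Fin 1) hm1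
  have h5 := b_dens3 (n := n) (r := r) B (0 : Fin 1) hm1 hm3
  have h6 := cop_dens B (P := polA (bV (XX r m n) 0)) (polA_natDegree _) (by
    obtain ⟨v, ea, ep, eg⟩ := vecs (r := r) (m := m) (n := n) (0 : ℤ[X]) (X ^ (m 0) + C 5) 0
      (by simp) ((natDegree_add_le _ _).trans (max_le (natDegree_X_pow_le _)
        (by rw [natDegree_C]; exact Nat.zero_le _))) (by simp)
    refine ⟨v, 1, isCoprime_one_left, ?_, ?_⟩
    · rw [map_b, ep, coeff_add, coeff_X_pow, if_neg (by omega), coeff_C_zero]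
      norm_num
    · rw [map_b, ep, coeff_add, coeff_X_pow, if_pos rfl, coeff_C, if_neg (by omega), add_zero]
      exact isCoprime_one_left)
  have h7 := cop_dens B (polQ_deg degQ_le.1 degQ_le.2.1 degQ_le.2.2 (aV (XX r m n))
    (bV (XX r m n) 0) (dV (XX r m n) 0)) (by
    obtain ⟨v, e, he, hv⟩ := model_Q (r := r) (m := m) (n := n) hm1 (5 : ℤ)
    have hN : 1 ≤ degQ r m n := hm1.trans degQ_le.1
    refine ⟨v, 1, isCoprime_one_left, ?_, ?_⟩
    · rw [map_Q, hv, coeff_add, coeff_C_mul, coeff_X_pow, if_neg (by omega), coeff_C_zero]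
      ring
    · rw [map_Q, hv, coeff_add, coeff_C_mul, coeff_X_pow, if_pos rfl, coeff_C, if_neg (by omega),
        add_zero, mul_one]
      rcases he with rfl | rfl
      · exact isCoprime_one_left
      · exact isCoprime_one_left.neg_left)
  have h8 := cop_dens B (polW_deg degQ_le.1 degQ_le.2.1 degQ_le.2.2 hm le_rfl (aV (XX r m n))
    (bV (XX r m n) 0) (dV (XX r m n) 0)) (model_W5 (by omega : 1 ≤ r))
  simp only [map_b, map_Q, map_W] at h6 h7 h8
  intro ε hε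
  refine ((((((((h1.union h2).union h3).union h4).union h5).union h6).union h7).union h8) ε
    hε).mono ?_
  intro x hx
  by_contra hcon
  apply hx
  simp only [Set.mem_union, not_or] at hcon
  obtain ⟨⟨⟨⟨⟨⟨⟨c1, c2⟩, c3⟩, c4⟩, c5⟩, c6⟩, c7⟩, c8⟩ := hcon
  obtain ⟨hD, hD2, hD3⟩ := not_not.1 c1
  have hq := not_not.1 c2
  obtain ⟨hg, hpq⟩ := not_not.1 c3
  obtain ⟨hp, -⟩ := not_not.1 c4
  have hp3 := not_not.1 c5
  have cp : ∀ n' : ℕ, 0 < n' → IsCoprime (polA (bV (kv B x) 0)) (X * (X ^ n' - 1)) := by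
    by_contra h
    exact c6 ⟨hp, h⟩
  have cq : ∀ n' : ℕ, 0 < n' → IsCoprime (polQ (aV (kv B x)) (bV (kv B x) 0) (dV (kv B x) 0))
      (X * (X ^ n' - 1)) := by
    by_contra h
    exact c7 ⟨hq, h⟩
  have cD : ∀ n' : ℕ, 0 < n' → IsCoprime (polW (aV (kv B x)) (bV (kv B x) 0) (dV (kv B x) 0))
      (X * (X ^ n' - 1)) := by
    by_contra h
    exact c8 ⟨hD, h⟩
  exact rank_covers_of hT hg hp hq (hpq hp hq) hp3 hD hD2 hD3 cp cq cD

/-- **Almost all members and all their covers.** -/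
theorem almost_rank (hT : IsTower k k' K F) {r m n : ℕ} (hr : 2 ≤ r) (hm1 : 1 ≤ m) (hm3 : m ≠ 3)
    (hm : m + max m (max (3 * n) (r + n)) ≤ 3 * r) {η : ℝ} (hη : 0 < η) :
    ∃ H0 : ℕ, ∀ H : ℕ, H0 ≤ H →
    (({x : (Fin (r + 1) → 𝓞 k) × (Fin (m + 1) → 𝓞 k) × (Fin (n + 1) → 𝓞 k) |
      ((∀ j t, |B.repr (x.1 j) t| ≤ (H : ℤ)) ∧ (∀ j t, |B.repr (x.2.1 j) t| ≤ (H : ℤ)) ∧
        ∀ j t, |B.repr (x.2.2 j) t| ≤ (H : ℤ)) ∧
      ¬ RankCovers3 k' K F (polA fun j => algebraMap (𝓞 k) k (x.1 j))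
        (polA fun j => algebraMap (𝓞 k) k (x.2.1 j))
        (polA fun j => algebraMap (𝓞 k) k (x.2.2 j))}.ncard : ℕ) : ℝ) ≤
      η * (2 * H + 1) ^ (Fintype.card J * (r + 1 + (m + 1) + (n + 1))) := by
  classical
  set m' : Fin 1 → ℕ := fun _ => m with hm'
  set n' : Fin 1 → ℕ := fun _ => n with hn'
  obtain ⟨H0, hH⟩ := main_rank (n := n') (r := r) (m := m') B hT hr hm1 hm3 hm η hη
  refine ⟨H0, fun H hHH => ?_⟩
  have h1 := hH H hHH
  have hcard : Fintype.card (Ix r m' n' × J) =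
      Fintype.card J * (r + 1 + (m + 1) + (n + 1)) := by
    rw [Fintype.card_prod, card_Ix, Nat.mul_comm]
    simp [hm', hn']
  rw [hcard] at h1
  refine le_trans ?_ h1
  let tb : (Fin (m + 1) → 𝓞 k) → (i : Fin 1) → Fin (m' i + 1) → 𝓞 k := fun y _ => y
  let td : (Fin (n + 1) → 𝓞 k) → (i : Fin 1) → Fin (n' i + 1) → 𝓞 k := fun y _ => y
  let φ : ((Fin (r + 1) → 𝓞 k) × (Fin (m + 1) → 𝓞 k) × (Fin (n + 1) → 𝓞 k)) →
      (Ix r m' n' × J → ℤ) := fun y o =>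
    B.repr ((mk y.1 (tb y.2.1) (td y.2.2) : Ix r m' n' → 𝓞 k) o.1) o.2
  have hkv : ∀ y (o : Ix r m' n'), kv B (φ y) o =
      algebraMap (𝓞 k) k ((mk y.1 (tb y.2.1) (td y.2.2) : Ix r m' n' → 𝓞 k) o) := by
    intro y o
    show algebraMap (𝓞 k) k (elt B fun j =>
      B.repr ((mk y.1 (tb y.2.1) (td y.2.2) : Ix r m' n' → 𝓞 k) o) j) = _
    rw [← basis_elt B]
  have hinj : Function.Injective φ := by
    intro y z hyz
    have h3 : ∀ o : Ix r m' n', (mk y.1 (tb y.2.1) (td y.2.2) : Ix r m' n' → 𝓞 k) o =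
        mk z.1 (tb z.2.1) (td z.2.2) o := by
      intro o
      apply FaithfulSMul.algebraMap_injective (𝓞 k) k
      rw [← hkv, ← hkv, hyz]
    refine Prod.ext ?_ (Prod.ext ?_ ?_)
    · funext j
      exact h3 (Sum.inl (Sum.inl j))
    · funext j
      exact h3 (Sum.inl (Sum.inr ⟨0, j⟩))
    · funext j
      exact h3 (Sum.inr ⟨0, j⟩)
  have h4 : (Set.ncard {x : (Fin (r + 1) → 𝓞 k) × (Fin (m + 1) → 𝓞 k) × (Fin (n + 1) → 𝓞 k) |
      ((∀ j t, |B.repr (x.1 j) t| ≤ (H : ℤ)) ∧ (∀ j t, |B.repr (x.2.1 j) t| ≤ (H : ℤ)) ∧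
        ∀ j t, |B.repr (x.2.2 j) t| ≤ (H : ℤ)) ∧
      ¬ RankCovers3 k' K F (polA fun j => algebraMap (𝓞 k) k (x.1 j))
        (polA fun j => algebraMap (𝓞 k) k (x.2.1 j))
        (polA fun j => algebraMap (𝓞 k) k (x.2.2 j))}) ≤
      Set.ncard {v : Ix r m' n' × J → ℤ | v ∈ {x : Ix r m' n' × J → ℤ | ¬ RankCovers3 k' K F
        (polA (aV (kv B x))) (polA (bV (kv B x) 0)) (polA (dV (kv B x) 0))} ∧
        ∀ i, |v i| ≤ (H : ℤ)} := by
    rw [← Set.ncard_image_of_injective _ hinj]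
    refine Set.ncard_le_ncard ?_ (box_fin _ H)
    rintro _ ⟨y, ⟨⟨b1, b2, b3⟩, hbad⟩, rfl⟩
    have ea : aV (kv B (φ y)) = fun j => algebraMap (𝓞 k) k (y.1 j) := by
      funext j
      exact hkv y (Sum.inl (Sum.inl j))
    have eb : bV (kv B (φ y)) 0 = fun j => algebraMap (𝓞 k) k (y.2.1 j) := by
      funext j
      exact hkv y (Sum.inl (Sum.inr ⟨0, j⟩))
    have ed : dV (kv B (φ y)) 0 = fun j => algebraMap (𝓞 k) k (y.2.2 j) := by
      funext j
      exact hkv y (Sum.inr ⟨0, j⟩)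
    refine ⟨?_, ?_⟩
    · rw [Set.mem_setOf_eq, ea, eb, ed]
      exact hbad
    · rintro ⟨(j | ⟨i, j⟩) | ⟨l, j⟩, t⟩
      · exact b1 j t
      · exact b2 j t
      · exact b3 j t
  exact_mod_cast h4

end main

end Pool.Agent.Helper70K9.TN
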