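import Pool.Agent.Helper70K9.TN.Nf
import Pool.Agent.R939.HI.Fix

/-!
# The family `b = p (p - g ^ 3 - a g)`: local targets
-/

set_option autoImplicit false
set_option linter.all false

namespace Pool.Agent.Helper70K9.TN

open Polynomial NumberField Pool.Agent.R939.EI Pool.Agent.R939.HI Pool.Agent.W275.UB

section pol

variable {R : Type} [CommRing R] {r : ℕ} {m n : Fin 1 → ℕ}

/-- The cofactor `q = p - g ^ 3 - a g`. -/
noncomputable def polQ (a : Fin (r + 1) → R) (p : Fin (m 0 + 1) → R) (g : Fin (n 0 + 1) → R) :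
    R[X] := polA p - polA g ^ 3 - polA a * polA g

/-- The discriminant `a ^ 3 - 27 p q`. -/
noncomputable def polW (a : Fin (r + 1) → R) (p : Fin (m 0 + 1) → R) (g : Fin (n 0 + 1) → R) :
    R[X] := polA a ^ 3 - 27 * (polA p * polQ a p g)

theorem polQ_deg {N : ℕ} (h1 : m 0 ≤ N) (h2 : 3 * n 0 ≤ N) (h3 : r + n 0 ≤ N)
    (a : Fin (r + 1) → R) (p : Fin (m 0 + 1) → R) (g : Fin (n 0 + 1) → R) :
    (polQ a p g).natDegree ≤ N := by
  unfold polQ
  refine (natDegree_sub_le _ _).trans (max_le ((natDegree_sub_le _ _).trans (max_le ?_ ?_)) ?_)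
  · exact (polA_natDegree p).trans h1
  · refine natDegree_pow_le.trans ?_
    exact (Nat.mul_le_mul_left 3 (polA_natDegree g)).trans h2
  · refine natDegree_mul_le.trans ?_
    exact (Nat.add_le_add (polA_natDegree a) (polA_natDegree g)).trans h3

theorem polW_deg {N M : ℕ} (h1 : m 0 ≤ N) (h2 : 3 * n 0 ≤ N) (h3 : r + n 0 ≤ N)
    (h4 : m 0 + N ≤ M) (h5 : 3 * r ≤ M)
    (a : Fin (r + 1) → R) (p : Fin (m 0 + 1) → R) (g : Fin (n 0 + 1) → R) :
    (polW a p g).natDegree ≤ M := by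
  unfold polW
  refine (natDegree_sub_le _ _).trans (max_le ?_ ?_)
  · refine natDegree_pow_le.trans ?_
    exact (Nat.mul_le_mul_left 3 (polA_natDegree a)).trans h5
  · rw [C27]
    refine (natDegree_C_mul_le _ _).trans (natDegree_mul_le.trans ?_)
    exact (Nat.add_le_add (polA_natDegree p) (polQ_deg h1 h2 h3 a p g)).trans h4

variable {s u : ℕ}

theorem map_Q (v : Ix r m n → R) :
    (polQ (aV (XX r m n)) (bV (XX r m n) 0) (dV (XX r m n) 0)).map (av v) =
      polQ (aV v) (bV v 0) (dV v 0) := by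
  unfold polQ
  rw [Polynomial.map_sub, Polynomial.map_sub, Polynomial.map_mul, Polynomial.map_pow, polA_map,
    polA_map, polA_map]
  simp only [aV, bV, dV, av_X]
  rfl

theorem map_W (v : Ix r m n → R) :
    (polW (aV (XX r m n)) (bV (XX r m n) 0) (dV (XX r m n) 0)).map (av v) =
      polW (aV v) (bV v 0) (dV v 0) := by
  unfold polW
  rw [Polynomial.map_sub, Polynomial.map_mul, Polynomial.map_mul, Polynomial.map_pow,
    Polynomial.map_ofNat, map_Q, polA_map, polA_map]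
  simp only [aV, bV, dV, av_X]
  rfl

end pol

section dens

variable {r : ℕ} {m n : Fin 1 → ℕ} {O J : Type} [CommRing O] [IsDomain O]
  [Fintype J] (ω : Module.Basis J ℤ O)

/-- the vector of a polynomial -/
theorem vec {N : ℕ} (f : ℤ[X]) (h : f.natDegree ≤ N) :
    ∃ c : Fin (N + 1) → ℤ, polA c = f := ⟨fun j => f.coeff j, polA_of h⟩

/-- the parameters of a triple of polynomials -/
theorem vecs (a p g : ℤ[X]) (ha : a.natDegree ≤ r) (hp : p.natDegree ≤ m 0)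
    (hg : g.natDegree ≤ n 0) : ∃ v : Ix r m n → ℤ, polA (aV v) = a ∧ polA (bV v 0) = p ∧
      polA (dV v 0) = g := by
  obtain ⟨ca, ea⟩ := vec a ha
  obtain ⟨cp, ep⟩ := vec p hp
  obtain ⟨cg, eg⟩ := vec g hg
  refine ⟨mk ca (fun i j => cp (Fin.cast (by rw [Subsingleton.elim i 0]) j))
    (fun i j => cg (Fin.cast (by rw [Subsingleton.elim i 0]) j)), ?_, ?_, ?_⟩
  · rw [← ea]; rfl
  · rw [← ep]; rfl
  · rw [← eg]; rfl

/-- the degree of `q` -/
def degQ (r : ℕ) (m n : Fin 1 → ℕ) : ℕ := max (m 0) (max (3 * n 0) (r + n 0))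

/-- a model of `q` -/
theorem model_Q (hm : 1 ≤ m 0) (p : ℤ) :
    ∃ (v : Ix r m n → ℤ) (e : ℤ), (e = 1 ∨ e = -1) ∧
      polQ (aV v) (bV v 0) (dV v 0) = C e * X ^ degQ r m n + C p := by
  unfold degQ
  have d1 : ∀ (c : ℤ) (N : ℕ), (C c : ℤ[X]).natDegree ≤ N := fun c N => by
    rw [natDegree_C]
    exact Nat.zero_le _
  rcases le_or_gt (max (3 * n 0) (r + n 0)) (m 0) with h | h
  · rw [max_eq_left h]
    obtain ⟨v, ea, ep, eg⟩ := vecs (r := r) (m := m) (n := n) (0 : ℤ[X]) (X ^ (m 0) + C p) 0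
      (by simp) ((natDegree_add_le _ _).trans (max_le (natDegree_X_pow_le _) (d1 _ _))) (by simp)
    refine ⟨v, 1, Or.inl rfl, ?_⟩
    unfold polQ
    rw [ea, ep, eg, C_1]
    ring
  · rw [max_eq_right h.le]
    rcases le_or_gt (r + n 0) (3 * n 0) with h' | h'
    · rw [max_eq_left h']
      obtain ⟨v, ea, ep, eg⟩ := vecs (r := r) (m := m) (n := n) (0 : ℤ[X]) (C p) (X ^ (n 0))
        (by simp) (d1 _ _) (natDegree_X_pow_le _)
      refine ⟨v, -1, Or.inr rfl, ?_⟩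
      unfold polQ
      rw [ea, ep, eg, C_neg, C_1, ← pow_mul, Nat.mul_comm (n 0) 3]
      ring
    · rw [max_eq_right h'.le]
      obtain ⟨v, ea, ep, eg⟩ := vecs (r := r) (m := m) (n := n) (X ^ r - X ^ (2 * n 0) : ℤ[X]) (C p)
        (X ^ (n 0)) ((natDegree_sub_le _ _).trans (max_le (natDegree_X_pow_le _)
          ((natDegree_X_pow_le _).trans (by omega)))) (d1 _ _) (natDegree_X_pow_le _)
      refine ⟨v, -1, Or.inr rfl, ?_⟩
      unfold polQ
      rw [ea, ep, eg, C_neg, C_1]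
      ring

theorem degQ_le : m 0 ≤ degQ r m n ∧ 3 * n 0 ≤ degQ r m n ∧ r + n 0 ≤ degQ r m n :=
  ⟨le_max_left _ _, (le_max_left _ _).trans (le_max_right _ _),
    (le_max_right _ _).trans (le_max_right _ _)⟩

/-- `q` is irreducible -/
theorem dens_Q (hm : 1 ≤ m 0) :
    D0 (RootSq ω (polQ (aV (XX r m n)) (bV (XX r m n) 0) (dV (XX r m n) 0)) 0
      (degQ r m n - 1)) := by
  have hN : 1 ≤ degQ r m n := hm.trans degQ_le.1
  refine dens_eis (N := degQ r m n) ω hN (by omega)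
    (polQ_deg degQ_le.1 degQ_le.2.1 degQ_le.2.2 _ _ _) ?_
  intro p hp hp2 hp3
  obtain ⟨v, e, he, hv⟩ := model_Q (r := r) (m := m) (n := n) hm (p : ℤ)
  refine ⟨v, 1, isCoprime_one_left, ?_⟩
  rw [map_Q, hv]
  refine ⟨?_, ?_, ?_⟩
  · rw [coeff_add, coeff_C_mul, coeff_X_pow, if_neg (by omega), coeff_C_zero]
    ring
  · rw [coeff_add, coeff_C_mul, coeff_X_pow, if_pos rfl, coeff_C, if_neg (by omega), add_zero,
      mul_one]
    rcases he with rfl | rfl
    · exact isCoprime_one_left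
    · exact isCoprime_one_left.neg_left
  · intro j h0 hN
    rw [coeff_add, coeff_C_mul, coeff_X_pow, if_neg hN, coeff_C, if_neg h0]
    simp

/-- a model of the discriminant -/
theorem model_W (hr : 1 ≤ r) (f : ℤ[X]) (hf : f.natDegree ≤ m 0) :
    ∃ v : Ix r m n → ℤ, polW (aV v) (bV v 0) (dV v 0) =
      C 27 * X ^ (3 * r) - C 27 * (f * (f + 1 + C 3 * X ^ r)) := by
  obtain ⟨v, ea, ep, eg⟩ := vecs (r := r) (m := m) (n := n) (C 3 * X ^ r : ℤ[X]) f (C (-1))
    (natDegree_C_mul_X_pow_le _ _) hf (by rw [natDegree_C]; exact Nat.zero_le _)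
  refine ⟨v, ?_⟩
  unfold polW polQ
  rw [ea, ep, eg, C27, mul_pow, C33, ← pow_mul, Nat.mul_comm r 3, C_neg, C_1]
  ring

/-- the discriminant is irreducible -/
theorem dens_W1 (hr : 1 ≤ r) (hm : m 0 + degQ r m n ≤ 3 * r) :
    D0 (RootSq ω (polW (aV (XX r m n)) (bV (XX r m n) 0) (dV (XX r m n) 0)) 0
      (3 * r - 1)) := by
  refine dens_eis (N := 3 * r) ω (by omega) (by omega)
    (polW_deg degQ_le.1 degQ_le.2.1 degQ_le.2.2 hm le_rfl _ _ _) ?_
  intro p hp hp2 hp3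
  obtain ⟨v, hv⟩ := model_W (r := r) (m := m) (n := n) hr (C (p : ℤ)) (by
    rw [natDegree_C]
    exact Nat.zero_le _)
  refine ⟨v, -27 * (p + 1), ?_, ?_⟩
  · have h1 : IsCoprime ((p : ℤ) + 1) (p : ℤ) := ⟨1, -1, by ring⟩
    exact (cop27 hp hp3).neg_left.mul_left h1
  rw [map_W, hv]
  have e : (C 27 * X ^ (3 * r) - C 27 * (C (p : ℤ) * (C (p : ℤ) + 1 + C 3 * X ^ r)) : ℤ[X]) =
      C 27 * X ^ (3 * r) - C (27 * ((p : ℤ) * ((p : ℤ) + 1))) - C (81 * (p : ℤ)) * X ^ r := by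
    simp only [C_mul, C_add, C_1]
    rw [show (C 81 : ℤ[X]) = C 27 * C 3 by rw [← C_mul]; norm_num]
    ring
  rw [e]
  refine ⟨?_, ?_, ?_⟩
  · rw [coeff_sub, coeff_sub, coeff_C_mul, coeff_X_pow, if_neg (by omega), coeff_C_zero,
      coeff_C_mul, coeff_X_pow, if_neg (by omega)]
    ring
  · rw [coeff_sub, coeff_sub, coeff_C_mul, coeff_X_pow, if_pos rfl, coeff_C, if_neg (by omega),
      coeff_C_mul, coeff_X_pow, if_neg (by omega), mul_zero, sub_zero, sub_zero, mul_one]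
    exact cop27 hp hp3
  · intro j h0 hN
    rw [coeff_sub, coeff_sub, coeff_C_mul, coeff_X_pow, if_neg hN, coeff_C, if_neg h0,
      coeff_C_mul]
    refine ⟨-81 * (X ^ r : ℤ[X]).coeff j, by ring⟩

/-- the discriminant has no factors of small degree over extensions of small degree -/
theorem dens_W2 (hr : 1 ≤ r) (hm1 : 1 ≤ m 0) (hm : m 0 + degQ r m n ≤ 3 * r) {i E : ℕ}
    (hi : 2 ≤ i) (hE : ∀ e, 1 ≤ e → e ≤ E → i * Nat.gcd e (3 * r - 1) < 3 * r - 1) :
    D0 (FacSetE ω (polW (aV (XX r m n)) (bV (XX r m n) 0) (dV (XX r m n) 0)) i E) := by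
  refine dens_edge (N := 3 * r) ω (by omega) hi hE
    (polW_deg degQ_le.1 degQ_le.2.1 degQ_le.2.2 hm le_rfl _ _ _) ?_
  intro p hp hp2 hp3
  obtain ⟨v, hv⟩ := model_W (r := r) (m := m) (n := n) hr (C (p : ℤ) * X ^ 1) (by
    exact (natDegree_C_mul_X_pow_le _ _).trans hm1)
  refine ⟨v, -27, (cop27 hp hp3).neg_left, ?_⟩
  rw [map_W, hv]
  have e : (C 27 * X ^ (3 * r) - C 27 * (C (p : ℤ) * X ^ 1 * (C (p : ℤ) * X ^ 1 + 1 +
      C 3 * X ^ r)) : ℤ[X]) =
      C 27 * X ^ (3 * r) - C (27 * (p : ℤ)) * X ^ 1 - C (27 * (p : ℤ) ^ 2) * X ^ 2 -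
        C (81 * (p : ℤ)) * X ^ (r + 1) := by
    simp only [C_mul, C_pow]
    rw [show (C 81 : ℤ[X]) = C 27 * C 3 by rw [← C_mul]; norm_num]
    ring
  rw [e]
  refine ⟨?_, ?_, ?_, ?_⟩
  · rw [coeff_sub, coeff_sub, coeff_sub, coeff_C_mul, coeff_X_pow, if_neg (by omega), coeff_C_mul,
      coeff_X_pow, if_pos rfl, coeff_C_mul, coeff_X_pow, if_neg (by omega), coeff_C_mul,
      coeff_X_pow, if_neg (by omega)]
    ring
  · rw [coeff_sub, coeff_sub, coeff_sub, coeff_C_mul, coeff_X_pow, if_neg (by omega), coeff_C_mul,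
      coeff_X_pow, if_neg (by omega), coeff_C_mul, coeff_X_pow, if_neg (by omega), coeff_C_mul,
      coeff_X_pow, if_neg (by omega)]
    simp
  · rw [coeff_sub, coeff_sub, coeff_sub, coeff_C_mul, coeff_X_pow, if_pos rfl, coeff_C_mul,
      coeff_X_pow, if_neg (by omega), coeff_C_mul, coeff_X_pow, if_neg (by omega), coeff_C_mul,
      coeff_X_pow, if_neg (by omega), mul_zero, mul_zero, mul_zero, sub_zero, sub_zero, sub_zero,
      mul_one]
    exact cop27 hp hp3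
  · intro j h0 h1 hN
    rw [coeff_sub, coeff_sub, coeff_sub, coeff_C_mul, coeff_X_pow, if_neg hN, coeff_C_mul,
      coeff_X_pow, if_neg h1, coeff_C_mul, coeff_C_mul]
    refine ⟨-(27 * (p : ℤ)) * (X ^ 2 : ℤ[X]).coeff j - 81 * (X ^ (r + 1) : ℤ[X]).coeff j, by ring⟩

end dens

end Pool.Agent.Helper70K9.TN
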